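import Mathlib

set_option autoImplicit false

/-!
# Windmills for rotating families

Abstract small cancellation over an action: a family of subgroups with pseudodistances satisfying a
dichotomy of Behrstock type.  This is a version of `Pool.Agent.H17R2.Windmill` (families of lines)
for rotating families in which each subgroup moves every point far away with respect to its own
pseudodistance.
-/

namespace Pool.Agent.TH65

/-- A rotating family, indexed by `I`, for an action of `Γ` on `V`. -/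
structure Rot (Γ V I : Type*) [Group Γ] [MulAction Γ V] [MulAction Γ I] where
  d : V → V → ℤ
  D : I → V → V → ℤ
  H : I → Subgroup Γ
  K : ℤ
  R : ℤ
  v0 : V
  hK : 20 ≤ K
  hKR : K ≤ R
  d_self : ∀ p, d p p = 0
  d_symm : ∀ p q, d p q = d q p
  d_tri : ∀ p q r, d p r ≤ d p q + d q r
  d_smul : ∀ (g : Γ) p q, d (g • p) (g • q) = d p q
  d_step : ∀ (n : ℕ) q, d v0 q ≤ n + 1 → ∃ p, d v0 p ≤ n ∧ d p q ≤ 1
  D_nonneg : ∀ i p q, 0 ≤ D i p q
  D_symm : ∀ i p q, D i p q = D i q p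
  D_tri : ∀ i p q r, D i p r ≤ D i p q + D i q r
  D_le : ∀ i p q, D i p q ≤ d p q
  D_smul : ∀ (g : Γ) i p q, D (g • i) (g • p) (g • q) = D i p q
  D_H : ∀ i, ∀ h ∈ H i, ∀ p q, D i (h • p) (h • q) = D i p q
  H_smul : ∀ (g : Γ) i h, h ∈ H i → g * h * g⁻¹ ∈ H (g • i)
  htau : ∀ i, ∀ h ∈ H i, h ≠ 1 → ∀ p, R ≤ D i (h • p) p
  dich : ∀ i j, (H i = H j ∧ ∀ p q, D i p q = D j p q) ∨
    ∃ A B : Set V, (∀ p, p ∈ A ∨ p ∈ B) ∧
      (∀ a ∈ A, ∀ a' ∈ A, K * D i a a' < R) ∧ (∀ b ∈ B, ∀ b' ∈ B, K * D j b b' < R)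

namespace Rot

variable {Γ V I : Type*} [Group Γ] [MulAction Γ V] [MulAction Γ I] (S : Rot Γ V I)

/-- Two indices describe the same piece. -/
def Same (i j : I) : Prop :=
  S.H i = S.H j ∧ ∀ p q, S.D i p q = S.D j p q

lemma Same.symm {i j : I} (h : S.Same i j) : S.Same j i :=
  ⟨h.1.symm, fun p q => (h.2 p q).symm⟩

lemma Same.refl (i : I) : S.Same i i := ⟨rfl, fun _ _ => rfl⟩

lemma Same.trans {i j k : I} (h : S.Same i j) (h' : S.Same j k) : S.Same i k :=
  ⟨h.1.trans h'.1, fun p q => (h.2 p q).trans (h'.2 p q)⟩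

lemma D_smul' (g : Γ) (i : I) (p q : V) : S.D (g • i) p q = S.D i (g⁻¹ • p) (g⁻¹ • q) := by
  have := S.D_smul g i (g⁻¹ • p) (g⁻¹ • q)
  rwa [smul_inv_smul, smul_inv_smul] at this

lemma mem_H_smul (g : Γ) (i : I) (h : Γ) : h ∈ S.H (g • i) ↔ g⁻¹ * h * g ∈ S.H i := by
  constructor
  · intro hh
    have := S.H_smul g⁻¹ (g • i) h hh
    simpa using this
  · intro hh
    have := S.H_smul g i _ hh
    have e : g * (g⁻¹ * h * g) * g⁻¹ = h := by group
    rwa [e] at this

lemma Same.smul {i j : I} (h : S.Same i j) (g : Γ) : S.Same (g • i) (g • j) := by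
  refine ⟨?_, ?_⟩
  · ext x
    rw [S.mem_H_smul, S.mem_H_smul, h.1]
  · intro p q
    rw [S.D_smul', S.D_smul', h.2]

lemma D_self (i : I) (p : V) : S.D i p p = 0 :=
  le_antisymm (by have := S.D_le i p p; rwa [S.d_self] at this) (S.D_nonneg i p p)

lemma R_pos : 0 < S.R := by have := S.hK; have := S.hKR; omega

lemma KD_tri (j : I) (p q r : V) : S.K * S.D j p r ≤ S.K * S.D j p q + S.K * S.D j q r := by
  rw [← mul_add]
  have hK := S.hK
  exact mul_le_mul_of_nonneg_left (S.D_tri _ _ _ _) (by omega)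

/-- The state of the windmill construction. -/
structure Mill where
  W : Set V
  N : Subgroup Γ
  J : Set I
  w0 : S.v0 ∈ W
  w1 : ∀ n ∈ N, ∀ p ∈ W, n • p ∈ W
  w2 : ∀ i ∈ J, S.H i ≤ N
  w4 : ∀ i, i ∉ J → ∀ p ∈ W, ∀ q ∈ W, S.K * S.D i p q ≤ 5 * S.R
  w5 : ∀ n ∈ N, ∀ i ∈ J, n • i ∈ J
  w6 : ∀ h ∈ N, h ≠ 1 → ∃ i, ∃ x ∈ S.H i, x ≠ 1 ∧ S.K * S.D i S.v0 (x⁻¹ • h • S.v0) ≤ 6 * S.R
  w7 : ∀ i ∈ J, ∀ j, S.Same i j → j ∈ J

namespace Mill

variable {S} (M : Mill S)

/-- The pieces which are added at the next step. -/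
def J1 : Set I := {i | i ∉ M.J ∧ ∃ p ∈ M.W, ∃ q ∈ M.W, S.R ≤ S.K * S.D i p q}

lemma J1_smul (n : Γ) (hn : n ∈ M.N) (i : I) (hi : i ∈ M.J1) : n • i ∈ M.J1 := by
  refine ⟨?_, ?_⟩
  · intro h
    have := M.w5 n⁻¹ (M.N.inv_mem hn) _ h
    rw [inv_smul_smul] at this
    exact hi.1 this
  · obtain ⟨p, hp, q, hq, h⟩ := hi.2
    refine ⟨n • p, M.w1 n hn p hp, n • q, M.w1 n hn q hq, ?_⟩
    rw [S.D_smul]
    exact h

lemma J1_same {i j : I} (hi : i ∈ M.J1) (h : S.Same i j) : j ∈ M.J1 := by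
  refine ⟨fun hj => hi.1 (M.w7 j hj i (Same.symm S h)), ?_⟩
  obtain ⟨p, hp, q, hq, h'⟩ := hi.2
  refine ⟨p, hp, q, hq, ?_⟩
  rw [← h.2]
  exact h'

/-- Normal forms of elements of the next group. -/
inductive Rep : Γ → List (I × Γ) → Prop
  | base (n : Γ) (hn : n ∈ M.N) : Rep n []
  | cons (i : I) (h g : Γ) (l : List (I × Γ)) (hi : i ∈ M.J1) (hh : h ∈ S.H i) (h1 : h ≠ 1)
      (hr : Rep g l) (hne : ∀ j k t, l = (j, k) :: t → ¬ S.Same i j) : Rep (h * g) ((i, h) :: l)

lemma rep_mul_N {g : Γ} {l : List (I × Γ)} (h : M.Rep g l) :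
    ∀ n ∈ M.N, M.Rep (n * g) (l.map fun x => (n • x.1, n * x.2 * n⁻¹)) := by
  induction h with
  | base m hm => intro n hn; exact Rep.base _ (M.N.mul_mem hn hm)
  | cons i h g l hi hh h1 hr hne ih =>
    intro n hn
    have e : n * (h * g) = (n * h * n⁻¹) * (n * g) := by group
    rw [e, List.map_cons]
    refine Rep.cons _ _ _ _ (M.J1_smul n hn i hi) (S.H_smul n i h hh) ?_ (ih n hn) ?_
    · intro h2
      apply h1
      have := congrArg (fun z => n⁻¹ * z * n) h2
      simpa [mul_assoc] using this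
    · intro j k t hl hs
      cases l with
      | nil => simp at hl
      | cons x t' =>
        obtain ⟨j', k'⟩ := x
        simp only [List.map_cons, List.cons.injEq, Prod.mk.injEq] at hl
        obtain ⟨⟨rfl, _⟩, _⟩ := hl
        refine hne j' k' t' rfl ?_
        have := Same.smul S hs n⁻¹
        rwa [inv_smul_smul, inv_smul_smul] at this

lemma rep_mul_H {g : Γ} {l : List (I × Γ)} (h : M.Rep g l) (i : I) (hi : i ∈ M.J1) (x : Γ)
    (hx : x ∈ S.H i) : ∃ l', M.Rep (x * g) l' := by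
  by_cases hx1 : x = 1
  · subst hx1; exact ⟨l, by simpa using h⟩
  cases h with
  | base n hn =>
    exact ⟨_, Rep.cons i x _ [] hi hx hx1 (Rep.base _ hn) (by simp)⟩
  | cons j k g' t hj hk hk1 hr hne =>
    by_cases hs : S.Same i j
    · have hx' : x ∈ S.H j := hs.1 ▸ hx
      by_cases hxk : x * k = 1
      · refine ⟨t, ?_⟩
        rw [← mul_assoc, hxk, one_mul]; exact hr
      · refine ⟨(j, x * k) :: t, ?_⟩
        rw [← mul_assoc]
        exact Rep.cons j (x * k) g' t hj ((S.H j).mul_mem hx' hk) hxk hr hne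
    · refine ⟨(i, x) :: (j, k) :: t, ?_⟩
      refine Rep.cons i x _ _ hi hx hx1 (Rep.cons j k g' t hj hk hk1 hr hne) ?_
      intro j' k' t' hl
      simp only [List.cons.injEq, Prod.mk.injEq] at hl
      obtain ⟨⟨rfl, _⟩, _⟩ := hl
      exact hs

/-- The next group. -/
def N' : Subgroup Γ := Subgroup.closure ((M.N : Set Γ) ∪ ⋃ i ∈ M.J1, (S.H i : Set Γ))

lemma le_N' : M.N ≤ M.N' := fun _ hx => Subgroup.subset_closure (Or.inl hx)

lemma H_le_N' {i : I} (hi : i ∈ M.J1) : S.H i ≤ M.N' := fun x hx =>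
  Subgroup.subset_closure (Or.inr (Set.mem_iUnion₂.mpr ⟨i, hi, hx⟩))

lemma exists_rep {x : Γ} (hx : x ∈ M.N') : ∃ l, M.Rep x l := by
  induction hx using Subgroup.closure_induction_left with
  | one => exact ⟨[], Rep.base 1 M.N.one_mem⟩
  | mul_left a ha y hy ih =>
    obtain ⟨l, hl⟩ := ih
    rcases ha with ha | ha
    · exact ⟨_, M.rep_mul_N hl a ha⟩
    · obtain ⟨i, hi, ha⟩ := Set.mem_iUnion₂.mp ha
      exact M.rep_mul_H hl i hi a ha
  | inv_mul_cancel a ha y hy ih =>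
    obtain ⟨l, hl⟩ := ih
    rcases ha with ha | ha
    · exact ⟨_, M.rep_mul_N hl a⁻¹ (M.N.inv_mem ha)⟩
    · obtain ⟨i, hi, ha⟩ := Set.mem_iUnion₂.mp ha
      exact M.rep_mul_H hl i hi a⁻¹ ((S.H i).inv_mem ha)

/-- `x` projects near the windmill on the piece `i`. -/
def Before (i : I) (x : V) : Prop := ∀ p ∈ M.W, S.K * S.D i x p ≤ 6 * S.R

lemma before_W {i : I} (hi : i ∉ M.J) {x : V} (hx : x ∈ M.W) : M.Before i x := by
  intro p hp
  have := M.w4 i hi x hx p hp
  have := S.R_pos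
  linarith

lemma move {i : I} {x : V} (hb : M.Before i x) {h : Γ} (hh : h ∈ S.H i) (h1 : h ≠ 1) :
    ∀ p ∈ M.W, (S.K - 6) * S.R ≤ S.K * S.D i (h • x) p := by
  intro p hp
  have hτ := S.htau i h hh h1 x
  have h2 := hb p hp
  have hK := S.hK
  have h3 := S.KD_tri i (h • x) p x
  rw [S.D_symm i p x] at h3
  have h5 : S.K * S.R ≤ S.K * S.D i (h • x) x := mul_le_mul_of_nonneg_left hτ (by omega)
  nlinarith

lemma transfer {i j : I} (hi : i ∈ M.J1) (hj : j ∈ M.J1) (hs : ¬ S.Same i j) {x : V}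
    (hf : ∀ p ∈ M.W, S.R ≤ S.K * S.D i x p) : M.Before j x := by
  rcases S.dich i j with h | ⟨A, B, hAB, hA, hB⟩
  · exact absurd h hs
  -- a point of W which is not in B
  obtain ⟨hj0, p, hp, q, hq, hpq⟩ := hj
  have h1 : ∃ p1 ∈ M.W, p1 ∉ B := by
    by_contra hcon
    push Not at hcon
    have := hB _ (hcon p hp) _ (hcon q hq)
    omega
  obtain ⟨p1, hp1, hp1B⟩ := h1
  have hp1A : p1 ∈ A := (hAB p1).resolve_right hp1B
  obtain ⟨-, p', hp', q', hq', hpq'⟩ := hi
  have h2 : ∃ p2 ∈ M.W, p2 ∉ A := by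
    by_contra hcon
    push Not at hcon
    have := hA _ (hcon p' hp') _ (hcon q' hq')
    omega
  obtain ⟨p2, hp2, hp2A⟩ := h2
  have hp2B : p2 ∈ B := (hAB p2).resolve_left hp2A
  have hxA : x ∉ A := by
    intro hxA
    have h3 := hA _ hxA _ hp1A
    have h4 := hf p1 hp1
    omega
  have hxB : x ∈ B := (hAB x).resolve_left hxA
  intro r hr
  have h5 := hB _ hxB _ hp2B
  have h6 := M.w4 j hj0 p2 hp2 r hr
  have h8 := S.KD_tri j x p2 r
  linarith

lemma rep_head {g : Γ} {l : List (I × Γ)} (hr : M.Rep g l) : ∀ i h t, l = (i, h) :: t →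
    i ∈ M.J1 := by
  intro i h t hl
  cases hr with
  | base n hn => simp at hl
  | cons i' h' g' l' hi hh h1 hr hne =>
    simp only [List.cons.injEq, Prod.mk.injEq] at hl
    obtain ⟨⟨rfl, _⟩, _⟩ := hl
    exact hi

/-- Ping-pong. -/
lemma ping {g : Γ} {l : List (I × Γ)} (hr : M.Rep g l) : ∀ i h t, l = (i, h) :: t →
    ∀ q ∈ M.W, M.Before i (h⁻¹ • g • q) := by
  induction hr with
  | base n hn => intro i h t hl; simp at hl
  | cons i h g l hi hh h1 hr hne ih =>
    intro i' h' t' hl q hq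
    simp only [List.cons.injEq, Prod.mk.injEq] at hl
    obtain ⟨⟨rfl, rfl⟩, rfl⟩ := hl
    have e : h⁻¹ • (h * g) • q = g • q := by rw [smul_smul]; simp
    rw [e]
    cases hr with
    | base n hn => exact M.before_W hi.1 (M.w1 _ hn q hq)
    | cons j k g' t hj hk hk1 hr' hne' =>
      have hs : ¬ S.Same i j := hne j k t rfl
      have hb := ih j k t rfl q hq
      have hm := M.move hb hk hk1
      rw [smul_inv_smul] at hm
      refine M.transfer hj hi (fun h => hs (Same.symm S h)) (fun p hp => ?_)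
      have h2 := hm p hp
      have hK := S.hK
      have hL := S.R_pos
      nlinarith

/-- The pieces of the next windmill. -/
def J' : Set I := {j | ∃ n ∈ M.N', ∃ i, (i ∈ M.J ∨ i ∈ M.J1) ∧ S.Same (n • i) j}

lemma J'_smul {n : Γ} (hn : n ∈ M.N') {j : I} (hj : j ∈ M.J') : n • j ∈ M.J' := by
  obtain ⟨m, hm, i, hi, hs⟩ := hj
  refine ⟨n * m, M.N'.mul_mem hn hm, i, hi, ?_⟩
  have := Same.smul S hs n
  rwa [smul_smul] at this

lemma J'_smul_not {n : Γ} (hn : n ∈ M.N') {j : I} (hj : j ∉ M.J') : n • j ∉ M.J' := by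
  intro h
  have := M.J'_smul (M.N'.inv_mem hn) h
  rw [inv_smul_smul] at this
  exact hj this

lemma subset_J' {j : I} (h : j ∈ M.J ∨ j ∈ M.J1) : j ∈ M.J' :=
  ⟨1, M.N'.one_mem, j, h, by rw [one_smul]; exact Same.refl S j⟩

lemma small_W {j : I} (hj : j ∉ M.J') {p q : V} (hp : p ∈ M.W) (hq : q ∈ M.W) :
    S.K * S.D j p q < S.R := by
  by_contra hcon
  push Not at hcon
  have h1 : j ∉ M.J := fun h => hj (M.subset_J' (Or.inl h))
  exact hj (M.subset_J' (Or.inr ⟨h1, p, hp, q, hq, hcon⟩))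

lemma rep_mem {g : Γ} {l : List (I × Γ)} (hr : M.Rep g l) : g ∈ M.N' := by
  induction hr with
  | base n hn => exact M.le_N' hn
  | cons i h g l hi hh h1 hr hne ih => exact M.N'.mul_mem (M.H_le_N' hi hh) ih

/-- The main estimate: how far apart the parts of the next windmill can be on a piece which is
not used. -/
lemma claim {g : Γ} {l : List (I × Γ)} (hr : M.Rep g l) : ∀ q ∈ M.W, ∀ j, j ∉ M.J' →
    (∃ y ∈ M.W, S.K * S.D j y (g • q) < S.R) ∨
    (∃ i h t, l = (i, h) :: t ∧ ∀ x, M.Before i x → S.K * S.D j x (g • q) < 3 * S.R) := by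
  induction hr with
  | base n hn =>
    intro q hq j hj
    left
    refine ⟨n • q, M.w1 n hn q hq, ?_⟩
    have := S.R_pos
    rw [S.D_self]
    simpa using this
  | cons i h g l hi hh h1 hr hne ih =>
    intro q hq j hj
    have hrep : M.Rep (h * g) ((i, h) :: l) := Rep.cons i h g l hi hh h1 hr hne
    have hK := S.hK
    have hLi := S.R_pos
    have hij : ¬ S.Same i j := by
      intro hs
      exact hj (M.subset_J' (Or.inr (M.J1_same hi hs)))
    rcases S.dich i j with hs | ⟨A, B, hAB, hA, hB⟩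
    · exact absurd hs hij
    by_cases hα : ∃ x, M.Before i x ∧ x ∈ A
    · -- all points behind the piece project to B
      left
      obtain ⟨x, hx, hxA⟩ := hα
      have hbq := M.ping hrep i h l rfl q hq
      have hcq : (h * g) • q ∉ A := by
        intro hcA
        have h2 := hA _ hcA _ hxA
        have h3 := M.move hbq hh h1 S.v0 M.w0
        rw [smul_inv_smul] at h3
        have h4 := hx S.v0 M.w0
        have h5 := S.KD_tri i ((h * g) • q) x S.v0
        nlinarith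
      have hqB : (h * g) • q ∈ B := (hAB _).resolve_left hcq
      obtain ⟨-, p', hp', q', hq', hpq'⟩ := hi
      have h2 : ∃ p2 ∈ M.W, p2 ∉ A := by
        by_contra hcon
        push Not at hcon
        have := hA _ (hcon p' hp') _ (hcon q' hq')
        omega
      obtain ⟨p2, hp2, hp2A⟩ := h2
      have hp2B : p2 ∈ B := (hAB p2).resolve_left hp2A
      exact ⟨p2, hp2, hB _ hp2B _ hqB⟩
    · right
      push Not at hα
      refine ⟨i, h, l, rfl, ?_⟩
      intro x hx
      have hxB : x ∈ B := (hAB x).resolve_left (hα x hx)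
      -- translate by h⁻¹
      have hhN : h⁻¹ ∈ M.N' := M.N'.inv_mem (M.H_le_N' hi hh)
      have hj' : h⁻¹ • j ∉ M.J' := M.J'_smul_not hhN hj
      have hc : ∀ y z, S.D (h⁻¹ • j) y z = S.D j (h • y) (h • z) := by
        intro y z; rw [S.D_smul']; simp
      rcases ih q hq (h⁻¹ • j) hj' with ⟨y, hy, hyq⟩ | ⟨i2, h2, t, hl, hfar⟩
      · rw [hc, smul_smul] at hyq
        -- a point of h W which is not in A
        obtain ⟨-, p', hp', q', hq', hpq'⟩ := hi
        have h2 : ∃ y1 ∈ M.W, h • y1 ∉ A := by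
          by_contra hcon
          push Not at hcon
          have h3 := hA _ (hcon p' hp') _ (hcon q' hq')
          rw [S.D_H i h hh] at h3
          omega
        obtain ⟨y1, hy1, hy1A⟩ := h2
        have hy1B : h • y1 ∈ B := (hAB _).resolve_left hy1A
        have e1 := hB _ hxB _ hy1B
        have e2 := M.small_W hj' hy1 hy
        rw [hc] at e2
        have e3 := S.KD_tri j x (h • y1) ((h * g) • q)
        have e4 := S.KD_tri j (h • y1) (h • y) ((h * g) • q)
        linarith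
      · subst hl
        have hs2 : ¬ S.Same i i2 := hne i2 h2 t rfl
        have hi2 : i2 ∈ M.J1 := M.rep_head hr i2 h2 t rfl
        have hb : M.Before i2 (h⁻¹ • x) := by
          refine M.transfer hi hi2 hs2 (fun p hp => ?_)
          have h3 := M.move hx ((S.H i).inv_mem hh) (inv_ne_one.mpr h1) p hp
          nlinarith
        have h3 := hfar _ hb
        rw [hc, smul_inv_smul, smul_smul] at h3
        exact h3

/-- The next windmill. -/
def next : Mill S where
  W := {q | ∃ n ∈ M.N', ∃ p ∈ M.W, S.d (n • p) q ≤ 1}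
  N := M.N'
  J := M.J'
  w0 := ⟨1, M.N'.one_mem, S.v0, M.w0, by rw [one_smul, S.d_self]; norm_num⟩
  w1 := by
    rintro n hn q ⟨m, hm, p, hp, hd⟩
    refine ⟨n * m, M.N'.mul_mem hn hm, p, hp, ?_⟩
    rw [← smul_smul, S.d_smul]
    exact hd
  w2 := by
    rintro j ⟨n, hn, i, hi, hs⟩ x hx
    rw [← hs.1, S.mem_H_smul] at hx
    have h1 : n⁻¹ * x * n ∈ M.N' := by
      rcases hi with hi | hi
      · exact M.le_N' (M.w2 i hi hx)
      · exact M.H_le_N' hi hx
    have h2 := M.N'.mul_mem (M.N'.mul_mem hn h1) (M.N'.inv_mem hn)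
    have e : n * (n⁻¹ * x * n) * n⁻¹ = x := by group
    rwa [e] at h2
  w4 := by
    rintro j hj p' ⟨n, hn, p, hp, hdp⟩ q' ⟨m, hm, q, hq, hdq⟩
    have hK := S.hK
    have hKL := S.hKR
    -- translate
    have hj' : n⁻¹ • j ∉ M.J' := M.J'_smul_not (M.N'.inv_mem hn) hj
    have hc : ∀ y z, S.D (n⁻¹ • j) y z = S.D j (n • y) (n • z) := by
      intro y z; rw [S.D_smul']; simp
    obtain ⟨l, hl⟩ := M.exists_rep (M.N'.mul_mem (M.N'.inv_mem hn) hm)
    have e0 : n • (n⁻¹ * m) • q = m • q := by rw [smul_smul]; simp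
    have key : S.K * S.D j (n • p) (m • q) < 3 * S.R := by
      rcases M.claim hl q hq _ hj' with ⟨y, hy, hyq⟩ | ⟨i, h, t, hl', hfar⟩
      · have h1 := M.small_W hj' hp hy
        rw [hc] at h1 hyq
        rw [e0] at hyq
        have h2 := S.KD_tri j (n • p) (n • y) (m • q)
        linarith
      · subst hl'
        have hi : i ∈ M.J1 := M.rep_head hl i h t rfl
        have h1 := hfar p (M.before_W hi.1 hp)
        rw [hc, e0] at h1
        exact h1
    have h1 := S.D_le j (n • p) p'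
    have h2 := S.D_le j (m • q) q'
    have t1 := S.D_tri j p' (n • p) q'
    have t2 := S.D_tri j (n • p) (m • q) q'
    have t3 := S.D_symm j p' (n • p)
    have h3 : S.D j p' q' ≤ S.D j (n • p) (m • q) + 2 := by omega
    have h4 : S.K * S.D j p' q' ≤ S.K * (S.D j (n • p) (m • q) + 2) :=
      mul_le_mul_of_nonneg_left h3 (by omega)
    nlinarith
  w5 := fun n hn i hi => M.J'_smul hn hi
  w6 := by
    intro h hh h1
    obtain ⟨l, hl⟩ := M.exists_rep hh
    cases hl with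
    | base n hn => exact M.w6 _ hn h1
    | cons i k g t hi hk hk1 hr hne =>
      refine ⟨i, k, hk, hk1, ?_⟩
      have hb := M.ping (Rep.cons i k g t hi hk hk1 hr hne) i k t rfl S.v0 M.w0 S.v0 M.w0
      rwa [S.D_symm]
  w7 := by
    rintro i ⟨n, hn, i', hi', hs⟩ j hij
    exact ⟨n, hn, i', hi', Same.trans S hs hij⟩

end Mill

/-- The first windmill. -/
def start : Mill S where
  W := {q | S.d S.v0 q ≤ 0}
  N := ⊥
  J := ∅
  w0 := by
    show S.d S.v0 S.v0 ≤ 0
    rw [S.d_self]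
  w1 := by
    intro n hn p hp
    rw [Subgroup.mem_bot] at hn
    subst hn
    simpa using hp
  w2 := by simp
  w4 := by
    intro i _ p hp q hq
    have hp' : S.d S.v0 p ≤ 0 := hp
    have hq' : S.d S.v0 q ≤ 0 := hq
    have h0 := S.R_pos
    have h1 := S.D_le i p q
    have h2 := S.d_tri p S.v0 q
    rw [S.d_symm p S.v0] at h2
    have h3 := S.D_nonneg i p q
    have h4 : S.D i p q = 0 := by omega
    rw [h4]
    linarith
  w5 := by simp
  w6 := by
    intro h hh h1
    exact absurd (Subgroup.mem_bot.mp hh) h1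
  w7 := by simp

/-- The sequence of windmills. -/
def mill (n : ℕ) : Mill S := (fun M => M.next)^[n] S.start

lemma mill_succ (n : ℕ) : S.mill (n + 1) = (S.mill n).next := by
  rw [mill, Function.iterate_succ_apply']; rfl

lemma mill_ball (n : ℕ) : ∀ q, S.d S.v0 q ≤ n → q ∈ (S.mill n).W := by
  induction n with
  | zero =>
    intro q hq
    exact (by simpa using hq : S.d S.v0 q ≤ 0)
  | succ n ih =>
    intro q hq
    obtain ⟨p, hp, hpq⟩ := S.d_step n q (by simpa using hq)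
    rw [mill_succ]
    exact ⟨1, (S.mill n).N'.one_mem, p, ih p hp, by rwa [one_smul]⟩

lemma mill_N_mono {m n : ℕ} (h : m ≤ n) : (S.mill m).N ≤ (S.mill n).N := by
  induction n, h using Nat.le_induction with
  | base => exact le_rfl
  | succ k _ ih =>
    rw [mill_succ]
    exact ih.trans (S.mill k).le_N'

lemma exists_H_le (i : I) : ∃ n, S.H i ≤ (S.mill n).N := by
  by_cases hbot : S.H i = ⊥
  · exact ⟨0, by rw [hbot]; exact bot_le⟩
  obtain ⟨⟨h, hh⟩, ha⟩ := Subgroup.ne_bot_iff_exists_ne_one.1 hbot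
  have h1 : h ≠ 1 := fun h0 => ha (Subtype.ext h0)
  have hK := S.hK
  have hR := S.R_pos
  have hpq : S.R ≤ S.K * S.D i (h • S.v0) S.v0 := by
    have := S.htau i h hh h1 S.v0
    nlinarith
  set p := h • S.v0
  set q := S.v0
  obtain ⟨n, hn1, hn2⟩ : ∃ n : ℕ, S.d S.v0 p ≤ n ∧ S.d S.v0 q ≤ n := by
    refine ⟨(S.d S.v0 p).toNat + (S.d S.v0 q).toNat, ?_, ?_⟩ <;> push_cast <;> omega
  refine ⟨n + 1, ?_⟩
  have hp := S.mill_ball n p hn1
  have hq := S.mill_ball n q hn2
  have hi : i ∈ (S.mill (n + 1)).J := by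
    rw [mill_succ]
    refine (S.mill n).subset_J' ?_
    by_cases h : i ∈ (S.mill n).J
    · exact Or.inl h
    · exact Or.inr ⟨h, p, hp, q, hq, hpq⟩
  exact (S.mill (n + 1)).w2 i hi

/-- **Strong Greendlinger lemma**, abstract form. -/
theorem windmill (h : Γ) (hh : h ∈ ⨆ i, S.H i) (h1 : h ≠ 1) :
    ∃ i, ∃ x ∈ S.H i, x ≠ 1 ∧ S.K * S.D i S.v0 (x⁻¹ • h • S.v0) ≤ 6 * S.R := by
  have key : ∃ n, h ∈ (S.mill n).N := by
    have hdir : Directed (· ≤ ·) fun n => (S.mill n).N :=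
      (show Monotone fun n => (S.mill n).N from fun a b hab => S.mill_N_mono hab).directed_le
    have hle : (⨆ i, S.H i) ≤ ⨆ n, (S.mill n).N := by
      refine iSup_le fun i => ?_
      obtain ⟨n, hn⟩ := S.exists_H_le i
      exact hn.trans (le_iSup (fun n => (S.mill n).N) n)
    exact (Subgroup.mem_iSup_of_directed hdir).mp (hle hh)
  obtain ⟨n, hn⟩ := key
  exact (S.mill n).w6 h hn h1

end Rot

end Pool.Agent.TH65
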