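import Mathlib
import Pool.Agent.Helper495.E97.Tree2
import Pool.Agent.TH65.Windmill

set_option autoImplicit false

/-!
# Subgroups with convex orbit in a group with a tree length function
-/

namespace Pool.Agent.TH65

open Pool.Agent.Helper495.E97

variable {H : Type*} [Group H]

/-- The orbit of the base vertex under `F` is convex: every element of `F` splits off an element
of length one of `F`. -/
def Conv1 (T : TreeLength H) (F : Subgroup H) : Prop :=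
  ∀ f ∈ F, 0 < T.L f → ∃ e ∈ F, T.L e = 1 ∧ T.L (e⁻¹ * f) + 1 = T.L f

namespace Conv1

variable {T : TreeLength H} {F : Subgroup H}

theorem exists_gate (hF : Conv1 T F) (p : H) :
    ∃ g ∈ F, ∀ f ∈ F, T.L (f⁻¹ * p) = T.L (f⁻¹ * g) + T.L (g⁻¹ * p) := by
  classical
  have hex : ∃ n, ∃ g ∈ F, T.L (g⁻¹ * p) = n := ⟨_, 1, F.one_mem, rfl⟩
  obtain ⟨g, hg, hgn⟩ := Nat.find_spec hex
  have hmin : ∀ g' ∈ F, T.L (g⁻¹ * p) ≤ T.L (g'⁻¹ * p) := by
    intro g' hg'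
    rw [hgn]
    exact Nat.find_min' hex ⟨g', hg', rfl⟩
  refine ⟨g, hg, fun f hf => ?_⟩
  have e1 : f⁻¹ * p = (f⁻¹ * g) * (g⁻¹ * p) := by group
  rw [e1, T.add_iff]
  by_contra hne
  have hpos : 0 < T.c (f⁻¹ * g) (g⁻¹ * p)⁻¹ := Nat.pos_of_ne_zero hne
  have hf' : g⁻¹ * f ∈ F := F.mul_mem (F.inv_mem hg) hf
  have hLf : 0 < T.L (g⁻¹ * f) := by
    have := T.c_le_left (f⁻¹ * g) (g⁻¹ * p)⁻¹
    have h2 := T.L_inv (g⁻¹ * f)
    rw [mul_inv_rev, inv_inv] at h2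
    omega
  obtain ⟨e, he, he1, he2⟩ := hF _ hf' hLf
  have c1 : 0 < T.c e⁻¹ (f⁻¹ * g) := by
    have h1 := T.hc e⁻¹ (f⁻¹ * g)
    have h2 := T.L_inv (g⁻¹ * f)
    rw [mul_inv_rev, inv_inv] at h2
    have h3 : e⁻¹ * (f⁻¹ * g)⁻¹ = e⁻¹ * (g⁻¹ * f) := by group
    rw [h3, T.L_inv] at h1
    omega
  have c2 := T.pos_trans c1 hpos
  have h1 := T.hc e⁻¹ (g⁻¹ * p)⁻¹
  rw [inv_inv, T.L_inv, T.L_inv] at h1
  have h3 := hmin (g * e) (F.mul_mem hg he)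
  have h4 : (g * e)⁻¹ * p = e⁻¹ * (g⁻¹ * p) := by group
  rw [h4] at h3
  omega

/-- nearest point of the orbit -/
noncomputable def gt (hF : Conv1 T F) (p : H) : H := (hF.exists_gate p).choose

theorem gt_mem (hF : Conv1 T F) (p : H) : hF.gt p ∈ F := (hF.exists_gate p).choose_spec.1

theorem gt_spec (hF : Conv1 T F) (p : H) : ∀ f ∈ F,
    T.L (f⁻¹ * p) = T.L (f⁻¹ * hF.gt p) + T.L ((hF.gt p)⁻¹ * p) :=
  (hF.exists_gate p).choose_spec.2

/-- distance to the orbit -/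
noncomputable def del (hF : Conv1 T F) (p : H) : ℕ := T.L ((hF.gt p)⁻¹ * p)

/-- distance of the projections -/
noncomputable def D (hF : Conv1 T F) (p q : H) : ℕ := T.L ((hF.gt p)⁻¹ * hF.gt q)

theorem L_symm (T : TreeLength H) (p q : H) : T.L (p⁻¹ * q) = T.L (q⁻¹ * p) := by
  have := T.L_inv (p⁻¹ * q)
  rw [mul_inv_rev, inv_inv] at this
  exact this.symm

theorem L_tri (T : TreeLength H) (p q r : H) :
    T.L (p⁻¹ * r) ≤ T.L (p⁻¹ * q) + T.L (q⁻¹ * r) := by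
  have := T.L_mul_le (p⁻¹ * q) (q⁻¹ * r)
  have e : p⁻¹ * q * (q⁻¹ * r) = p⁻¹ * r := by group
  rwa [e] at this

theorem L_trans (T : TreeLength H) (g p q : H) : T.L ((g * p)⁻¹ * (g * q)) = T.L (p⁻¹ * q) := by
  congr 1; group

theorem D_formula (hF : Conv1 T F) (p q : H) :
    hF.D p q = T.L (p⁻¹ * q) - hF.del p - hF.del q := by
  unfold D del
  set a := hF.gt p with ha
  set b := hF.gt q with hb
  have h1 := hF.gt_spec p b (hF.gt_mem q)
  have h2 := hF.gt_spec q a (hF.gt_mem p)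
  rw [← ha] at h1
  rw [← hb] at h2
  have s1 := L_symm T a b
  have s2 := L_symm T p q
  have t1 := L_tri T p a q
  have s3 := L_symm T p a
  -- four point condition
  have u1 := T.hc (a⁻¹ * p)⁻¹ (a⁻¹ * q)⁻¹
  have u2 := T.hc (a⁻¹ * p)⁻¹ (a⁻¹ * b)⁻¹
  have u3 := T.hc (a⁻¹ * b)⁻¹ (a⁻¹ * q)⁻¹
  have e1 : (a⁻¹ * p)⁻¹ * (a⁻¹ * q)⁻¹⁻¹ = p⁻¹ * q := by group
  have e2 : (a⁻¹ * p)⁻¹ * (a⁻¹ * b)⁻¹⁻¹ = p⁻¹ * b := by group
  have e3 : (a⁻¹ * b)⁻¹ * (a⁻¹ * q)⁻¹⁻¹ = b⁻¹ * q := by group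
  rw [e1, T.L_inv, T.L_inv] at u1
  rw [e2, T.L_inv, T.L_inv] at u2
  rw [e3, T.L_inv, T.L_inv] at u3
  have s4 := L_symm T p b
  -- c (a⁻¹p)⁻¹ (a⁻¹b)⁻¹ = 0,  c (a⁻¹b)⁻¹ (a⁻¹q)⁻¹ = L (a⁻¹ b)
  have v1 := T.ultra (a⁻¹ * q)⁻¹ (a⁻¹ * p)⁻¹ (a⁻¹ * b)⁻¹
  have v2 := T.ultra (a⁻¹ * b)⁻¹ (a⁻¹ * q)⁻¹ (a⁻¹ * p)⁻¹
  rw [T.c_comm (a⁻¹ * q)⁻¹ (a⁻¹ * p)⁻¹] at v1 v2
  rw [T.c_comm (a⁻¹ * b)⁻¹ (a⁻¹ * p)⁻¹] at v2
  rw [T.c_comm (a⁻¹ * q)⁻¹ (a⁻¹ * b)⁻¹] at v1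
  simp only [min_def] at v1 v2
  split_ifs at v1 v2 <;> omega

theorem del_le (hF : Conv1 T F) (p f : H) (hf : f ∈ F) : hF.del p ≤ T.L (f⁻¹ * p) := by
  have := hF.gt_spec p f hf
  unfold del
  omega

theorem del_mul (hF : Conv1 T F) (p f : H) (hf : f ∈ F) : hF.del (f * p) = hF.del p := by
  have h1 : ∀ p f : H, f ∈ F → hF.del (f * p) ≤ hF.del p := by
    intro p f hf
    have := hF.del_le (f * p) (f * hF.gt p) (F.mul_mem hf (hF.gt_mem p))
    rw [L_trans] at this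
    exact this
  apply le_antisymm (h1 p f hf)
  have := h1 (f * p) f⁻¹ (F.inv_mem hf)
  rwa [inv_mul_cancel_left] at this

theorem D_mul (hF : Conv1 T F) (p q f : H) (hf : f ∈ F) : hF.D (f * p) (f * q) = hF.D p q := by
  rw [D_formula, D_formula, L_trans, hF.del_mul p f hf, hF.del_mul q f hf]

theorem D_symm (hF : Conv1 T F) (p q : H) : hF.D p q = hF.D q p := L_symm T _ _

theorem D_tri (hF : Conv1 T F) (p q r : H) : hF.D p r ≤ hF.D p q + hF.D q r := L_tri T _ _ _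

theorem D_le (hF : Conv1 T F) (p q : H) : hF.D p q ≤ T.L (p⁻¹ * q) := by
  rw [D_formula]; omega

theorem del_mem (hF : Conv1 T F) (f : H) (hf : f ∈ F) : hF.del f = 0 := by
  have := hF.del_le f f hf
  rw [inv_mul_cancel, T.L_one] at this
  omega

theorem D_mem (hF : Conv1 T F) (f g : H) (hf : f ∈ F) (hg : g ∈ F) : hF.D f g = T.L (f⁻¹ * g) := by
  rw [D_formula, hF.del_mem f hf, hF.del_mem g hg]; omega

/-- elements of `F` with long displacement move all projections far away -/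
theorem D_move (hF : Conv1 T F) (n p : H) (hn : n ∈ F) :
    hF.D (n * p) p = T.L ((hF.gt p)⁻¹ * n * hF.gt p) := by
  have h1 : hF.D (n * p) (n * hF.gt p) = 0 := by
    rw [hF.D_mul _ _ _ hn, D_formula, hF.del_mem _ (hF.gt_mem p)]
    unfold del
    rw [L_symm T]
    omega
  have h1' : hF.D p (hF.gt p) = 0 := by
    rw [hF.D_mul _ _ _ hn] at h1
    exact h1
  have h2 : hF.D (n * hF.gt p) (hF.gt p) = T.L ((n * hF.gt p)⁻¹ * hF.gt p) :=
    hF.D_mem _ _ (F.mul_mem hn (hF.gt_mem p)) (hF.gt_mem p)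
  have h3 := hF.D_tri (n * p) (n * hF.gt p) p
  have h4 := hF.D_tri (n * hF.gt p) (hF.gt p) p
  have h5 := hF.D_tri (n * hF.gt p) (n * p) (hF.gt p)
  have h6 := hF.D_tri (n * p) p (hF.gt p)
  have s1 := hF.D_symm (n * hF.gt p) (n * p)
  have s2 := hF.D_symm (hF.gt p) p
  have e : (n * hF.gt p)⁻¹ * hF.gt p = ((hF.gt p)⁻¹ * n * hF.gt p)⁻¹ := by group
  rw [e, T.L_inv] at h2
  omega

/-- Bounded overlap of the orbit with its translates. -/
def Ov (T : TreeLength H) (F : Subgroup H) (c₀ : ℕ) : Prop :=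
  ∀ x, T.L x = 0 → x ∉ F → ∀ w ∈ F, ∀ w' ∈ F, T.L (w⁻¹ * x * w') = 0 → T.L w ≤ c₀

theorem small_overlap (hF : Conv1 T F) {c₀ : ℕ} (hO : Ov T F c₀) (γ f f' : H) (hγ : γ ∉ F)
    (hf : f ∈ F) (hf' : f' ∈ F) : hF.D (γ * f) (γ * f') ≤ c₀ := by
  by_contra hcon
  push Not at hcon
  set y := γ * f with hy
  set y' := γ * f' with hy'
  have h1 := hF.D_formula y y'
  have hdy : hF.del y = T.L ((hF.gt y)⁻¹ * y) := rfl
  have hdy' : hF.del y' = T.L ((hF.gt y')⁻¹ * y') := rfl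
  have hD : hF.D y y' = T.L ((hF.gt y)⁻¹ * hF.gt y') := rfl
  have aux : ∀ g : H, T.L (y⁻¹ * g) + T.L (y'⁻¹ * g) = T.L (y⁻¹ * y') →
      T.L ((hF.gt (γ⁻¹ * g))⁻¹ * (γ⁻¹ * g)) = 0 := by
    intro g hg
    have a1 := hF.gt_spec (γ⁻¹ * g) f hf
    have a2 := hF.gt_spec (γ⁻¹ * g) f' hf'
    have e1 : f⁻¹ * (γ⁻¹ * g) = y⁻¹ * g := by rw [hy]; group
    have e2 : f'⁻¹ * (γ⁻¹ * g) = y'⁻¹ * g := by rw [hy']; group
    rw [e1] at a1
    rw [e2] at a2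
    have e3 : y⁻¹ * y' = f⁻¹ * f' := by rw [hy, hy']; group
    rw [e3] at hg
    have a3 := L_tri T f (hF.gt (γ⁻¹ * g)) f'
    have a4 := L_symm T (hF.gt (γ⁻¹ * g)) f'
    omega
  have b1 := hF.gt_spec y' (hF.gt y) (hF.gt_mem y)
  have b2 := hF.gt_spec y (hF.gt y') (hF.gt_mem y')
  have s1 := L_symm T y (hF.gt y)
  have s2 := L_symm T y' (hF.gt y)
  have s3 := L_symm T y (hF.gt y')
  have s4 := L_symm T y' (hF.gt y')
  have s5 := L_symm T (hF.gt y) (hF.gt y')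
  have g1 := aux (hF.gt y) (by omega)
  have g2 := aux (hF.gt y') (by omega)
  set g := hF.gt y with hg
  set g' := hF.gt y' with hg'
  set z := hF.gt (γ⁻¹ * g) with hz
  set z' := hF.gt (γ⁻¹ * g') with hz'
  have hzF : z ∈ F := hF.gt_mem _
  have hzF' : z' ∈ F := hF.gt_mem _
  have hgF : g ∈ F := hF.gt_mem _
  have hgF' : g' ∈ F := hF.gt_mem _
  have h3 := hO (g⁻¹ * γ * z) (by
      rw [← T.L_inv]
      rw [← g1]
      congr 1
      group) (by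
      intro hmem
      apply hγ
      have : γ = g * (g⁻¹ * γ * z) * z⁻¹ := by group
      rw [this]
      exact F.mul_mem (F.mul_mem hgF hmem) (F.inv_mem hzF)) (g⁻¹ * g')
      (F.mul_mem (F.inv_mem hgF) hgF') (z⁻¹ * z') (F.mul_mem (F.inv_mem hzF) hzF') (by
      rw [← T.L_inv, ← g2]
      congr 1
      group)
  omega

/-- The dichotomy. -/
theorem dich (hF : Conv1 T F) (i j p : H) :
    (∃ f ∈ F, hF.D (i⁻¹ * p) (i⁻¹ * (j * f)) = 0) ∨
      (∃ f ∈ F, hF.D (j⁻¹ * p) (j⁻¹ * (i * f)) = 0) := by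
  have h1 : hF.del (i⁻¹ * p) = T.L ((hF.gt (i⁻¹ * p))⁻¹ * (i⁻¹ * p)) := rfl
  have h2 : hF.del (j⁻¹ * p) = T.L ((hF.gt (j⁻¹ * p))⁻¹ * (j⁻¹ * p)) := rfl
  rcases le_total (hF.del (j⁻¹ * p)) (hF.del (i⁻¹ * p)) with h | h
  · left
    refine ⟨hF.gt (j⁻¹ * p), hF.gt_mem _, ?_⟩
    rw [D_formula]
    have e : T.L ((i⁻¹ * p)⁻¹ * (i⁻¹ * (j * hF.gt (j⁻¹ * p)))) =
        T.L ((hF.gt (j⁻¹ * p))⁻¹ * (j⁻¹ * p)) := by
      rw [L_symm T]; congr 1; group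
    rw [e]
    omega
  · right
    refine ⟨hF.gt (i⁻¹ * p), hF.gt_mem _, ?_⟩
    rw [D_formula]
    have e : T.L ((j⁻¹ * p)⁻¹ * (j⁻¹ * (i * hF.gt (i⁻¹ * p)))) =
        T.L ((hF.gt (i⁻¹ * p))⁻¹ * (i⁻¹ * p)) := by
      rw [L_symm T]; congr 1; group
    rw [e]
    omega

end Conv1

/-- Data for a small cancellation quotient over a tree. -/
structure Cfg (T : TreeLength H) (F N : Subgroup H) (c₀ R : ℕ) : Prop where
  conv : Conv1 T F
  ov : Conv1.Ov T F c₀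
  NF : N ≤ F
  norm : ∀ f ∈ F, ∀ n ∈ N, f * n * f⁻¹ ∈ N
  far : ∀ n ∈ N, n ≠ 1 → R ≤ T.L n
  hR : 100 * (c₀ + 1) ≤ R

theorem mem_conj_comap (N : Subgroup H) (i x : H) :
    x ∈ N.comap (MulAut.conj i⁻¹).toMonoidHom ↔ i⁻¹ * x * i ∈ N := by simp

namespace Cfg

variable {T : TreeLength H} {F N : Subgroup H} {c₀ R : ℕ} (S : Cfg T F N c₀ R)

/-- the rotating family of all conjugates of `N` -/
noncomputable def rot : Rot H H H where
  d p q := T.L (p⁻¹ * q)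
  D i p q := S.conv.D (i⁻¹ * p) (i⁻¹ * q)
  H i := N.comap (MulAut.conj i⁻¹).toMonoidHom
  K := 20
  R := R
  v0 := 1
  hK := le_rfl
  hKR := by have := S.hR; push_cast; omega
  d_self p := by rw [inv_mul_cancel, T.L_one]; rfl
  d_symm p q := by rw [Conv1.L_symm T]
  d_tri p q r := by exact_mod_cast Conv1.L_tri T p q r
  d_smul g p q := by simp only [smul_eq_mul]; rw [Conv1.L_trans]
  d_step n q hq := by
    rw [inv_one, one_mul] at hq
    rcases Nat.eq_zero_or_pos (T.L q) with h0 | h0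
    · refine ⟨q, ?_, ?_⟩
      · rw [inv_one, one_mul, h0]; push_cast; omega
      · rw [inv_mul_cancel, T.L_one]; norm_num
    · obtain ⟨u, s, h1, h2, h3⟩ := T.split q h0
      refine ⟨u, ?_, ?_⟩
      · rw [inv_one, one_mul]; omega
      · rw [h1, inv_mul_cancel_left, h2]; norm_num
  D_nonneg i p q := by positivity
  D_symm i p q := by rw [S.conv.D_symm]
  D_tri i p q r := by exact_mod_cast S.conv.D_tri _ _ _
  D_le i p q := by
    have := S.conv.D_le (i⁻¹ * p) (i⁻¹ * q)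
    rw [Conv1.L_trans] at this
    exact_mod_cast this
  D_smul g i p q := by
    simp only [smul_eq_mul]
    congr 2 <;> group
  D_H i h hh p q := by
    have h1 : i⁻¹ * h * i ∈ N := by simpa using hh
    have h2 := S.conv.D_mul (i⁻¹ * p) (i⁻¹ * q) _ (S.NF h1)
    simp only [smul_eq_mul]
    rw [← h2]
    congr 2 <;> group
  H_smul g i h hh := by
    have h1 : i⁻¹ * h * i ∈ N := by simpa using hh
    have h2 : (g * i)⁻¹ * (g * h * g⁻¹) * (g * i) ∈ N := by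
      have e : (g * i)⁻¹ * (g * h * g⁻¹) * (g * i) = i⁻¹ * h * i := by group
      rwa [e]
    exact (mem_conj_comap N (g * i) (g * h * g⁻¹)).2 h2
  htau i h hh h1 p := by
    have h2 : i⁻¹ * h * i ∈ N := by simpa using hh
    have h3 : i⁻¹ * h * i ≠ 1 := by
      intro h0
      apply h1
      have : h = i * (i⁻¹ * h * i) * i⁻¹ := by group
      rw [this, h0]; group
    have h4 := S.conv.D_move (i⁻¹ * h * i) (i⁻¹ * p) (S.NF h2)
    have e : i⁻¹ * h * i * (i⁻¹ * p) = i⁻¹ * (h • p) := by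
      simp only [smul_eq_mul]; group
    rw [e] at h4
    rw [h4]
    set g := S.conv.gt (i⁻¹ * p) with hg
    have hgF : g ∈ F := S.conv.gt_mem _
    have h5 : g⁻¹ * (i⁻¹ * h * i) * g ∈ N := by
      have := S.norm g⁻¹ (F.inv_mem hgF) _ h2
      rwa [inv_inv] at this
    have h6 : g⁻¹ * (i⁻¹ * h * i) * g ≠ 1 := by
      intro h0
      apply h3
      have : i⁻¹ * h * i = g * (g⁻¹ * (i⁻¹ * h * i) * g) * g⁻¹ := by group
      rw [this, h0]; group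
    exact_mod_cast S.far _ h5 h6
  dich i j := by
    by_cases hij : i⁻¹ * j ∈ F
    · left
      refine ⟨?_, ?_⟩
      · ext x
        have e1 : x ∈ N.comap (MulAut.conj i⁻¹).toMonoidHom ↔ i⁻¹ * x * i ∈ N := by simp
        have e2 : x ∈ N.comap (MulAut.conj j⁻¹).toMonoidHom ↔ j⁻¹ * x * j ∈ N := by simp
        rw [e1, e2]
        constructor
        · intro h
          have := S.norm (i⁻¹ * j)⁻¹ (F.inv_mem hij) _ h
          have e : (i⁻¹ * j)⁻¹ * (i⁻¹ * x * i) * (i⁻¹ * j)⁻¹⁻¹ = j⁻¹ * x * j := by group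
          rwa [e] at this
        · intro h
          have := S.norm (i⁻¹ * j) hij _ h
          have e : (i⁻¹ * j) * (j⁻¹ * x * j) * (i⁻¹ * j)⁻¹ = i⁻¹ * x * i := by group
          rwa [e] at this
      · intro p q
        have := S.conv.D_mul (j⁻¹ * p) (j⁻¹ * q) _ hij
        have e1 : i⁻¹ * j * (j⁻¹ * p) = i⁻¹ * p := by group
        have e2 : i⁻¹ * j * (j⁻¹ * q) = i⁻¹ * q := by group
        rw [e1, e2] at this
        exact_mod_cast this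
    · right
      have hji : j⁻¹ * i ∉ F := by
        intro h
        apply hij
        have := F.inv_mem h
        rwa [mul_inv_rev, inv_inv] at this
      have hR := S.hR
      refine ⟨{p | ∃ f ∈ F, S.conv.D (i⁻¹ * p) (i⁻¹ * (j * f)) = 0},
        {p | ∃ f ∈ F, S.conv.D (j⁻¹ * p) (j⁻¹ * (i * f)) = 0}, S.conv.dich i j, ?_, ?_⟩
      · rintro a ⟨f, hf, h⟩ a' ⟨f', hf', h'⟩
        have h1 := S.conv.small_overlap S.ov (i⁻¹ * j) f f' hij hf hf'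
        rw [mul_assoc, mul_assoc] at h1
        have h2 := S.conv.D_tri (i⁻¹ * a) (i⁻¹ * (j * f)) (i⁻¹ * a')
        have h3 := S.conv.D_tri (i⁻¹ * (j * f)) (i⁻¹ * (j * f')) (i⁻¹ * a')
        rw [S.conv.D_symm (i⁻¹ * (j * f')) (i⁻¹ * a')] at h3
        push_cast
        omega
      · rintro a ⟨f, hf, h⟩ a' ⟨f', hf', h'⟩
        have h1 := S.conv.small_overlap S.ov (j⁻¹ * i) f f' hji hf hf'
        rw [mul_assoc, mul_assoc] at h1
        have h2 := S.conv.D_tri (j⁻¹ * a) (j⁻¹ * (i * f)) (j⁻¹ * a')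
        have h3 := S.conv.D_tri (j⁻¹ * (i * f)) (j⁻¹ * (i * f')) (j⁻¹ * a')
        rw [S.conv.D_symm (j⁻¹ * (i * f')) (j⁻¹ * a')] at h3
        push_cast
        omega

/-- Strong Greendlinger lemma. -/
theorem green (h : H) (hh : h ∈ Subgroup.normalClosure (N : Set H)) (h1 : h ≠ 1) (u : H) :
    ∃ i x : H, i⁻¹ * x * i ∈ N ∧ x ≠ 1 ∧
      20 * S.conv.D (i⁻¹ * u) (i⁻¹ * (x⁻¹ * h * u)) ≤ 6 * R := by
  have hle : Subgroup.normalClosure (N : Set H) ≤ ⨆ i, S.rot.H i := by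
    rw [Subgroup.normalClosure, Subgroup.closure_le]
    intro y hy
    rw [Group.mem_conjugatesOfSet_iff] at hy
    obtain ⟨n, hn, hny⟩ := hy
    rw [isConj_iff] at hny
    obtain ⟨g, rfl⟩ := hny
    refine (le_iSup S.rot.H g : S.rot.H g ≤ _) ?_
    have : g⁻¹ * (g * n * g⁻¹) * g ∈ N := by
      have e : g⁻¹ * (g * n * g⁻¹) * g = n := by group
      rwa [e]
    have h2 : g * n * g⁻¹ ∈ N.comap (MulAut.conj g⁻¹).toMonoidHom := by simpa using this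
    exact h2
  have hu : u⁻¹ * h * u ∈ Subgroup.normalClosure (N : Set H) := by
    have := (Subgroup.normalClosure_normal (s := (N : Set H))).conj_mem h hh u⁻¹
    rwa [inv_inv] at this
  have hu1 : u⁻¹ * h * u ≠ 1 := by
    intro h0
    apply h1
    have : h = u * (u⁻¹ * h * u) * u⁻¹ := by group
    rw [this, h0]; group
  obtain ⟨i, x, hx, hx1, hD⟩ := S.rot.windmill (u⁻¹ * h * u) (hle hu) hu1
  have hx' : i⁻¹ * x * i ∈ N := by
    have : x ∈ N.comap (MulAut.conj i⁻¹).toMonoidHom := hx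
    simpa using this
  refine ⟨u * i, u * x * u⁻¹, ?_, ?_, ?_⟩
  · have e : (u * i)⁻¹ * (u * x * u⁻¹) * (u * i) = i⁻¹ * x * i := by group
    rwa [e]
  · intro h0
    apply hx1
    have : x = u⁻¹ * (u * x * u⁻¹) * u := by group
    rw [this, h0]; group
  · have hD' : (20 : ℤ) * (S.conv.D (i⁻¹ * 1) (i⁻¹ * (x⁻¹ * (u⁻¹ * h * u * 1))) : ℕ) ≤ 6 * (R : ℤ) := hD
    have e1 : (u * i)⁻¹ * u = i⁻¹ * 1 := by group
    have e2 : (u * i)⁻¹ * ((u * x * u⁻¹)⁻¹ * h * u) = i⁻¹ * (x⁻¹ * (u⁻¹ * h * u * 1)) := by group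
    rw [e1, e2]
    exact_mod_cast hD'

end Cfg

end Pool.Agent.TH65
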