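import Mathlib
import Pool.Agent.TH65.Gate

set_option autoImplicit false

/-!
# The small cancellation quotient: embeddings and malnormality
-/

namespace Pool.Agent.TH65

open Pool.Agent.Helper495.E97

variable {H : Type*} [Group H]

namespace Conv1

variable {T : TreeLength H} {F : Subgroup H}

/-- distance to the translate `j F` -/
noncomputable def dj (hF : Conv1 T F) (j p : H) : ℕ := hF.del (j⁻¹ * p)

/-- distance of the projections to the translate `j F` -/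
noncomputable def Dj (hF : Conv1 T F) (j p q : H) : ℕ := hF.D (j⁻¹ * p) (j⁻¹ * q)

/-- distance -/
def ds (T : TreeLength H) (p q : H) : ℕ := T.L (p⁻¹ * q)

theorem ds_symm (p q : H) : ds T p q = ds T q p := L_symm T p q

theorem ds_tri (p q r : H) : ds T p r ≤ ds T p q + ds T q r := L_tri T p q r

theorem Dj_formula (hF : Conv1 T F) (j p q : H) :
    hF.Dj j p q = ds T p q - hF.dj j p - hF.dj j q := by
  unfold Dj ds dj
  rw [D_formula, L_trans]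

theorem Dj_symm (hF : Conv1 T F) (j p q : H) : hF.Dj j p q = hF.Dj j q p := hF.D_symm _ _

theorem Dj_tri (hF : Conv1 T F) (j p q r : H) : hF.Dj j p r ≤ hF.Dj j p q + hF.Dj j q r :=
  hF.D_tri _ _ _

theorem Dj_smul (hF : Conv1 T F) (g j p q : H) : hF.Dj (g * j) (g * p) (g * q) = hF.Dj j p q := by
  unfold Dj
  congr 1 <;> group

theorem dj_smul (hF : Conv1 T F) (g j p : H) : hF.dj (g * j) (g * p) = hF.dj j p := by
  unfold dj
  congr 1; group

theorem Dj_coset (hF : Conv1 T F) (j f p q : H) (hf : f ∈ F) : hF.Dj (j * f) p q = hF.Dj j p q := by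
  unfold Dj
  rw [← hF.D_mul ((j * f)⁻¹ * p) ((j * f)⁻¹ * q) f hf]
  congr 1 <;> group

theorem dj_coset (hF : Conv1 T F) (j f p : H) (hf : f ∈ F) : hF.dj (j * f) p = hF.dj j p := by
  unfold dj
  rw [← hF.del_mul ((j * f)⁻¹ * p) f hf]
  congr 1; group

/-- invariance under the stabilizer of the piece -/
theorem Dj_stab (hF : Conv1 T F) (j x p q : H) (hx : j⁻¹ * x * j ∈ F) :
    hF.Dj j (x * p) (x * q) = hF.Dj j p q := by
  have h1 := hF.Dj_smul x j p q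
  have h2 : x * j = j * (j⁻¹ * x * j) := by group
  rw [h2, hF.Dj_coset _ _ _ _ hx] at h1
  exact h1

theorem dj_stab (hF : Conv1 T F) (j x p : H) (hx : j⁻¹ * x * j ∈ F) :
    hF.dj j (x * p) = hF.dj j p := by
  have h1 := hF.dj_smul x j p
  have h2 : x * j = j * (j⁻¹ * x * j) := by group
  rw [h2, hF.dj_coset _ _ _ hx] at h1
  exact h1

theorem Dj_overlap (hF : Conv1 T F) {c₀ : ℕ} (hO : Ov T F c₀) (i j f f' : H) (hij : i⁻¹ * j ∉ F)
    (hf : f ∈ F) (hf' : f' ∈ F) : hF.Dj i (j * f) (j * f') ≤ c₀ := by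
  have := hF.small_overlap hO (i⁻¹ * j) f f' hij hf hf'
  rw [mul_assoc, mul_assoc] at this
  exact this

theorem Dj_le (hF : Conv1 T F) (j p q : H) : hF.Dj j p q ≤ ds T p q := by
  rw [Dj_formula]; omega

theorem dj_gate (hF : Conv1 T F) (j p : H) : ∃ f ∈ F, ds T p (j * f) = hF.dj j p := by
  refine ⟨hF.gt (j⁻¹ * p), hF.gt_mem _, ?_⟩
  unfold ds dj del
  rw [L_symm]
  congr 1; group

theorem dj_le (hF : Conv1 T F) (j p f : H) (hf : f ∈ F) : hF.dj j p ≤ ds T p (j * f) := by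
  unfold ds dj
  have := hF.del_le (j⁻¹ * p) f hf
  rw [L_symm]
  have e : (j * f)⁻¹ * p = f⁻¹ * (j⁻¹ * p) := by group
  rwa [e]

theorem dj_mem (hF : Conv1 T F) (j f : H) (hf : f ∈ F) : hF.dj j (j * f) = 0 := by
  unfold dj
  rw [inv_mul_cancel_left]
  exact hF.del_mem f hf

/-- elliptic elements of `F` -/
theorem ell (hF : Conv1 T F) {c₀ : ℕ} (f : H) (hf : f ∈ F) (hb : ∀ k : ℕ, T.L (f ^ k) ≤ c₀) :
    ∃ e ∈ F, T.L (e * f * e⁻¹) = 0 := by
  let V : Subgroup H :=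
    { carrier := {x | x ∈ F ∧ T.L x = 0}
      mul_mem' := by
        rintro a b ⟨ha, ha'⟩ ⟨hb, hb'⟩
        refine ⟨F.mul_mem ha hb, ?_⟩
        have := T.L_mul_le a b
        omega
      one_mem' := ⟨F.one_mem, T.L_one⟩
      inv_mem' := by
        rintro a ⟨ha, ha'⟩
        exact ⟨F.inv_mem ha, by rw [T.L_inv]; exact ha'⟩ }
  have hC : T.Conv V F {e | e ∈ F ∧ T.L e = 1} :=
    { V0 := fun v hv => hv.2
      VX := fun v hv => hv.1
      SX := fun s hs => hs.1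
      S1 := fun s hs => hs.2
      ell := fun α hα h0 => ⟨hα, h0⟩
      last := by
        intro α hα h0
        obtain ⟨e, he, he1, he2⟩ := hF α⁻¹ (F.inv_mem hα) (by rw [T.L_inv]; exact h0)
        refine ⟨e⁻¹, ⟨F.inv_mem he, by rw [T.L_inv]; exact he1⟩, ?_⟩
        have h1 := T.hc α e⁻¹
        rw [inv_inv, T.L_inv, he1] at h1
        rw [T.L_inv] at he2
        have h2 : T.L (e⁻¹ * α⁻¹) = T.L (α * e) := by
          rw [← T.L_inv (α * e), mul_inv_rev]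
        omega }
  obtain ⟨k, hk, hk' | hk'⟩ := hC.exists_conj T hf
  · exact ⟨k, hk, hk'⟩
  · exfalso
    have h1 := hk'.pow T (c₀ + 2 * T.L k + 1)
    have h2 := hk'.1
    have h3 : (k * f * k⁻¹) ^ (c₀ + 2 * T.L k + 1) = k * f ^ (c₀ + 2 * T.L k + 1) * k⁻¹ := by
      rw [conj_pow]
    rw [h3] at h1
    have h4 := T.L_mul_le (k * f ^ (c₀ + 2 * T.L k + 1)) k⁻¹
    have h5 := T.L_mul_le k (f ^ (c₀ + 2 * T.L k + 1))
    have h6 := hb (c₀ + 2 * T.L k + 1)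
    rw [T.L_inv] at h4
    have h7 : c₀ + 2 * T.L k + 1 ≤ (c₀ + 2 * T.L k + 1) * T.L (k * f * k⁻¹) :=
      Nat.le_mul_of_pos_right _ h2
    omega

end Conv1

/-- Malnormality data. -/
structure MalData (T : TreeLength H) (F : Subgroup H) : Prop where
  F5 : ∀ a ∈ F, T.L a = 0 → a ≠ 1 → ∀ x, T.L (x⁻¹ * a * x) = 2 * T.L x
  malA : ∀ a ∈ F, T.L a = 0 → a ≠ 1 → ∀ x, T.L x = 0 → x⁻¹ * a * x ∈ F → x ∈ F

open Conv1

theorem mal_aux {T : TreeLength H} {F : Subgroup H} {c₀ : ℕ} (hF : Conv1 T F) (hO : Ov T F c₀)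
    (φ γ : H) (hφ : φ ∈ F) (hγ : γ ∉ F) (h : γ⁻¹ * φ * γ ∈ F) :
    ∃ e ∈ F, T.L (e * φ * e⁻¹) = 0 := by
  have hb : ∀ k : ℕ, T.L (((hF.gt γ)⁻¹ * φ * hF.gt γ) ^ k) ≤ c₀ := by
    intro k
    have h1 := hF.D_move (φ ^ k) γ (F.pow_mem hφ k)
    have h2 := hF.small_overlap hO γ ((γ⁻¹ * φ * γ) ^ k) 1 hγ (F.pow_mem h k) F.one_mem
    have e1 : γ * (γ⁻¹ * φ * γ) ^ k = φ ^ k * γ := by
      have : (γ⁻¹ * φ * γ) ^ k = γ⁻¹ * φ ^ k * γ := by
        have := conj_pow (a := γ⁻¹) (b := φ) (i := k)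
        rwa [inv_inv] at this
      rw [this]; group
    rw [e1, mul_one] at h2
    have e2 : ((hF.gt γ)⁻¹ * φ * hF.gt γ) ^ k = (hF.gt γ)⁻¹ * φ ^ k * hF.gt γ := by
      have := conj_pow (a := (hF.gt γ)⁻¹) (b := φ) (i := k)
      rwa [inv_inv] at this
    rw [e2, ← h1]
    exact h2
  have hg := hF.gt_mem γ
  obtain ⟨e, he, he'⟩ := hF.ell _ (F.mul_mem (F.mul_mem (F.inv_mem hg) hφ) hg) hb
  refine ⟨e * (hF.gt γ)⁻¹, F.mul_mem he (F.inv_mem hg), ?_⟩
  rw [← he']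
  congr 1; group

/-- `F` is malnormal. -/
theorem mal {T : TreeLength H} {F : Subgroup H} {c₀ : ℕ} (hF : Conv1 T F) (hO : Ov T F c₀)
    (hM : MalData T F) (φ γ : H) (hφ : φ ∈ F) (hφ1 : φ ≠ 1) (h : γ⁻¹ * φ * γ ∈ F) : γ ∈ F := by
  by_contra hγ
  obtain ⟨e, he, he'⟩ := mal_aux hF hO φ γ hφ hγ h
  have hγ' : γ⁻¹ ∉ F := fun h' => hγ (by have := F.inv_mem h'; rwa [inv_inv] at this)
  obtain ⟨k, hk, hk'⟩ := mal_aux hF hO (γ⁻¹ * φ * γ) γ⁻¹ h hγ' (by
    have : γ⁻¹⁻¹ * (γ⁻¹ * φ * γ) * γ⁻¹ = φ := by group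
    rwa [this])
  have h1 : e * φ * e⁻¹ ≠ 1 := by
    intro h0
    apply hφ1
    have : φ = e⁻¹ * (e * φ * e⁻¹) * e := by group
    rw [this, h0]; group
  have h2 := hM.F5 (e * φ * e⁻¹) (F.mul_mem (F.mul_mem he hφ) (F.inv_mem he)) he' h1 (e * γ * k⁻¹)
  have e1 : (e * γ * k⁻¹)⁻¹ * (e * φ * e⁻¹) * (e * γ * k⁻¹) = k * (γ⁻¹ * φ * γ) * k⁻¹ := by group
  rw [e1, hk'] at h2
  have h3 := hM.malA (e * φ * e⁻¹) (F.mul_mem (F.mul_mem he hφ) (F.inv_mem he)) he' h1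
    (e * γ * k⁻¹) (by omega) (by
      rw [e1]
      exact F.mul_mem (F.mul_mem hk h) (F.inv_mem hk))
  apply hγ
  have : γ = e⁻¹ * (e * γ * k⁻¹) * k := by group
  rw [this]
  exact F.mul_mem (F.mul_mem (F.inv_mem he) h3) hk

namespace Cfg

variable {T : TreeLength H} {F N : Subgroup H} {c₀ R : ℕ} (S : Cfg T F N c₀ R)

include S

/-- Strong Greendlinger lemma, with lower bound. -/
theorem green' (h : H) (hh : h ∈ Subgroup.normalClosure (N : Set H)) (h1 : h ≠ 1) (u : H) :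
    ∃ i x : H, i⁻¹ * x * i ∈ N ∧ x ∈ Subgroup.normalClosure (N : Set H) ∧
      20 * S.conv.Dj i u (x⁻¹ * h * u) ≤ 6 * R ∧ 14 * R ≤ 20 * S.conv.Dj i u (h * u) := by
  obtain ⟨i, x, hx, hx1, hD⟩ := S.green h hh h1 u
  have hxn : x ∈ Subgroup.normalClosure (N : Set H) := by
    have h2 := (Subgroup.normalClosure_normal (s := (N : Set H))).conj_mem _
      (Subgroup.subset_normalClosure hx) i
    have e : i * (i⁻¹ * x * i) * i⁻¹ = x := by group
    rwa [e] at h2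
  refine ⟨i, x, hx, hxn, hD, ?_⟩
  have hD' : 20 * S.conv.Dj i u (x⁻¹ * h * u) ≤ 6 * R := hD
  -- the displacement of x
  have h2 := S.conv.D_move (i⁻¹ * x * i) (i⁻¹ * (x⁻¹ * h * u)) (S.NF hx)
  set g := S.conv.gt (i⁻¹ * (x⁻¹ * h * u)) with hg
  have hgF : g ∈ F := S.conv.gt_mem _
  have h5 : g⁻¹ * (i⁻¹ * x * i) * g ∈ N := by
    have := S.norm g⁻¹ (F.inv_mem hgF) _ hx
    rwa [inv_inv] at this
  have h6 : g⁻¹ * (i⁻¹ * x * i) * g ≠ 1 := by
    intro h0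
    apply hx1
    have : x = i * g * (g⁻¹ * (i⁻¹ * x * i) * g) * g⁻¹ * i⁻¹ := by group
    rw [this, h0]; group
  have h7 := S.far _ h5 h6
  have e1 : i⁻¹ * x * i * (i⁻¹ * (x⁻¹ * h * u)) = i⁻¹ * (h * u) := by group
  rw [e1] at h2
  have h8 : S.conv.Dj i (h * u) (x⁻¹ * h * u) =
    T.L (g⁻¹ * (i⁻¹ * x * i) * g) := h2
  have h9 := S.conv.Dj_tri i (h * u) u (x⁻¹ * h * u)
  have h10 := S.conv.Dj_symm i (h * u) u
  omega

theorem short (h : H) (hh : h ∈ Subgroup.normalClosure (N : Set H)) (u : H)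
    (hs : 20 * ds T u (h * u) < 14 * R) : h = 1 := by
  by_contra h1
  obtain ⟨i, x, -, -, -, hb⟩ := S.green' h hh h1 u
  have := S.conv.Dj_le i u (h * u)
  omega

theorem R_pos : 0 < R := by have := S.hR; omega

/-- `F ∩ ⟨⟨N⟩⟩ = N` -/
theorem mem_N (f : H) (hf : f ∈ F) (hfn : f ∈ Subgroup.normalClosure (N : Set H)) : f ∈ N := by
  by_cases h1 : f = 1
  · rw [h1]; exact N.one_mem
  obtain ⟨i, x, hx, hxn, ha, hb⟩ := S.green' f hfn h1 1
  have hR := S.hR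
  have hi : i ∈ F := by
    by_contra hi
    have hi' : i⁻¹ * 1 ∉ F := by
      rw [mul_one]; intro h; exact hi (by have := F.inv_mem h; rwa [inv_inv] at this)
    have := S.conv.Dj_overlap S.ov i 1 1 f hi' F.one_mem hf
    rw [one_mul, one_mul] at this
    rw [mul_one] at hb
    omega
  have hxN : x ∈ N := by
    have := S.norm i hi _ hx
    have e : i * (i⁻¹ * x * i) * i⁻¹ = x := by group
    rwa [e] at this
  have hD : S.conv.Dj i 1 (x⁻¹ * f) = T.L (x⁻¹ * f) := by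
    have h2 := S.conv.Dj_coset 1 i 1 (x⁻¹ * f) hi
    rw [one_mul] at h2
    rw [h2]
    have h3 := S.conv.D_mem 1 (x⁻¹ * f) F.one_mem (F.mul_mem (F.inv_mem (S.NF hxN)) hf)
    unfold Dj
    rw [inv_one, one_mul, one_mul] at *
    exact h3
  rw [mul_one, hD] at ha
  have h2 := S.short (x⁻¹ * f) (Subgroup.mul_mem _ (Subgroup.inv_mem _ hxn) hfn) 1 (by
    unfold ds
    rw [inv_one, one_mul, mul_one]
    have := S.R_pos
    omega)
  have : f = x := by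
    have := congrArg (fun z => x * z) h2
    simpa using this
  rw [this]; exact hxN

/-- elements fixing the base vertex embed -/
theorem ell_eq_one (g : H) (hg : T.L g = 0) (hgn : g ∈ Subgroup.normalClosure (N : Set H)) :
    g = 1 := by
  apply S.short g hgn 1
  unfold ds
  rw [inv_one, one_mul, mul_one, hg]
  have := S.R_pos
  omega

/-- the intersection of the vertex stabilizer with the image of `F` -/
theorem ell_mem (f g : H) (hf : f ∈ F) (hg : T.L g = 0)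
    (hfg : f⁻¹ * g ∈ Subgroup.normalClosure (N : Set H)) : g ∈ F := by
  by_cases h1 : f⁻¹ * g = 1
  · have : g = f := by
      have := congrArg (fun z => f * z) h1
      simpa using this
    rw [this]; exact hf
  obtain ⟨i, x, hx, hxn, ha, hb⟩ := S.green' (f⁻¹ * g) hfg h1 g⁻¹
  have hR := S.hR
  have e0 : f⁻¹ * g * g⁻¹ = f⁻¹ := by group
  have e1 : x⁻¹ * (f⁻¹ * g) * g⁻¹ = x⁻¹ * f⁻¹ := by group
  rw [e0] at hb
  rw [e1] at ha
  have hg0 : ds T 1 g⁻¹ = 0 := by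
    unfold ds; rw [inv_one, one_mul, T.L_inv, hg]
  have hg1 := S.conv.Dj_le i 1 g⁻¹
  have hi : i ∈ F := by
    by_contra hi
    have hi' : i⁻¹ * 1 ∉ F := by
      rw [mul_one]; intro h; exact hi (by have := F.inv_mem h; rwa [inv_inv] at this)
    have h2 := S.conv.Dj_overlap S.ov i 1 1 f⁻¹ hi' F.one_mem (F.inv_mem hf)
    rw [one_mul, one_mul] at h2
    have h3 := S.conv.Dj_tri i g⁻¹ 1 f⁻¹
    have h4 := S.conv.Dj_symm i g⁻¹ 1
    omega
  have hxN : x ∈ N := by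
    have := S.norm i hi _ hx
    have e : i * (i⁻¹ * x * i) * i⁻¹ = x := by group
    rwa [e] at this
  have hD : S.conv.Dj i 1 (x⁻¹ * f⁻¹) = T.L (x⁻¹ * f⁻¹) := by
    have h2 := S.conv.Dj_coset 1 i 1 (x⁻¹ * f⁻¹) hi
    rw [one_mul] at h2
    rw [h2]
    have h3 := S.conv.D_mem 1 (x⁻¹ * f⁻¹) F.one_mem
      (F.mul_mem (F.inv_mem (S.NF hxN)) (F.inv_mem hf))
    unfold Dj
    rw [inv_one, one_mul, one_mul] at *
    exact h3
  have h5 := S.conv.Dj_tri i 1 g⁻¹ (x⁻¹ * f⁻¹)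
  have h2 := S.short (x⁻¹ * (f⁻¹ * g)) (Subgroup.mul_mem _ (Subgroup.inv_mem _ hxn) hfg) g⁻¹ (by
    have e2 : x⁻¹ * (f⁻¹ * g) * g⁻¹ = x⁻¹ * f⁻¹ := by group
    rw [e2]
    have h6 := ds_tri (T := T) g⁻¹ 1 (x⁻¹ * f⁻¹)
    have h7 := ds_symm (T := T) g⁻¹ 1
    have h8 : ds T 1 (x⁻¹ * f⁻¹) = T.L (x⁻¹ * f⁻¹) := by unfold ds; rw [inv_one, one_mul]
    have := S.R_pos
    omega)
  have : g = f * x := by
    have := congrArg (fun z => f * (x * z)) h2
    simpa using this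
  rw [this]
  exact F.mul_mem hf (S.NF hxN)

end Cfg

end Pool.Agent.TH65
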