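import Mathlib
import Pool.Agent.TH65.Quot

set_option autoImplicit false

/-!
# Malnormality of the image of `F` in the small cancellation quotient
-/

namespace Pool.Agent.TH65

open Pool.Agent.Helper495.E97 Conv1

variable {H : Type*} [Group H]

namespace Cfg

variable {T : TreeLength H} {F N : Subgroup H} {c₀ R : ℕ} (S : Cfg T F N c₀ R)

include S

/-- the core of the malnormality proof, for a minimal representative -/
theorem mal_min (hM : MalData T F) (γ a b : H) (ha : a ∈ F) (haN : a ∉ N) (hb : b ∈ F)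
    (hγ : γ ∉ F)
    (hrel : b⁻¹ * (γ * a * γ⁻¹) ∈ Subgroup.normalClosure (N : Set H))
    (m1 : ∀ e ∈ F, T.L γ ≤ T.L (e⁻¹ * γ)) (m2 : ∀ e ∈ F, T.L γ ≤ T.L (γ * e))
    (m3 : ∀ y ∈ Subgroup.normalClosure (N : Set H), T.L γ ≤ T.L (y * γ))
    (na : ∀ n ∈ N, T.L a ≤ T.L (n * a)) (nb : ∀ n ∈ N, T.L b ≤ T.L (n * b)) : False := by
  have hR := S.hR
  have ha1 : a ≠ 1 := fun h => haN (by rw [h]; exact N.one_mem)
  set φ := γ * a * γ⁻¹ with hφ
  have hne : b⁻¹ * φ ≠ 1 := by
    intro h0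
    have h1 : φ = b := by
      have := congrArg (fun z => b * z) h0
      simpa using this
    apply hγ
    refine mal S.conv S.ov hM b γ hb ?_ ?_
    · intro hb1
      apply ha1
      rw [hb1] at h1
      have : a = γ⁻¹ * φ * γ := by rw [hφ]; group
      rw [this, h1]; group
    · rw [← h1]
      have : γ⁻¹ * φ * γ = a := by rw [hφ]; group
      rwa [this]
  obtain ⟨i, x, hx, hxn, hA, hB⟩ := S.green' _ hrel hne 1
  -- translate by b
  set j := b * i with hj
  set y := b * x * b⁻¹ with hy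
  have hyN : j⁻¹ * y * j ∈ N := by
    have : j⁻¹ * y * j = i⁻¹ * x * i := by rw [hj, hy]; group
    rwa [this]
  have hyn : y ∈ Subgroup.normalClosure (N : Set H) :=
    (Subgroup.normalClosure_normal (s := (N : Set H))).conj_mem _ hxn b
  have hB' : 14 * R ≤ 20 * S.conv.Dj j b φ := by
    have := S.conv.Dj_smul b i 1 (b⁻¹ * φ * 1)
    have e : b * (b⁻¹ * φ * 1) = φ := by group
    rw [mul_one b, e] at this
    rw [← this] at hB
    exact hB
  have hA' : 20 * S.conv.Dj j b (y⁻¹ * φ) ≤ 6 * R := by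
    have := S.conv.Dj_smul b i 1 (x⁻¹ * (b⁻¹ * φ) * 1)
    have e : b * (x⁻¹ * (b⁻¹ * φ) * 1) = y⁻¹ * φ := by rw [hy]; group
    rw [mul_one b, e] at this
    rw [← this] at hA
    exact hA
  have hA'' : 20 * S.conv.Dj j (y * b) φ ≤ 6 * R := by
    have := S.conv.Dj_stab j y b (y⁻¹ * φ) (S.NF hyN)
    rw [mul_inv_cancel_left] at this
    rw [this]; exact hA'
  -- basic distances
  have g1 : ∀ e ∈ F, T.L (e⁻¹ * γ) = T.L e + T.L γ := by
    intro e he
    have h1 := S.conv.gt_spec γ 1 F.one_mem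
    rw [inv_one, one_mul, one_mul] at h1
    have h2 := m1 _ (S.conv.gt_mem γ)
    have h3 := S.conv.gt_spec γ e he
    have h4 := T.L_mul_le (e⁻¹ * S.conv.gt γ) (S.conv.gt γ)⁻¹
    rw [mul_inv_cancel_right, T.L_inv, T.L_inv] at h4
    have h5 := T.L_mul_le e⁻¹ (S.conv.gt γ)
    rw [T.L_inv] at h5
    omega
  have g2 : ∀ e ∈ F, T.L (γ * e) = T.L γ + T.L e := by
    intro e he
    have h1 := S.conv.gt_spec γ⁻¹ 1 F.one_mem
    rw [inv_one, one_mul, one_mul, T.L_inv] at h1
    have h2 := m2 _ (S.conv.gt_mem γ⁻¹)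
    have h2' : T.L (γ * S.conv.gt γ⁻¹) = T.L ((S.conv.gt γ⁻¹)⁻¹ * γ⁻¹) := by
      rw [← T.L_inv (γ * S.conv.gt γ⁻¹), mul_inv_rev]
    have h3 := S.conv.gt_spec γ⁻¹ e he
    have h3' : T.L (γ * e) = T.L (e⁻¹ * γ⁻¹) := by
      rw [← T.L_inv (γ * e), mul_inv_rev]
    have h4 := T.L_mul_le (e⁻¹ * S.conv.gt γ⁻¹) (S.conv.gt γ⁻¹)⁻¹
    rw [mul_inv_cancel_right, T.L_inv, T.L_inv] at h4
    have h5 := T.L_mul_le e⁻¹ (S.conv.gt γ⁻¹)
    rw [T.L_inv] at h5
    omega
  have d23 : ds T γ (γ * a) = T.L a := by unfold ds; rw [inv_mul_cancel_left]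
  have d12 : ds T 1 γ = T.L γ := by unfold ds; rw [inv_one, one_mul]
  have d34 : ds T (γ * a) φ = T.L γ := by
    unfold ds
    have : (γ * a)⁻¹ * φ = γ⁻¹ := by rw [hφ]; group
    rw [this, T.L_inv]
  have d13 : ds T 1 (γ * a) = T.L γ + T.L a := by
    unfold ds; rw [inv_one, one_mul, g2 a ha]
  have d24 : ds T γ φ = T.L γ + T.L a := by
    unfold ds
    have : γ⁻¹ * φ = (γ * a⁻¹)⁻¹ := by rw [hφ]; group
    rw [this, T.L_inv, g2 _ (F.inv_mem ha), T.L_inv]
  have d14 : ds T 1 φ = 2 * T.L γ + T.L a := by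
    unfold ds
    rw [inv_one, one_mul]
    rcases Nat.eq_zero_or_pos (T.L a) with h0 | h0
    · have := hM.F5 a ha h0 ha1 γ⁻¹
      rw [inv_inv, T.L_inv] at this
      rw [hφ, this, h0]; rfl
    · have h1 : T.c γ a⁻¹ = 0 := (T.add_iff γ a).1 (g2 a ha)
      have h2 : T.c a γ⁻¹⁻¹ = 0 := by
        rw [← T.add_iff a γ⁻¹]
        have e : a * γ⁻¹ = (γ * a⁻¹)⁻¹ := by group
        rw [e, T.L_inv, g2 _ (F.inv_mem ha), T.L_inv, T.L_inv]; omega
      have h3 := T.add_step h0 h1 h2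
      have h4 := (T.add_iff (γ * a) γ⁻¹).2 h3
      rw [hφ, h4, g2 a ha, T.L_inv]; omega
  by_cases hjF : j ∈ F
  · -- the piece is F itself
    have c1 : ∀ p q, S.conv.Dj j p q = S.conv.D p q := by
      intro p q
      have := S.conv.Dj_coset 1 j p q hjF
      rw [one_mul] at this
      rw [this]
      unfold Dj
      rw [inv_one, one_mul, one_mul]
    rw [c1] at hB' hA''
    have hyN' : y ∈ N := by
      have := S.norm j hjF _ hyN
      have e : j * (j⁻¹ * y * j) * j⁻¹ = y := by group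
      rwa [e] at this
    have f1 : S.conv.D b 1 = T.L b := by
      rw [S.conv.D_mem b 1 hb F.one_mem, mul_one, T.L_inv]
    have f2 : S.conv.D (y * b) 1 = T.L (y * b) := by
      rw [S.conv.D_mem _ 1 (F.mul_mem (S.NF hyN') hb) F.one_mem, mul_one, T.L_inv]
    have f3 := nb y hyN'
    have f4 : S.conv.D 1 φ ≤ c₀ := by
      have p12 := S.conv.D_formula 1 γ
      have p23 := S.conv.D_formula γ (γ * a)
      have p13 := S.conv.D_formula 1 (γ * a)
      have p34 := S.conv.D_formula (γ * a) φ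
      have q1 : T.L (1⁻¹ * γ) = T.L γ := d12
      have q2 : T.L (γ⁻¹ * (γ * a)) = T.L a := d23
      have q3 : T.L (1⁻¹ * (γ * a)) = T.L γ + T.L a := d13
      have q4 : T.L ((γ * a)⁻¹ * φ) = T.L γ := d34
      rw [q1] at p12
      rw [q2] at p23
      rw [q3] at p13
      rw [q4] at p34
      have r1 : S.conv.del 1 = 0 := S.conv.del_mem 1 F.one_mem
      have r2 : T.L γ ≤ S.conv.del γ := by
        have := m1 _ (S.conv.gt_mem γ)
        exact this
      have t1 := S.conv.D_tri 1 γ (γ * a)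
      have t2 := S.conv.D_tri 1 (γ * a) φ
      have o1 : S.conv.D γ (γ * a) ≤ c₀ := by
        have := S.conv.small_overlap S.ov γ 1 a hγ F.one_mem ha
        rwa [mul_one] at this
      have r3 := S.conv.del_le (γ * a) 1 F.one_mem
      omega
    have t1 := S.conv.D_tri b 1 φ
    have t2 := S.conv.D_tri (y * b) φ 1
    have t3 := S.conv.D_symm φ 1
    omega
  by_cases hjγ : γ⁻¹ * j ∈ F
  · -- the piece is γF
    have c1 : ∀ p q, S.conv.Dj j p q = S.conv.Dj γ p q := by
      intro p q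
      have := S.conv.Dj_coset γ (γ⁻¹ * j) p q hjγ
      rw [mul_inv_cancel_left] at this
      exact this
    rw [c1] at hB' hA'
    have hyN' : γ⁻¹ * y * γ ∈ N := by
      have := S.norm (γ⁻¹ * j) hjγ _ hyN
      have e : γ⁻¹ * j * (j⁻¹ * y * j) * (γ⁻¹ * j)⁻¹ = γ⁻¹ * y * γ := by group
      rwa [e] at this
    have f0 : S.conv.Dj γ b 1 ≤ c₀ := by
      have hγ' : γ⁻¹ * 1 ∉ F := by
        rw [mul_one]; intro h; exact hγ (by have := F.inv_mem h; rwa [inv_inv] at this)
      have := S.conv.Dj_overlap S.ov γ 1 b 1 hγ' hb F.one_mem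
      rwa [one_mul, one_mul] at this
    -- projections of 1 and φ to γF
    have r1 : T.L γ ≤ S.conv.dj γ 1 := by
      obtain ⟨f, hf, hf'⟩ := S.conv.dj_gate γ 1
      rw [← hf']
      unfold ds
      rw [inv_one, one_mul]
      exact m2 f hf
    have r2 : S.conv.dj γ γ = 0 := by
      have := S.conv.dj_mem γ 1 F.one_mem
      rwa [mul_one] at this
    have p12 := S.conv.Dj_formula γ 1 γ
    rw [d12] at p12
    have s34 : S.conv.Dj γ (γ * a) φ = S.conv.Dj γ γ 1 := by
      have h1 := S.conv.Dj_stab γ φ γ 1 (by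
        have : γ⁻¹ * φ * γ = a := by rw [hφ]; group
        rwa [this])
      have e : φ * γ = γ * a := by rw [hφ]; group
      rwa [e, mul_one] at h1
    have s12 := S.conv.Dj_symm γ 1 γ
    have f1 : S.conv.Dj γ γ (γ * a) = T.L a := by
      unfold Dj
      rw [inv_mul_cancel, inv_mul_cancel_left, S.conv.D_mem 1 a F.one_mem ha, inv_one, one_mul]
    have f2 : S.conv.Dj γ γ (y⁻¹ * (γ * a)) = T.L ((γ⁻¹ * y * γ)⁻¹ * a) := by
      unfold Dj
      have e : γ⁻¹ * (y⁻¹ * (γ * a)) = (γ⁻¹ * y * γ)⁻¹ * a := by group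
      rw [inv_mul_cancel, e, S.conv.D_mem 1 _ F.one_mem
        (F.mul_mem (F.inv_mem (S.NF hyN')) ha), inv_one, one_mul]
    have f3 := na _ (N.inv_mem hyN')
    have f4 : S.conv.Dj γ (y⁻¹ * (γ * a)) (y⁻¹ * φ) = S.conv.Dj γ (γ * a) φ := by
      apply S.conv.Dj_stab
      have : γ⁻¹ * y⁻¹ * γ = (γ⁻¹ * y * γ)⁻¹ := by group
      rw [this]
      exact F.inv_mem (S.NF hyN')
    have t1 := S.conv.Dj_tri γ b 1 φ
    have t2 := S.conv.Dj_tri γ 1 γ φ
    have t3 := S.conv.Dj_tri γ γ (γ * a) φ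
    have t4 := S.conv.Dj_tri γ γ b (y⁻¹ * (γ * a))
    have t5 := S.conv.Dj_tri γ b (y⁻¹ * φ) (y⁻¹ * (γ * a))
    have t6 := S.conv.Dj_tri γ γ 1 b
    have t7 := S.conv.Dj_symm γ 1 b
    have t8 := S.conv.Dj_symm γ (y⁻¹ * φ) (y⁻¹ * (γ * a))
    omega
  · -- other pieces
    have hj1 : j⁻¹ * 1 ∉ F := by
      rw [mul_one]; intro h; exact hjF (by have := F.inv_mem h; rwa [inv_inv] at this)
    have hjγ' : j⁻¹ * γ ∉ F := by
      intro h
      apply hjγ
      have := F.inv_mem h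
      rwa [mul_inv_rev, inv_inv] at this
    have o01 : S.conv.Dj j b 1 ≤ c₀ := by
      have := S.conv.Dj_overlap S.ov j 1 b 1 hj1 hb F.one_mem
      rwa [one_mul, one_mul] at this
    have o23 : S.conv.Dj j γ (γ * a) ≤ c₀ := by
      have := S.conv.Dj_overlap S.ov j γ 1 a hjγ' F.one_mem ha
      rwa [mul_one] at this
    have p12 := S.conv.Dj_formula j 1 γ
    have p23 := S.conv.Dj_formula j γ (γ * a)
    have p34 := S.conv.Dj_formula j (γ * a) φ
    have p13 := S.conv.Dj_formula j 1 (γ * a)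
    have p24 := S.conv.Dj_formula j γ φ
    have p14 := S.conv.Dj_formula j 1 φ
    rw [d12] at p12
    rw [d23] at p23
    rw [d34] at p34
    rw [d13] at p13
    rw [d24] at p24
    rw [d14] at p14
    have t1 := S.conv.Dj_tri j b 1 φ
    have t2 := S.conv.Dj_tri j 1 γ φ
    have t3 := S.conv.Dj_tri j γ (γ * a) φ
    have key : S.conv.Dj j 1 γ ≤ c₀ ∨ S.conv.Dj j (γ * a) φ ≤ c₀ := by
      by_contra hcon
      push Not at hcon
      obtain ⟨hp, hq⟩ := hcon
      have z2 : S.conv.dj j γ = 0 := by omega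
      have z3 : S.conv.dj j (γ * a) = 0 := by omega
      -- the translate by φ⁻¹
      set j' := φ⁻¹ * j with hj'
      have eφ : φ * γ = γ * a := by rw [hφ]; group
      have q1 : S.conv.Dj j' γ 1 = S.conv.Dj j (γ * a) φ := by
        have := S.conv.Dj_smul φ j' γ 1
        rw [eφ, mul_one, hj', mul_inv_cancel_left] at this
        rw [hj', this]
      have q2 : S.conv.dj j' γ = 0 := by
        have := S.conv.dj_smul φ j' γ
        rw [eφ, hj', mul_inv_cancel_left] at this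
        rw [hj', ← this]; exact z3
      have q3 : S.conv.dj j' 1 = S.conv.dj j φ := by
        have := S.conv.dj_smul φ j' 1
        rw [mul_one, hj', mul_inv_cancel_left] at this
        rw [hj', ← this]
      have hjj : j'⁻¹ * j ∉ F := by
        intro h
        apply hjγ
        refine mal S.conv S.ov hM a (γ⁻¹ * j) ha ha1 ?_
        have e : (γ⁻¹ * j)⁻¹ * a * (γ⁻¹ * j) = j'⁻¹ * j := by rw [hj', hφ]; group
        rwa [e]
      obtain ⟨f, hf, hf'⟩ := S.conv.dj_gate j 1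
      obtain ⟨g, hg, hg'⟩ := S.conv.dj_gate j γ
      have o := S.conv.Dj_overlap S.ov j' j f g hjj hf hg
      have r1 := S.conv.Dj_formula j' 1 (j * f)
      have r2 := S.conv.Dj_formula j' 1 γ
      rw [d12] at r2
      have r3 := S.conv.Dj_le j' (j * g) γ
      have r4 := ds_symm (T := T) γ (j * g)
      have r5 := S.conv.Dj_tri j' 1 (j * f) γ
      have r6 := S.conv.Dj_tri j' (j * f) (j * g) γ
      have r7 := S.conv.Dj_symm j' γ 1
      omega
    have hy' : j⁻¹ * y * j ∈ F := S.NF hyN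
    rcases key with hp | hq
    · -- the long part is on the second bridge
      have u1 := S.conv.Dj_stab j y b 1 hy'
      have u2 := S.conv.Dj_stab j y 1 γ hy'
      have u3 := S.conv.Dj_stab j y γ (γ * a) hy'
      have v1 := S.conv.Dj_tri j φ (y * b) (y * (γ * a))
      have v2 := S.conv.Dj_tri j (y * b) (y * 1) (y * (γ * a))
      have v3 := S.conv.Dj_tri j (y * 1) (y * γ) (y * (γ * a))
      have v4 := S.conv.Dj_symm j φ (y * b)
      have w1 := S.conv.Dj_formula j φ (y * (γ * a))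
      have w2 := S.conv.dj_stab j y (γ * a) hy'
      have w3 : T.L γ ≤ ds T φ (y * (γ * a)) := by
        unfold ds
        have e : φ⁻¹ * (y * (γ * a)) = (φ⁻¹ * y * φ) * γ := by rw [hφ]; group
        rw [e]
        apply m3
        have := (Subgroup.normalClosure_normal (s := (N : Set H))).conj_mem _ hyn φ⁻¹
        rwa [inv_inv] at this
      omega
    · -- the long part is on the first bridge
      have hyi : j⁻¹ * y⁻¹ * j ∈ F := by
        have : j⁻¹ * y⁻¹ * j = (j⁻¹ * y * j)⁻¹ := by group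
        rw [this]; exact F.inv_mem hy'
      have u1 := S.conv.Dj_stab j y⁻¹ (γ * a) φ hyi
      have u2 := S.conv.Dj_stab j y⁻¹ γ (γ * a) hyi
      have v1 := S.conv.Dj_tri j 1 b (y⁻¹ * γ)
      have v2 := S.conv.Dj_tri j b (y⁻¹ * φ) (y⁻¹ * γ)
      have v3 := S.conv.Dj_tri j (y⁻¹ * φ) (y⁻¹ * (γ * a)) (y⁻¹ * γ)
      have v4 := S.conv.Dj_symm j 1 b
      have v5 := S.conv.Dj_symm j (y⁻¹ * φ) (y⁻¹ * (γ * a))
      have v6 := S.conv.Dj_symm j (y⁻¹ * (γ * a)) (y⁻¹ * γ)
      have w1 := S.conv.Dj_formula j 1 (y⁻¹ * γ)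
      have w2 := S.conv.dj_stab j y⁻¹ γ hyi
      have w3 : T.L γ ≤ ds T 1 (y⁻¹ * γ) := by
        unfold ds
        rw [inv_one, one_mul]
        exact m3 _ (Subgroup.inv_mem _ hyn)
      omega

end Cfg

end Pool.Agent.TH65
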