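import Mathlib
import Pool.Agent.TH65.MalQuot

set_option autoImplicit false

/-!
# The quotient theorem
-/

namespace Pool.Agent.TH65

open Pool.Agent.Helper495.E97 Conv1

universe u

variable {H : Type u} [Group H]

namespace Cfg

variable {T : TreeLength H} {F N : Subgroup H} {c₀ R : ℕ} (S : Cfg T F N c₀ R)

include S

theorem mal_rel (hM : MalData T F) (γ f b : H) (hf : f ∈ F) (hfN : f ∉ N) (hb : b ∈ F)
    (hrel : b⁻¹ * (γ * f * γ⁻¹) ∈ Subgroup.normalClosure (N : Set H)) :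
    ∃ g ∈ F, g⁻¹ * γ ∈ Subgroup.normalClosure (N : Set H) := by
  classical
  have hNN := (Subgroup.normalClosure_normal (s := (N : Set H)))
  set M := Subgroup.normalClosure (N : Set H) with hM'
  have hNM : ∀ n ∈ N, n ∈ M := fun n hn => Subgroup.subset_normalClosure hn
  by_contra hcon
  push Not at hcon
  -- membership relation modulo M
  have hex : ∃ n, ∃ γ₀, T.L γ₀ = n ∧ ∃ e₁ ∈ F, ∃ e₂ ∈ F, (e₁ * γ * e₂)⁻¹ * γ₀ ∈ M :=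
    ⟨_, γ, rfl, 1, F.one_mem, 1, F.one_mem, by simp [M.one_mem]⟩
  obtain ⟨γ₀, hγn, e₁, he₁, e₂, he₂, hγ₀⟩ := Nat.find_spec hex
  have hmin : ∀ γ' : H, (∃ e₁ ∈ F, ∃ e₂ ∈ F, (e₁ * γ * e₂)⁻¹ * γ' ∈ M) → T.L γ₀ ≤ T.L γ' := by
    intro γ' h
    rw [hγn]
    exact Nat.find_min' hex ⟨γ', rfl, h⟩
  set m := (e₁ * γ * e₂)⁻¹ * γ₀ with hm
  have hγm : γ₀ = e₁ * γ * e₂ * m := by rw [hm]; group
  -- first minimal choice
  set a₀ := e₂⁻¹ * f * e₂ with ha₀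
  set b₀ := e₁ * b * e₁⁻¹ with hb₀
  have ha₀F : a₀ ∈ F := F.mul_mem (F.mul_mem (F.inv_mem he₂) hf) he₂
  have hb₀F : b₀ ∈ F := F.mul_mem (F.mul_mem he₁ hb) (F.inv_mem he₁)
  have ha₀N : a₀ ∉ N := by
    intro h
    apply hfN
    have := S.norm e₂ he₂ _ h
    have e : e₂ * a₀ * e₂⁻¹ = f := by rw [ha₀]; group
    rwa [e] at this
  have hrel₀ : b₀⁻¹ * (γ₀ * a₀ * γ₀⁻¹) ∈ M := by
    -- γ₀ a₀ γ₀⁻¹ = e₁ γ e₂ (m a₀ m⁻¹) (e₁ γ e₂)⁻¹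
    have h1 : a₀⁻¹ * (m * a₀ * m⁻¹) ∈ M := by
      have h2 := hNN.conj_mem m hγ₀ a₀⁻¹
      have e : a₀⁻¹ * (m * a₀ * m⁻¹) = (a₀⁻¹ * m * a₀⁻¹⁻¹) * m⁻¹ := by group
      rw [e]
      exact M.mul_mem h2 (M.inv_mem hγ₀)
    have h2 := hNN.conj_mem _ h1 (e₁ * γ * e₂)
    have h3 := hNN.conj_mem _ hrel e₁
    have e : b₀⁻¹ * (γ₀ * a₀ * γ₀⁻¹) = (e₁ * (b⁻¹ * (γ * f * γ⁻¹)) * e₁⁻¹) *
        ((e₁ * γ * e₂) * (a₀⁻¹ * (m * a₀ * m⁻¹)) * (e₁ * γ * e₂)⁻¹) := by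
      rw [hγm, hb₀, ha₀]; group
    rw [e]
    exact M.mul_mem h3 h2
  have exa : ∃ n, ∃ a, T.L a = n ∧ ∃ k ∈ N, a = k * a₀ := ⟨_, a₀, rfl, 1, N.one_mem, by simp⟩
  obtain ⟨a, han, ka, hka, hak⟩ := Nat.find_spec exa
  have hamin : ∀ k ∈ N, T.L a ≤ T.L (k * a) := by
    intro k hk
    rw [han]
    exact Nat.find_min' exa ⟨k * a, rfl, k * ka, N.mul_mem hk hka, by rw [hak]; group⟩
  have exb : ∃ n, ∃ a, T.L a = n ∧ ∃ k ∈ N, a = k * b₀ := ⟨_, b₀, rfl, 1, N.one_mem, by simp⟩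
  obtain ⟨b', hbn, kb, hkb, hbk⟩ := Nat.find_spec exb
  have hbmin : ∀ k ∈ N, T.L b' ≤ T.L (k * b') := by
    intro k hk
    rw [hbn]
    exact Nat.find_min' exb ⟨k * b', rfl, k * kb, N.mul_mem hk hkb, by rw [hbk]; group⟩
  refine S.mal_min hM γ₀ a b' ?_ ?_ ?_ ?_ ?_ ?_ ?_ ?_ hamin hbmin
  · rw [hak]; exact F.mul_mem (S.NF hka) ha₀F
  · intro h
    apply ha₀N
    have := N.mul_mem (N.inv_mem hka) h
    rwa [hak, inv_mul_cancel_left] at this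
  · rw [hbk]; exact F.mul_mem (S.NF hkb) hb₀F
  · intro h
    refine hcon (e₁⁻¹ * γ₀ * e₂⁻¹) (F.mul_mem (F.mul_mem (F.inv_mem he₁) h) (F.inv_mem he₂)) ?_
    have h2 := hNN.conj_mem _ (M.inv_mem hγ₀) e₂
    have e : (e₁⁻¹ * γ₀ * e₂⁻¹)⁻¹ * γ = e₂ * m⁻¹ * e₂⁻¹ := by
      rw [hγm]; group
    rw [e]; exact h2
  · -- relation
    have h1 := hNN.conj_mem _ (hNM _ (N.inv_mem hkb)) b₀⁻¹
    have h2 := hNN.conj_mem _ (hNM _ hka) γ₀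
    have h3 := hNN.conj_mem _ h2 b₀⁻¹
    have e : b'⁻¹ * (γ₀ * a * γ₀⁻¹) = (b₀⁻¹ * kb⁻¹ * b₀⁻¹⁻¹) *
        ((b₀⁻¹ * (γ₀ * ka * γ₀⁻¹) * b₀⁻¹⁻¹) * (b₀⁻¹ * (γ₀ * a₀ * γ₀⁻¹))) := by
      rw [hak, hbk]; group
    rw [e]
    exact M.mul_mem h1 (M.mul_mem h3 hrel₀)
  · intro e he
    apply hmin
    refine ⟨e⁻¹ * e₁, F.mul_mem (F.inv_mem he) he₁, e₂, he₂, ?_⟩
    have : (e⁻¹ * e₁ * γ * e₂)⁻¹ * (e⁻¹ * γ₀) = m := by rw [hm]; group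
    rw [this]; exact hγ₀
  · intro e he
    apply hmin
    refine ⟨e₁, he₁, e₂ * e, F.mul_mem he₂ he, ?_⟩
    have h2 := hNN.conj_mem _ hγ₀ e⁻¹
    have : (e₁ * γ * (e₂ * e))⁻¹ * (γ₀ * e) = e⁻¹ * m * e⁻¹⁻¹ := by rw [hm]; group
    rw [this]; exact h2
  · intro y hy
    apply hmin
    refine ⟨e₁, he₁, e₂, he₂, ?_⟩
    have h2 := hNN.conj_mem _ hy γ₀⁻¹
    have : (e₁ * γ * e₂)⁻¹ * (y * γ₀) = m * (γ₀⁻¹ * y * γ₀⁻¹⁻¹) := by rw [hm]; group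
    rw [this]; exact M.mul_mem hγ₀ h2

/-- The quotient theorem. -/
theorem quotient (hM : MalData T F) :
    ∃ (Q : Type u) (_ : Group Q) (π : H →* Q), Function.Surjective π ∧
      (∀ g, T.L g = 0 → π g = 1 → g = 1) ∧
      (∀ f ∈ F, π f = 1 ↔ f ∈ N) ∧
      (∀ g, T.L g = 0 → π g ∈ F.map π → g ∈ F) ∧
      (∀ x ∈ F.map π, x ≠ 1 → ∀ y, y⁻¹ * x * y ∈ F.map π → y ∈ F.map π) := by
  have hker : ∀ g, QuotientGroup.mk' (Subgroup.normalClosure (N : Set H)) g = 1 ↔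
      g ∈ Subgroup.normalClosure (N : Set H) := fun g => QuotientGroup.eq_one_iff g
  refine ⟨H ⧸ Subgroup.normalClosure (N : Set H), inferInstance,
    QuotientGroup.mk' (Subgroup.normalClosure (N : Set H)), QuotientGroup.mk'_surjective _,
    ?_, ?_, ?_, ?_⟩
  · intro g hg h
    exact S.ell_eq_one g hg ((hker g).1 h)
  · intro f hf
    rw [hker]
    exact ⟨S.mem_N f hf, fun h => Subgroup.subset_normalClosure h⟩
  · rintro g hg ⟨f, hf, hfg⟩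
    refine S.ell_mem f g hf hg ?_
    rw [← hker, map_mul, map_inv, hfg, inv_mul_cancel]
  · rintro x ⟨f, hf, rfl⟩ hx y ⟨b, hb, hby⟩
    obtain ⟨γ, rfl⟩ := QuotientGroup.mk'_surjective _ y
    have hfN : f ∉ N := fun h => hx ((hker f).2 (Subgroup.subset_normalClosure h))
    obtain ⟨g, hg, hg'⟩ := S.mal_rel hM γ⁻¹ f b hf hfN hb (by
      rw [← hker]
      simp only [map_mul, map_inv, inv_inv]
      rw [hby, inv_mul_cancel])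
    refine ⟨g⁻¹, F.inv_mem hg, ?_⟩
    have h1 := (hker _).2 hg'
    rw [map_mul, map_inv, map_inv] at h1
    rw [map_inv]
    exact mul_inv_eq_one.1 h1

end Cfg

end Pool.Agent.TH65
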