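import Mathlib
import Pool.Agent.Helper495.E97.Tree2
import Pool.Agent.Helper868.LFS1

set_option autoImplicit false

/-!
# Reduced words and finite groups of odd order with large girth
-/

namespace Pool.Agent.TH65

open Pool.Agent.Helper495.E97

section words

variable {A B : Type*} [Group A]

/-- formal inverse of a letter -/
def ivv (i : B × Bool) : B × Bool := (i.1, !i.2)

/-- adjacency condition for reduced words -/
def RR (x y : (B × Bool) × A) : Prop := x.2 = 1 → y.1 ≠ ivv x.1

variable {K : Type*} [Group K]

/-- value of a letter -/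
def vv (v : B → K) (i : B × Bool) : K := if i.2 then v i.1 else (v i.1)⁻¹

theorem vv_ivv (v : B → K) (i : B × Bool) : vv v (ivv i) = (vv v i)⁻¹ := by
  obtain ⟨b, e⟩ := i
  cases e <;> simp [vv, ivv]

theorem ivv_ivv (i : B × Bool) : ivv (ivv i) = i := by
  obtain ⟨b, e⟩ := i
  simp [ivv]

/-- value of a list of syllables -/
def evl (ι : A →* K) (v : B → K) : List ((B × Bool) × A) → K
  | [] => 1
  | x :: l => vv v x.1 * ι x.2 * evl ι v l

@[simp] theorem evl_nil (ι : A →* K) (v : B → K) : evl ι v [] = 1 := rfl

@[simp] theorem evl_cons (ι : A →* K) (v : B → K) (x : (B × Bool) × A) (l) :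
    evl ι v (x :: l) = vv v x.1 * ι x.2 * evl ι v l := rfl

theorem evl_append (ι : A →* K) (v : B → K) (l m : List ((B × Bool) × A)) :
    evl ι v (l ++ m) = evl ι v l * evl ι v m := by
  induction l with
  | nil => simp
  | cons x l ih => rw [List.cons_append, evl_cons, evl_cons, ih, ← mul_assoc]

/-- Every element of the subgroup generated is represented by a reduced word. -/
theorem exists_red (ι : A →* K) (v : B → K) (x : K)
    (hx : x ∈ Subgroup.closure (Set.range ι ∪ Set.range v)) :
    ∃ (a : A) (l : List ((B × Bool) × A)), l.IsChain RR ∧ x = ι a * evl ι v l := by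
  have key : ∀ (i : B × Bool) (y : K), (∃ (a : A) (l : List ((B × Bool) × A)), l.IsChain RR ∧
      y = ι a * evl ι v l) → ∃ (a : A) (l : List ((B × Bool) × A)), l.IsChain RR ∧
      vv v i * y = ι a * evl ι v l := by
    classical
    rintro i y ⟨a, l, hl, rfl⟩
    by_cases h : ∃ j m, l = j :: m ∧ a = 1 ∧ j.1 = ivv i
    · obtain ⟨j, m, rfl, rfl, hj⟩ := h
      refine ⟨j.2, m, (List.isChain_cons.1 hl).2, ?_⟩
      rw [evl_cons, hj, vv_ivv, map_one]; group
    · refine ⟨1, (i, a) :: l, ?_, ?_⟩
      · rw [List.isChain_cons]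
        refine ⟨?_, hl⟩
        intro y hy ha hc
        cases l with
        | nil => simp at hy
        | cons j m =>
          simp only [List.head?_cons, Option.mem_def, Option.some.injEq] at hy
          subst hy
          exact h ⟨j, m, rfl, ha, hc⟩
      · rw [map_one, evl_cons]; group
  induction hx using Subgroup.closure_induction_left with
  | one => exact ⟨1, [], by simp, by simp⟩
  | mul_left x hx y hy ih =>
    rcases hx with ⟨a, rfl⟩ | ⟨b, rfl⟩
    · obtain ⟨a', l, hl, rfl⟩ := ih
      exact ⟨a * a', l, hl, by rw [map_mul, mul_assoc]⟩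
    · have := key (b, true) y ih
      simpa [vv] using this
  | inv_mul_cancel x hx y hy ih =>
    rcases hx with ⟨a, rfl⟩ | ⟨b, rfl⟩
    · obtain ⟨a', l, hl, rfl⟩ := ih
      exact ⟨a⁻¹ * a', l, hl, by rw [map_mul, mul_assoc, map_inv]⟩
    · have := key (b, false) y ih
      simpa [vv] using this

end words

section girth

open H868.LFS

variable {A B E : Type} [Group A] [Group E]

/-- all short reduced words have a nontrivial value -/
def Girth (ι : A →* E) (v : B → E) (r : ℕ) : Prop :=
  ∀ (a : A) (l : List ((B × Bool) × A)), l.IsChain RR → l ≠ [] → l.length < r →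
    ι a * evl ι v l ≠ 1

open Classical in
/-- the next embedding -/
noncomputable def nu (v : B → E) (b : B) : Aff E E (B → ZMod 3) :=
  ⟨fun y => if y = 1 then Pi.single b 1 else 0, v b⟩

/-- the next embedding of the base group -/
def ni (ι : A →* E) : A →* Aff E E (B → ZMod 3) where
  toFun a := ⟨fun _ => 0, ι a⟩
  map_one' := by
    apply Aff.ext
    · rfl
    · simp [one_g]
  map_mul' a b := by
    apply Aff.ext
    · funext y; simp [mul_v]
    · simp [mul_g]

theorem evl_g (ι : A →* E) (v : B → E) (l : List ((B × Bool) × A)) :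
    (evl (ni ι) (nu v) l).g = evl ι v l := by
  induction l with
  | nil => rfl
  | cons x l ih =>
    obtain ⟨⟨b, e⟩, a⟩ := x
    rw [evl_cons, evl_cons, mul_g, mul_g, ih]
    cases e <;> simp [vv, nu, ni, inv_g]

theorem vv_v (v : B → E) (b : B) (i : B × Bool) (y : E) (h : (vv (nu v) i).v y b ≠ 0) :
    i.1 = b ∧ (if i.2 then 1 else (v b)⁻¹) = y := by
  classical
  obtain ⟨c, e⟩ := i
  cases e
  · simp only [vv, Bool.false_eq_true, if_false] at h ⊢
    rw [inv_v] at h
    simp only [nu, smul_eq_mul] at h
    split_ifs at h with h1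
    · rw [Pi.neg_apply, Pi.single_apply] at h
      split_ifs at h with h2
      · subst h2
        exact ⟨rfl, (eq_inv_of_mul_eq_one_right h1).symm⟩
      · simp at h
    · simp at h
  · simp only [vv, if_true] at h ⊢
    simp only [nu] at h
    split_ifs at h with h1
    · rw [Pi.single_apply] at h
      split_ifs at h with h2
      · exact ⟨h2.symm, h1.symm⟩
      · simp at h
    · simp at h

theorem vv_v' (v : B → E) (i : B × Bool) :
    (vv (nu v) i).v (if i.2 then 1 else (v i.1)⁻¹) i.1 ≠ 0 := by
  classical
  obtain ⟨c, e⟩ := i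
  cases e
  · simp only [vv, Bool.false_eq_true, if_false]
    rw [inv_v]
    simp only [nu, smul_eq_mul, mul_inv_cancel, if_true, Pi.neg_apply, Pi.single_apply]
    have : (-1 : ZMod 3) ≠ 0 := by decide
    exact this
  · simp only [vv, if_true, nu, Pi.single_apply]
    have : (1 : ZMod 3) ≠ 0 := by decide
    exact this

theorem trav (ι : A →* E) (v : B → E) (b : B) : ∀ (l : List ((B × Bool) × A)) (y : E),
    (evl (ni ι) (nu v) l).v y b ≠ 0 → ∃ (m : List ((B × Bool) × A)) (x : (B × Bool) × A)
      (m' : List ((B × Bool) × A)), l = m ++ x :: m' ∧ x.1.1 = b ∧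
      evl ι v m * (if x.1.2 then 1 else (v b)⁻¹) = y
  | [], y, h => by
    exfalso; apply h; rfl
  | x :: l, y, h => by
    rw [evl_cons, mul_v] at h
    have e1 : (vv (nu v) x.1 * ni ι x.2).v y = (vv (nu v) x.1).v y := by
      rw [mul_v]
      have : ((ni (B := B) ι) x.2).v ((vv (nu v) x.1).g⁻¹ • y) = 0 := rfl
      rw [this, add_zero]
    have e2 : (vv (nu v) x.1 * ni ι x.2).g = vv v x.1 * ι x.2 := by
      have := evl_g ι v [x]
      simpa using this
    rw [e1, e2, Pi.add_apply] at h
    by_cases h1 : (vv (nu v) x.1).v y b = 0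
    · rw [h1, zero_add] at h
      obtain ⟨m, z, m', rfl, hz, hm⟩ := trav ι v b l _ h
      refine ⟨x :: m, z, m', rfl, hz, ?_⟩
      rw [evl_cons, mul_assoc (vv v x.1 * ι x.2), hm, smul_eq_mul]
      group
    · obtain ⟨h2, h3⟩ := vv_v v b x.1 y h1
      exact ⟨[], x, l, rfl, h2, by rw [evl_nil, one_mul, h3]⟩

theorem girth_succ (ι : A →* E) (hι : Function.Injective ι) (v : B → E) (r : ℕ)
    (h : Girth ι v r) : Girth (ni (B := B) ι) (nu v) (r + 1) := by
  intro a₀ l hl hne hlen h1
  have hE : ι a₀ * evl ι v l = 1 := by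
    have := congrArg Aff.g h1
    rw [mul_g, evl_g, one_g] at this
    exact this
  have hX : ∀ y, (evl (ni ι) (nu v) l).v y = 0 := by
    intro y
    have := congrArg (fun z => Aff.v z (ι a₀ * y)) h1
    simp only [mul_v] at this
    have e1 : ((ni (B := B) ι) a₀).v (ι a₀ * y) = 0 := rfl
    have e2 : ((ni (B := B) ι) a₀).g = ι a₀ := rfl
    rw [e1, e2, zero_add, smul_eq_mul, inv_mul_cancel_left] at this
    exact this
  have hlen' : l.length = r := by
    by_contra hne'
    exact h a₀ l hl hne (by omega) hE
  cases l with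
  | nil => exact hne rfl
  | cons x l =>
    rw [List.length_cons] at hlen'
    set y₁ : E := if x.1.2 then 1 else (v x.1.1)⁻¹ with hy₁
    have h2 := congrFun (hX y₁) x.1.1
    rw [evl_cons, mul_v] at h2
    have e1 : (vv (nu v) x.1 * ni ι x.2).v y₁ = (vv (nu v) x.1).v y₁ := by
      rw [mul_v]
      have : ((ni (B := B) ι) x.2).v ((vv (nu v) x.1).g⁻¹ • y₁) = 0 := rfl
      rw [this, add_zero]
    have e2 : (vv (nu v) x.1 * ni ι x.2).g = vv v x.1 * ι x.2 := by
      have := evl_g ι v [x]
      simpa using this
    rw [e1, e2, Pi.add_apply] at h2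
    have h3 := vv_v' v x.1
    rw [← hy₁] at h3
    have h4 : (evl (ni ι) (nu v) l).v ((vv v x.1 * ι x.2)⁻¹ • y₁) x.1.1 ≠ 0 := by
      intro h0
      rw [h0, add_zero] at h2
      exact h3 h2
    obtain ⟨m, z, m', rfl, hz, hm⟩ := trav ι v _ l _ h4
    have hchm : (x :: m).IsChain (RR (A := A) (B := B)) := by
      have : (x :: (m ++ z :: m')) = (x :: m) ++ (z :: m') := rfl
      rw [this, List.isChain_append] at hl
      exact hl.1
    have hm' : m.IsChain (RR (A := A) (B := B)) := (List.isChain_cons.1 hchm).2
    have hlm : m.length + 1 < r := by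
      rw [List.length_append, List.length_cons] at hlen'
      omega
    rw [smul_eq_mul] at hm
    obtain ⟨⟨bz, ez⟩, az⟩ := z
    obtain ⟨⟨bx, ex⟩, ax⟩ := x
    simp only at hz
    subst hz
    have case_opp : ι ax * evl ι v m = 1 → ez = !ex → False := by
      intro h5 h6
      cases m with
      | nil =>
        rw [evl_nil, mul_one] at h5
        have h7 : ax = 1 := hι (by rw [h5, map_one])
        have h8 := (List.isChain_cons.1 hl).1 ((bz, ez), az) (by simp)
        apply h8 h7
        simp [ivv, h6]
      | cons w m =>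
        exact h ax (w :: m) hm' (by simp) (by omega) h5
    have case_same : vv v (bz, ex) * ι ax * evl ι v m = 1 → False := by
      intro h5
      apply h 1 (((bz, ex), ax) :: m) hchm (by simp) (by simpa using hlm)
      rw [map_one, one_mul, evl_cons]
      exact h5
    cases ex <;> cases ez
    · simp only [Bool.false_eq_true, if_false, vv] at hm hy₁ case_same
      apply case_same
      rw [hy₁] at hm
      have h5 : evl ι v m = (ι ax)⁻¹ * v bz := by
        have := congrArg (· * v bz) hm
        simp only [inv_mul_cancel_right] at this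
        rw [this]; group
      rw [h5]; group
    · simp only [Bool.false_eq_true, if_false, if_true, vv, mul_one] at hm hy₁ case_same
      apply case_opp _ rfl
      rw [hm, hy₁]; group
    · simp only [Bool.false_eq_true, if_false, if_true, vv, mul_one] at hm hy₁ case_same
      apply case_opp _ rfl
      rw [hy₁] at hm
      have h5 : evl ι v m = (ι ax)⁻¹ := by
        have := congrArg (· * v bz) hm
        simp only [inv_mul_cancel_right] at this
        rw [this]; group
      rw [h5]; group
    · simp only [if_true, vv, mul_one] at hm hy₁ case_same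
      apply case_same
      rw [hm, hy₁]; group

theorem ni_inj (ι : A →* E) (hι : Function.Injective ι) :
    Function.Injective (ni (B := B) ι) := by
  intro a b h
  exact hι (congrArg Aff.g h)

theorem aff_odd (h : ∀ x : E, x * x = 1 → x = 1) (x : Aff E E (B → ZMod 3)) (hx : x * x = 1) :
    x = 1 := by
  have h1 : x.g = 1 := h _ (congrArg Aff.g hx)
  apply Aff.ext
  · funext y b
    have h2 := congrFun (congrArg (fun z => Aff.v z y) hx) b
    simp only [mul_v, h1, inv_one, one_smul, Pi.add_apply, one_v, Pi.zero_apply] at h2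
    rw [one_v, Pi.zero_apply]
    have : ∀ z : ZMod 3, z + z = 0 → z = 0 := by decide
    exact this _ h2
  · exact h1

theorem exists_girth [Finite A] [Finite B] (hA : ∀ x : A, x * x = 1 → x = 1) (r : ℕ) :
    ∃ (E : Type) (_ : Group E) (_ : Finite E) (ι : A →* E) (v : B → E),
      Function.Injective ι ∧ (∀ x : E, x * x = 1 → x = 1) ∧ Girth ι v (r + 1) := by
  induction r with
  | zero =>
    refine ⟨A, inferInstance, inferInstance, MonoidHom.id A, fun _ => 1,
      Function.injective_id, hA, ?_⟩
    intro a l _ hne hlen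
    exfalso
    apply hne
    rw [← List.length_eq_zero_iff]
    omega
  | succ r ih =>
    obtain ⟨E, _, _, ι, v, h1, h2, h3⟩ := ih
    have : Finite (B → ZMod 3) := inferInstance
    exact ⟨Aff E E (B → ZMod 3), inferInstance, finite_aff, ni ι, nu v, ni_inj ι h1, aff_odd h2,
      girth_succ ι h1 v _ h3⟩

end girth

end Pool.Agent.TH65
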