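import Mathlib
import Pool.Agent.TH65.Words
import Pool.Agent.TH65.Final1

set_option autoImplicit false

/-!
# Free products of a vertex subgroup and a free group of letters acting on a tree
-/

namespace Pool.Agent.TH65

open Pool.Agent.Helper495.E97

/-- A system of letters over the vertex subgroup `ι`. -/
structure Lett {H A B : Type} [Group H] [Group A] (T : TreeLength H) (ι : A →* H)
    (v : B → H) : Prop where
  inj : Function.Injective ι
  Li : ∀ a, T.L (ι a) = 0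
  Lv : ∀ i, T.L (vv v i) = 1
  junc : ∀ (i j : B × Bool) (a : A), (a = 1 → j ≠ ivv i) → T.L (vv v i * ι a * vv v j) = 2

/-- the subgroup generated by the vertex group and the letters -/
def FF {H A B : Type} [Group H] [Group A] (ι : A →* H) (v : B → H) : Subgroup H :=
  Subgroup.closure (Set.range ι ∪ Set.range v)

namespace Lett

variable {H A B : Type} [Group H] [Group A] {T : TreeLength H} {ι : A →* H} {v : B → H}

theorem i_mem (a : A) : ι a ∈ FF ι v := Subgroup.subset_closure (Or.inl ⟨a, rfl⟩)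

theorem v_mem (b : B) : v b ∈ FF ι v := Subgroup.subset_closure (Or.inr ⟨b, rfl⟩)

theorem vv_mem (i : B × Bool) : vv v i ∈ FF ι v := by
  obtain ⟨b, e⟩ := i
  cases e
  · simpa [vv] using (FF ι v).inv_mem (v_mem b)
  · simpa [vv] using v_mem b

theorem evl_mem (l : List ((B × Bool) × A)) : evl ι v l ∈ FF ι v := by
  induction l with
  | nil => exact (FF ι v).one_mem
  | cons x l ih => exact (FF ι v).mul_mem ((FF ι v).mul_mem (vv_mem _) (i_mem _)) ih

variable (Λ : Lett T ι v)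

include Λ

theorem len_evl : ∀ (l : List ((B × Bool) × A)), l.IsChain RR → T.L (evl ι v l) = l.length
  | [], _ => by simpa using T.L_one
  | [x], _ => by
    simp only [evl_cons, evl_nil, mul_one, List.length_cons, List.length_nil]
    rw [T.L_mul_right0 (Λ.Li _), Λ.Lv]
  | x :: y :: l, h => by
    have h1 := List.isChain_cons.1 h
    have ih := len_evl (y :: l) h1.2
    have ih2 := len_evl l (List.isChain_cons.1 h1.2).2
    have h2 : RR x y := h1.1 y (by simp)
    have e1 : evl ι v (x :: y :: l) = vv v x.1 * ι x.2 * vv v y.1 * (ι y.2 * evl ι v l) := by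
      simp only [evl_cons]; group
    have e2 : evl ι v (y :: l) = vv v y.1 * (ι y.2 * evl ι v l) := by
      simp only [evl_cons]; group
    have hz : T.L (ι y.2 * evl ι v l) = l.length := by rw [T.L_mul_left0 (Λ.Li _), ih2]
    have hx : T.L (vv v x.1 * ι x.2) = 1 := by rw [T.L_mul_right0 (Λ.Li _), Λ.Lv]
    have c1 : T.c (vv v x.1 * ι x.2) (vv v y.1)⁻¹ = 0 := by
      rw [← T.add_iff, Λ.junc _ _ _ h2, hx, Λ.Lv]
    have c2 : T.c (vv v y.1) (ι y.2 * evl ι v l)⁻¹ = 0 := by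
      rw [← T.add_iff, ← e2, ih, hz, Λ.Lv, List.length_cons, Nat.add_comm]
    have c3 := T.add_step (by rw [Λ.Lv]; exact one_pos) c1 c2
    rw [← T.add_iff] at c3
    rw [e1, c3, hz, Λ.junc _ _ _ h2]
    simp only [List.length_cons]
    omega

theorem len (a : A) (l : List ((B × Bool) × A)) (h : l.IsChain RR) :
    T.L (ι a * evl ι v l) = l.length := by
  rw [T.L_mul_left0 (Λ.Li _), Λ.len_evl l h]

theorem conv1 : Conv1 T (FF ι v) := by
  intro f hf hpos
  obtain ⟨a, l, hl, rfl⟩ := exists_red ι v f hf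
  rw [Λ.len a l hl] at hpos ⊢
  cases l with
  | nil => simp at hpos
  | cons x l =>
    refine ⟨ι a * vv v x.1, (FF ι v).mul_mem (i_mem _) (vv_mem _), ?_, ?_⟩
    · rw [T.L_mul_left0 (Λ.Li _), Λ.Lv]
    · have e : (ι a * vv v x.1)⁻¹ * (ι a * evl ι v (x :: l)) = ι x.2 * evl ι v l := by
        rw [evl_cons]; group
      rw [e, Λ.len _ l (List.isChain_cons.1 hl).2, List.length_cons]

theorem mem_range (f : H) (hf : f ∈ FF ι v) (h : T.L f = 0) : ∃ a, f = ι a := by
  obtain ⟨a, l, hl, rfl⟩ := exists_red ι v f hf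
  rw [Λ.len a l hl, List.length_eq_zero_iff] at h
  subst h
  exact ⟨a, by simp⟩

/-- one step along two words with the same end vertex -/
theorem ov_step (x : H) (hx : T.L x = 0) (a a' : A) (i i' : (B × Bool) × A)
    (l l' : List ((B × Bool) × A)) (hl : (i :: l).IsChain RR) (hl' : (i' :: l').IsChain RR)
    (h : T.L ((ι a * evl ι v (i :: l))⁻¹ * x * (ι a' * evl ι v (i' :: l'))) = 0) :
    T.L ((vv v i.1)⁻¹ * ((ι a)⁻¹ * x * ι a') * vv v i'.1) = 0 ∧
    T.L ((ι i.2 * evl ι v l)⁻¹ * ((vv v i.1)⁻¹ * ((ι a)⁻¹ * x * ι a') * vv v i'.1) *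
      (ι i'.2 * evl ι v l')) = 0 := by
  constructor
  · set w := ι a * evl ι v (i :: l) with hw
    set w' := ι a' * evl ι v (i' :: l') with hw'
    have l1 := Λ.len a (i :: l) hl
    have l2 := Λ.len a' (i' :: l') hl'
    rw [← hw] at l1
    rw [← hw'] at l2
    set e := ι a * vv v i.1 with he
    set e' := ι a' * vv v i'.1 with he'
    have l3 : T.L e = 1 := by rw [he, T.L_mul_left0 (Λ.Li _), Λ.Lv]
    have l4 : T.L e' = 1 := by rw [he', T.L_mul_left0 (Λ.Li _), Λ.Lv]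
    have l5 : T.L (w⁻¹ * e) = l.length := by
      have : w⁻¹ * e = (ι i.2 * evl ι v l)⁻¹ := by rw [hw, he, evl_cons]; group
      rw [this, T.L_inv, Λ.len _ l (List.isChain_cons.1 hl).2]
    have l6 : T.L (w'⁻¹ * e') = l'.length := by
      have : w'⁻¹ * e' = (ι i'.2 * evl ι v l')⁻¹ := by rw [hw', he', evl_cons]; group
      rw [this, T.L_inv, Λ.len _ l' (List.isChain_cons.1 hl').2]
    have c1 := T.hc w⁻¹ e⁻¹
    rw [inv_inv, T.L_inv, T.L_inv, l1, l3, l5] at c1
    have c2 := T.hc (x * w')⁻¹ (x * e')⁻¹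
    have e2 : (x * w')⁻¹ * (x * e')⁻¹⁻¹ = w'⁻¹ * e' := by group
    rw [e2, T.L_inv, T.L_inv, T.L_mul_left0 hx, T.L_mul_left0 hx, l2, l4, l6] at c2
    have c3 := T.hc w⁻¹ (x * w')⁻¹
    have e3 : w⁻¹ * (x * w')⁻¹⁻¹ = w⁻¹ * x * w' := by group
    rw [e3, h, T.L_inv, T.L_inv, T.L_mul_left0 hx, l1, l2] at c3
    have c4 := T.hc e⁻¹ (x * e')⁻¹
    have e4 : e⁻¹ * (x * e')⁻¹⁻¹ = (vv v i.1)⁻¹ * ((ι a)⁻¹ * x * ι a') * vv v i'.1 := by
      rw [he, he']; group
    rw [e4, T.L_inv, T.L_inv, T.L_mul_left0 hx, l3, l4] at c4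
    simp only [List.length_cons] at c1 c2 c3
    have p1 : 0 < T.c e⁻¹ w⁻¹ := by rw [T.c_comm]; omega
    have p2 : 0 < T.c w⁻¹ (x * w')⁻¹ := by omega
    have p3 : 0 < T.c (x * w')⁻¹ (x * e')⁻¹ := by omega
    have p4 := T.pos_trans (T.pos_trans p1 p2) p3
    omega
  · rw [← h]
    congr 1
    rw [evl_cons, evl_cons]
    group

/-- The quotient. -/
theorem build [Finite A] [Finite B] (hA : ∀ x : A, x * x = 1 → x = 1)
    (hF5 : ∀ a : A, a ≠ 1 → ∀ x, T.L (x⁻¹ * ι a * x) = 2 * T.L x)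
    (hmal : ∀ a : A, a ≠ 1 → ∀ x, T.L x = 0 → (∃ b, x⁻¹ * ι a * x = ι b) → ∃ b, x = ι b)
    (c₀ : ℕ)
    (hov : ∀ x, T.L x = 0 → (∀ a, x ≠ ι a) → ∀ (a a' : A) (l l' : List ((B × Bool) × A)),
      l.IsChain RR → l'.IsChain RR →
      T.L ((ι a * evl ι v l)⁻¹ * x * (ι a' * evl ι v l')) = 0 → l.length ≤ c₀) :
    ∃ (Q : Type) (_ : Group Q) (π : H →* Q), Function.Surjective π ∧
      (∀ g, T.L g = 0 → π g = 1 → g = 1) ∧
      (∀ g, T.L g = 0 → π g ∈ (FF ι v).map π → ∃ a, g = ι a) ∧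
      (∀ x ∈ (FF ι v).map π, x ≠ 1 → ∀ y, y⁻¹ * x * y ∈ (FF ι v).map π → y ∈ (FF ι v).map π) ∧
      ((FF ι v).map π : Set Q).Finite ∧
      (∀ x ∈ (FF ι v).map π, x * x = 1 → x = 1) := by
  classical
  obtain ⟨E, _, _, ιE, vE, hιE, hE, hG⟩ := exists_girth (A := A) (B := B) hA (100 * (c₀ + 1))
  -- the graph subgroup
  set Δ : Subgroup (H × E) := Subgroup.closure
    (Set.range (ι.prod ιE) ∪ Set.range (fun b => (v b, vE b))) with hΔ
  have hvv : ∀ i : B × Bool, vv (fun b => (v b, vE b)) i = (vv v i, vv vE i) := by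
    rintro ⟨b, e⟩
    cases e <;> simp [vv]
  have hevl : ∀ l : List ((B × Bool) × A), evl (ι.prod ιE) (fun b => (v b, vE b)) l =
      (evl ι v l, evl ιE vE l) := by
    intro l
    induction l with
    | nil => rfl
    | cons x l ih => rw [evl_cons, evl_cons, evl_cons, ih, hvv]; rfl
  have hword : ∀ z ∈ Δ, ∃ (a : A) (l : List ((B × Bool) × A)), l.IsChain RR ∧
      z.1 = ι a * evl ι v l ∧ z.2 = ιE a * evl ιE vE l := by
    intro z hz
    obtain ⟨a, l, hl, hz'⟩ := exists_red (ι.prod ιE) (fun b => (v b, vE b)) z hz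
    rw [hevl] at hz'
    exact ⟨a, l, hl, by rw [hz']; rfl, by rw [hz']; rfl⟩
  have hfst : ∀ f ∈ FF ι v, ∃ e : E, (f, e) ∈ Δ := by
    intro f hf
    induction hf using Subgroup.closure_induction with
    | mem x hx =>
      rcases hx with ⟨a, rfl⟩ | ⟨b, rfl⟩
      · exact ⟨ιE a, Subgroup.subset_closure (Or.inl ⟨a, rfl⟩)⟩
      · exact ⟨vE b, Subgroup.subset_closure (Or.inr ⟨b, rfl⟩)⟩
    | one => exact ⟨1, Δ.one_mem⟩
    | mul x y _ _ hx hy =>
      obtain ⟨e, he⟩ := hx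
      obtain ⟨e', he'⟩ := hy
      exact ⟨e * e', Δ.mul_mem he he'⟩
    | inv x _ hx =>
      obtain ⟨e, he⟩ := hx
      exact ⟨e⁻¹, Δ.inv_mem he⟩
  have hfst' : ∀ z ∈ Δ, z.1 ∈ FF ι v := by
    intro z hz
    obtain ⟨a, l, _, hz1, _⟩ := hword z hz
    rw [hz1]
    exact (FF ι v).mul_mem (i_mem _) (evl_mem _)
  set N : Subgroup H := Δ.comap (MonoidHom.inl H E) with hN
  have memN : ∀ n, n ∈ N ↔ (n, (1 : E)) ∈ Δ := fun n => Iff.rfl
  have cfg : Cfg T (FF ι v) N c₀ (100 * (c₀ + 1)) := by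
    refine ⟨Λ.conv1, ?_, ?_, ?_, ?_, le_rfl⟩
    · intro x hx hxF w hw w' hw' h
      obtain ⟨a, l, hl, rfl⟩ := exists_red ι v w hw
      obtain ⟨a', l', hl', rfl⟩ := exists_red ι v w' hw'
      rw [Λ.len a l hl]
      exact hov x hx (fun a hax => hxF (hax ▸ i_mem _)) a a' l l' hl hl' h
    · intro n hn
      exact hfst' _ ((memN n).1 hn)
    · intro f hf n hn
      obtain ⟨e, he⟩ := hfst f hf
      rw [memN] at hn ⊢
      have := Δ.mul_mem (Δ.mul_mem he hn) (Δ.inv_mem he)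
      have e1 : (f, e) * (n, 1) * (f, e)⁻¹ = (f * n * f⁻¹, (1 : E)) := by
        ext
        · rfl
        · simp
      rwa [e1] at this
    · intro n hn hn1
      obtain ⟨a, l, hl, h1, h2⟩ := hword _ ((memN n).1 hn)
      simp only at h1 h2
      by_cases hl0 : l = []
      · exfalso
        apply hn1
        subst hl0
        rw [evl_nil, mul_one] at h1 h2
        have : a = 1 := hιE (by rw [← h2, map_one])
        rw [h1, this, map_one]
      · rw [h1, Λ.len a l hl]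
        by_contra hlt
        exact hG a l hl hl0 (by omega) h2.symm
  have hMD : MalData T (FF ι v) := by
    refine ⟨?_, ?_⟩
    · intro a ha ha0 ha1 x
      obtain ⟨a', rfl⟩ := Λ.mem_range a ha ha0
      exact hF5 a' (fun h => ha1 (by rw [h, map_one])) x
    · intro a ha ha0 ha1 x hx hxa
      obtain ⟨a', rfl⟩ := Λ.mem_range a ha ha0
      have hL : T.L (x⁻¹ * ι a' * x) = 0 := by
        rw [T.L_mul_right0 hx, T.L_mul_right0 (Λ.Li _), T.L_inv, hx]
      obtain ⟨b, hb⟩ := Λ.mem_range _ hxa hL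
      obtain ⟨c, rfl⟩ := hmal a' (fun h => ha1 (by rw [h, map_one])) x hx ⟨b, hb⟩
      exact i_mem _
  obtain ⟨Q, _, π, hπ, q1, q2, q3, q4⟩ := cfg.quotient hMD
  have hπN : ∀ z ∈ Δ, z.2 = 1 → π z.1 = 1 := by
    rintro ⟨f, e⟩ hz he
    simp only at he
    subst he
    exact (q2 f (hfst' _ hz)).2 hz
  refine ⟨Q, inferInstance, π, hπ, q1, ?_, q4, ?_, ?_⟩
  · intro g hg h
    exact Λ.mem_range g (q3 g hg h) hg
  · let s : E → Q := fun e => if h : ∃ f, (f, e) ∈ Δ then π h.choose else 1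
    apply (Set.finite_range s).subset
    rintro _ ⟨f, hf, rfl⟩
    obtain ⟨e, he⟩ := hfst f hf
    refine ⟨e, ?_⟩
    have h : ∃ f, (f, e) ∈ Δ := ⟨f, he⟩
    change (if h : ∃ f, (f, e) ∈ Δ then π h.choose else 1) = π f
    rw [dif_pos h]
    have h1 := h.choose_spec
    have h2 := hπN _ (Δ.mul_mem h1 (Δ.inv_mem he)) (by simp)
    have h3 : π (h.choose * f⁻¹) = 1 := h2
    rw [map_mul, map_inv] at h3
    exact mul_inv_eq_one.1 h3
  · rintro _ ⟨f, hf, rfl⟩ hff
    rw [← map_mul] at hff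
    obtain ⟨e, he⟩ := hfst f hf
    have hf2 := (q2 (f * f) ((FF ι v).mul_mem hf hf)).1 hff
    rw [memN] at hf2
    have h1 := Δ.mul_mem (Δ.inv_mem hf2) (Δ.mul_mem he he)
    have e1 : (f * f, (1 : E))⁻¹ * ((f, e) * (f, e)) = (1, e * e) := by
      ext
      · simp
      · simp
    rw [e1] at h1
    obtain ⟨a, l, hl, h2, h3⟩ := hword _ h1
    simp only at h2 h3
    have h4 := Λ.len a l hl
    rw [← h2, T.L_one] at h4
    have h5 : l = [] := List.length_eq_zero_iff.1 h4.symm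
    subst h5
    rw [evl_nil, mul_one] at h2 h3
    have h6 : a = 1 := Λ.inj (by rw [← h2, map_one])
    rw [h6, map_one] at h3
    have h7 : e = 1 := hE e h3
    subst h7
    exact hπN _ he rfl

end Lett

end Pool.Agent.TH65
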