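import Mathlib
import Pool.Agent.TH65.Lett
import Pool.Agent.Helper495.E97.HNNLen

set_option autoImplicit false

/-!
# The extension step, HNN part
-/

namespace Pool.Agent.TH65

open Pool.Agent.Helper495.E97 HNNExtension HNNExtension.NormalWord

/-- The conclusion of the extension step. -/
def StepConcl (G : Type) [Group G] (A : Subgroup G) (t g : G) : Prop :=
  ∃ (Q : Type) (_ : Group Q) (_ : Countable Q) (j : G →* Q) (A' : Subgroup Q),
    Function.Injective j ∧ (A' : Set Q).Finite ∧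
    (∀ x ∈ A', x ≠ 1 → ∀ y, y⁻¹ * x * y ∈ A' → y ∈ A') ∧
    (∀ x ∈ A', x * x = 1 → x = 1) ∧ (∀ x, j x ∈ A' ↔ x ∈ A) ∧
    (j g ∈ A' ∨ ∃ a ∈ A', ∃ b ∈ A', j g = a * j t * b)

section hnn

variable {G : Type} [Group G] {E₁ E₂ : Subgroup G} (φ : E₁ ≃* E₂) (d : TransversalPair G E₁ E₂)

theorem junc2 (u u' : ℤˣ) (a0 a a1 : G) (h : a ∈ toSubgroup E₁ E₂ u → u = u') :
    len φ d (of a0 * t ^ (u : ℤ) * of a * t ^ (u' : ℤ) * of a1) = 2 := by
  have := len_of_red φ d a0 [(u, a), (u', a1)] (by simpa [R] using h)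
  simp only [P_cons, P_nil, mul_one, List.length_cons, List.length_nil, Nat.zero_add,
    Nat.reduceAdd] at this
  rw [← this]
  congr 1
  group

theorem junc1 (u : ℤˣ) (a0 a : G) : len φ d (of a0 * t ^ (u : ℤ) * of a) = 1 := by
  have := len_of_red φ d a0 [(u, a)] (by simp)
  simp only [P_cons, P_nil, mul_one, List.length_cons, List.length_nil, Nat.zero_add] at this
  rw [← this]
  congr 1
  group

theorem hnn_countable [Countable G] : Countable (HNNExtension G E₁ E₂ φ) := by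
  classical
  have : Countable (ℤˣ × G) := inferInstance
  have hs : Function.Surjective (fun z : G × List (ℤˣ × G) => (of z.1 * Q φ z.2 :
      HNNExtension G E₁ E₂ φ)) := by
    intro h
    obtain ⟨d⟩ := (inferInstance : Nonempty (TransversalPair G E₁ E₂))
    obtain ⟨g, hg⟩ := exists_eq φ d h
    exact ⟨(g, rl φ d h), hg.symm⟩
  exact hs.countable

theorem F5_hnn (a : G) (h : ∀ (u : ℤˣ) (b : G), b * a * b⁻¹ ∉ toSubgroup E₁ E₂ u)
    (x : HNNExtension G E₁ E₂ φ) :
    (hnnTree φ d).L (x⁻¹ * of a * x) = 2 * (hnnTree φ d).L x := by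
  set T := hnnTree φ d with hT
  have hLa : T.L (of a) = 0 := (len_eq_zero_iff φ d _).2 ⟨a, rfl⟩
  rcases Nat.eq_zero_or_pos (T.L x) with h0 | hpos
  · rw [T.L_mul_right0 h0, T.L_mul_right0 hLa, T.L_inv, h0]
  · have hx : 0 < len φ d x⁻¹ := by
      have := T.L_inv x
      change 0 < T.L x⁻¹
      omega
    obtain ⟨q, u, b, h1, h2⟩ := split' φ d x⁻¹ hx
    set s : HNNExtension G E₁ E₂ φ := t ^ (u : ℤ) * of b with hs
    have hLs : T.L s = 1 := len_syl φ d u b
    have h2' : T.L q + 1 = T.L x⁻¹ := h2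
    rw [T.L_inv] at h2'
    -- x⁻¹ and s share the last edge
    have c1 := T.hc x⁻¹ s
    have e1 : x⁻¹ * s⁻¹ = q := by rw [h1]; group
    rw [e1, T.L_inv, hLs] at c1
    have c1' := T.c_mul_right0 hLa x⁻¹ s
    have c2 := T.hc (x⁻¹ * of a) x⁻¹
    rw [inv_inv, T.L_mul_right0 hLa, T.L_inv] at c2
    by_contra hne
    have p1 : 0 < T.c (x⁻¹ * of a) x⁻¹ := by omega
    have p2 : 0 < T.c x⁻¹ s := by omega
    have p3 : 0 < T.c (s * of a) (x⁻¹ * of a) := by rw [T.c_comm]; omega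
    have p4 := T.pos_trans (T.pos_trans p3 p1) p2
    have c3 := T.hc (s * of a) s
    rw [T.L_mul_right0 hLa, hLs] at c3
    have h5 : T.L (s * of a * s⁻¹) = 0 := by omega
    exact h u b (pinch φ d u b a h5)

/-- From a letter system in an HNN extension to the extension step. -/
theorem from_hnn [Countable G] (A : Subgroup G) [Finite A]
    (hmal : ∀ x ∈ A, x ≠ 1 → ∀ y, y⁻¹ * x * y ∈ A → y ∈ A)
    (hodd : ∀ x ∈ A, x * x = 1 → x = 1) (τ g : G) {B : Type} [Finite B]
    (v : B → HNNExtension G E₁ E₂ φ)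
    (Λ : Lett (hnnTree φ d) ((of (φ := φ)).comp A.subtype) v)
    (hE : ∀ u, ∀ x ∈ toSubgroup E₁ E₂ u, x * x = 1) (c₀ : ℕ)
    (hov : ∀ x : G, x ∉ A → ∀ (a a' : A) (l l' : List ((B × Bool) × A)),
      l.IsChain RR → l'.IsChain RR →
      (hnnTree φ d).L ((of (a : G) * evl ((of (φ := φ)).comp A.subtype) v l)⁻¹ * of x *
        (of (a' : G) * evl ((of (φ := φ)).comp A.subtype) v l')) = 0 → l.length ≤ c₀)
    (hg : ∃ f ∈ FF ((of (φ := φ)).comp A.subtype) v,
      ∃ f' ∈ FF ((of (φ := φ)).comp A.subtype) v, of g = f * of τ * f') :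
    StepConcl G A τ g := by
  have hHc := hnn_countable φ
  obtain ⟨Q, _, π, hπ, q1, q2, q3, q4, q5⟩ := Λ.build
    (by
      intro x hx
      have := hodd x x.2 (by rw [← Subgroup.coe_mul, hx]; rfl)
      exact Subtype.ext this)
    (by
      intro a ha x
      apply F5_hnn φ d
      intro u b hb
      have h1 := hE u _ hb
      have h2 : (a : G) * a = 1 := by
        have : (a : G) * a = b⁻¹ * (b * (a : G) * b⁻¹ * (b * a * b⁻¹)) * b := by group
        rw [this]
        have h1' : b * (a : G) * b⁻¹ * (b * a * b⁻¹) = 1 := h1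
        rw [h1']; group
      exact ha (Subtype.ext (hodd a a.2 h2)))
    (by
      rintro a ha x hx ⟨b, hb⟩
      obtain ⟨x₀, rfl⟩ := (len_eq_zero_iff φ d x).1 hx
      have h1 : x₀⁻¹ * (a : G) * x₀ = b := by
        apply of_injective φ
        rw [map_mul, map_mul, map_inv]
        exact hb
      have h2 := hmal a a.2 (fun h => ha (Subtype.ext h)) x₀ (by rw [h1]; exact b.2)
      exact ⟨⟨x₀, h2⟩, rfl⟩)
    c₀
    (by
      intro x hx hxA a a' l l' hl hl' h
      obtain ⟨x₀, rfl⟩ := (len_eq_zero_iff φ d x).1 hx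
      exact hov x₀ (fun h => hxA ⟨x₀, h⟩ rfl) a a' l l' hl hl' h)
  have hof : ∀ x : G, (hnnTree φ d).L (of x) = 0 := fun x => (len_eq_zero_iff φ d _).2 ⟨x, rfl⟩
  refine ⟨Q, inferInstance, hπ.countable, π.comp of,
    (FF ((of (φ := φ)).comp A.subtype) v).map π, ?_, q4, q3, q5, ?_, ?_⟩
  · rw [injective_iff_map_eq_one]
    intro x hx
    have := q1 (of x) (hof x) hx
    exact of_injective φ (by rw [this, map_one])
  · intro x
    constructor
    · intro hx
      obtain ⟨a, ha⟩ := q2 (of x) (hof x) hx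
      have : x = a := of_injective φ ha
      rw [this]; exact a.2
    · intro hx
      exact Subgroup.mem_map_of_mem π (Lett.i_mem (v := v)
        (ι := (of (φ := φ)).comp A.subtype) ⟨x, hx⟩)
  · right
    obtain ⟨f, hf, f', hf', he⟩ := hg
    refine ⟨π f, Subgroup.mem_map_of_mem π hf, π f', Subgroup.mem_map_of_mem π hf', ?_⟩
    rw [MonoidHom.comp_apply, he, map_mul, map_mul]
    rfl

end hnn

end Pool.Agent.TH65
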