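import Mathlib
import Pool.Agent.TH65.HNNStep

set_option autoImplicit false

/-!
# The extension step, first case
-/

namespace Pool.Agent.TH65

open Pool.Agent.Helper495.E97 HNNExtension HNNExtension.NormalWord

theorem cancel_mid {K : Type*} [Group K] (P S Q Y P' Q' : K) (h : Q * Y * P' = 1) :
    P * S⁻¹ * Q * Y * (P' * S * Q') = P * Q' := by
  have : P * S⁻¹ * Q * Y * (P' * S * Q') = P * S⁻¹ * (Q * Y * P') * (S * Q') := by group
  rw [this, h]; group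

section case1

variable {G : Type} [Group G] (g τ : G)

/-- the HNN extension with trivial edge groups -/
abbrev H1 (G : Type) [Group G] := HNNExtension G ⊥ ⊥ (MulEquiv.refl (⊥ : Subgroup G))

/-- the two letters -/
noncomputable def v1 : Bool → H1 G
  | true => of g⁻¹ * t
  | false => of τ * t⁻¹

/-- left part of a letter -/
def pp : Bool × Bool → G
  | (true, true) => g⁻¹
  | (true, false) => 1
  | (false, true) => τ
  | (false, false) => 1

/-- right part of a letter -/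
def qq : Bool × Bool → G
  | (true, true) => 1
  | (true, false) => g
  | (false, true) => 1
  | (false, false) => τ

/-- sign of a letter -/
def ee : Bool × Bool → ℤˣ
  | (true, true) => 1
  | (true, false) => -1
  | (false, true) => -1
  | (false, false) => 1

theorem ee_ivv (i : Bool × Bool) : ee (ivv i) = - ee i := by
  obtain ⟨a, b⟩ := i
  cases a <;> cases b <;> simp [ee, ivv]

theorem mem_bot_u (u : ℤˣ) (x : G) : x ∈ toSubgroup (⊥ : Subgroup G) ⊥ u ↔ x = 1 := by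
  rcases Int.units_eq_one_or u with rfl | rfl
  · exact Subgroup.mem_bot
  · exact Subgroup.mem_bot

variable {g τ}

theorem vv1 (hτ : τ * τ = 1) (i : Bool × Bool) :
    vv (v1 g τ) i = of (pp g τ i) * t ^ (ee i : ℤ) * of (qq g τ i) := by
  have h : τ⁻¹ = τ := inv_eq_of_mul_eq_one_left hτ
  obtain ⟨a, b⟩ := i
  cases a <;> cases b
  · simp only [vv, v1, pp, qq, ee, Bool.false_eq_true, if_false, map_one, one_mul, mul_inv_rev,
      inv_inv, Units.val_one, zpow_one]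
    rw [← map_inv, h]
  · simp [vv, v1, pp, qq, ee]
  · simp [vv, v1, pp, qq, ee]
  · simp [vv, v1, pp, qq, ee]

variable (d : TransversalPair G (⊥ : Subgroup G) ⊥)

theorem junc_1 (hτ : τ * τ = 1) (i j : Bool × Bool) (y : G)
    (h : qq g τ i * y * pp g τ j = 1 → ee i = ee j) :
    (hnnTree (MulEquiv.refl (⊥ : Subgroup G)) d).L (vv (v1 g τ) i * of y * vv (v1 g τ) j) = 2 := by
  have h1 := junc2 (MulEquiv.refl (⊥ : Subgroup G)) d (ee i) (ee j) (pp g τ i)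
    (qq g τ i * y * pp g τ j) (qq g τ j) (by rw [mem_bot_u]; exact h)
  rw [hnnTree_L, vv1 hτ, vv1 hτ, ← h1]
  congr 1
  simp only [map_mul]
  group

theorem step_1 (hτ : τ * τ = 1) (i j : Bool × Bool) (y : G)
    (h : (hnnTree (MulEquiv.refl (⊥ : Subgroup G)) d).L
      ((vv (v1 g τ) i)⁻¹ * of y * vv (v1 g τ) j) = 0) :
    (qq g τ (ivv i) * y * pp g τ j = 1 ∧ ee i = ee j) ∧
    (vv (v1 g τ) i)⁻¹ * of y * vv (v1 g τ) j = of (pp g τ (ivv i) * qq g τ j) := by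
  have h1 : qq g τ (ivv i) * y * pp g τ j = 1 ∧ ee (ivv i) ≠ ee j := by
    by_contra hcon
    have := junc_1 (g := g) d hτ (ivv i) j y (by
      intro h2
      by_contra h3
      exact hcon ⟨h2, h3⟩)
    rw [vv_ivv, h] at this
    omega
  have h2 : ee i = ee j := by
    obtain ⟨_, h3⟩ := h1
    rw [ee_ivv] at h3
    rcases Int.units_eq_one_or (ee i) with h | h <;>
      rcases Int.units_eq_one_or (ee j) with h' | h' <;> simp_all
  refine ⟨⟨h1.1, h2⟩, ?_⟩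
  rw [← vv_ivv, vv1 hτ, vv1 hτ, ee_ivv, h2]
  have h4 := congrArg (of (φ := MulEquiv.refl (⊥ : Subgroup G))) h1.1
  simp only [map_mul, map_one] at h4
  rw [Units.val_neg, zpow_neg, map_mul]
  exact cancel_mid _ _ _ _ _ _ h4

/-- the four possible transitions -/
theorem trans_1 (hτ : τ * τ = 1) (i j : Bool × Bool) (y : G) (hy : y ≠ 1)
    (h : (hnnTree (MulEquiv.refl (⊥ : Subgroup G)) d).L
      ((vv (v1 g τ) i)⁻¹ * of y * vv (v1 g τ) j) = 0) :
    ((i = (true, true) ∧ j = (false, false) ∧ y = g⁻¹ ∧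
        (vv (v1 g τ) i)⁻¹ * of y * vv (v1 g τ) j = of τ) ∨
      (i = (false, false) ∧ j = (true, true) ∧ y = g ∧
        (vv (v1 g τ) i)⁻¹ * of y * vv (v1 g τ) j = of τ)) ∨
    ((i = (true, false) ∧ j = (false, true) ∧ y = τ ∧
        (vv (v1 g τ) i)⁻¹ * of y * vv (v1 g τ) j = of g⁻¹) ∨
      (i = (false, true) ∧ j = (true, false) ∧ y = τ ∧
        (vv (v1 g τ) i)⁻¹ * of y * vv (v1 g τ) j = of g)) := by
  have hτ' : τ⁻¹ = τ := inv_eq_of_mul_eq_one_left hτ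
  obtain ⟨⟨h1, h2⟩, h3⟩ := step_1 d hτ i j y h
  rw [h3]
  clear h3 h
  have t1 : (1 : ℤˣ) ≠ -1 := by decide
  have t2 : (-1 : ℤˣ) ≠ 1 := by decide
  obtain ⟨a, b⟩ := i
  obtain ⟨a', b'⟩ := j
  cases a <;> cases b <;> cases a' <;> cases b' <;>
    simp only [ee, t1, t2] at h2 <;>
    simp only [pp, qq, ivv, Bool.not_true, Bool.not_false, one_mul, mul_one] at h1 ⊢
  · exact absurd h1 hy
  · left; right
    have : y = g := mul_inv_eq_one.1 h1
    exact ⟨by trivial, by trivial, this, by trivial⟩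
  · exfalso
    apply hy
    have : y = τ⁻¹ * (τ * y * τ) * τ⁻¹ := by group
    rw [this, h1, hτ', mul_one, hτ]
  · right; right
    have : y = τ := by rw [← hτ']; exact (inv_eq_of_mul_eq_one_right h1).symm
    exact ⟨by trivial, by trivial, this, by trivial⟩
  · right; left
    have : y = τ := by rw [← hτ']; exact (inv_eq_of_mul_eq_one_left h1).symm
    exact ⟨by trivial, by trivial, this, by trivial⟩
  · exact absurd h1 hy
  · left; left
    have : y = g⁻¹ := (inv_eq_of_mul_eq_one_right h1).symm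
    exact ⟨by trivial, by trivial, this, by trivial⟩
  · exfalso
    apply hy
    have : y = g⁻¹ * (g * y * g⁻¹) * g := by group
    rw [this, h1]; group

/-- malnormality helper -/
theorem mal_help {A : Subgroup G} (hmal : ∀ x ∈ A, x ≠ 1 → ∀ y, y⁻¹ * x * y ∈ A → y ∈ A)
    (z : G) (hz : z ∉ A) (a a' : A) (h : (a : G)⁻¹ * z * a' = z) : a = 1 := by
  by_contra hne
  apply hz
  have h1 : z⁻¹ * (a : G) * z = a' := by
    have : (a' : G) = z⁻¹ * a * ((a : G)⁻¹ * z * a') := by group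
    rw [this, h]
  exact hmal a a.2 (fun h => hne (Subtype.ext h)) z (by rw [h1]; exact a'.2)

theorem lett_1 (hτ : τ * τ = 1) (A : Subgroup G) (hτA : τ ∉ A) (hgA : g ∉ A) :
    Lett (hnnTree (MulEquiv.refl (⊥ : Subgroup G)) d)
      ((of (φ := MulEquiv.refl (⊥ : Subgroup G))).comp A.subtype) (v1 g τ) := by
  refine ⟨?_, ?_, ?_, ?_⟩
  · exact (of_injective _).comp A.subtype_injective
  · intro a
    exact (len_eq_zero_iff _ d _).2 ⟨a, rfl⟩
  · intro i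
    rw [hnnTree_L, vv1 hτ]
    exact junc1 _ _ _ _ _
  · intro i j a hij
    apply junc_1 d hτ i j a
    intro h
    have t1 : (1 : ℤˣ) ≠ -1 := by decide
    have t2 : (-1 : ℤˣ) ≠ 1 := by decide
    have hτ' : τ⁻¹ = τ := inv_eq_of_mul_eq_one_left hτ
    obtain ⟨x, y⟩ := i
    obtain ⟨x', y'⟩ := j
    have ha1 : ∀ b : G, b ∉ A → (a : G) * b = 1 → False := by
      intro b hb hab
      apply hb
      rw [← inv_eq_of_mul_eq_one_right hab]
      exact A.inv_mem a.2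
    have ha2 : ∀ b : G, b ∉ A → b * (a : G) = 1 → False := by
      intro b hb hab
      apply hb
      rw [← inv_eq_of_mul_eq_one_left hab]
      exact A.inv_mem a.2
    have hg' : g⁻¹ ∉ A := fun h => hgA (by have := A.inv_mem h; rwa [inv_inv] at this)
    have ha3 : ∀ b : G, b * a * b⁻¹ = 1 → a = 1 := by
      intro b hb
      apply Subtype.ext
      have : (a : G) = b⁻¹ * (b * a * b⁻¹) * b := by group
      rw [this, hb]; simp
    cases x <;> cases y <;> cases x' <;> cases y' <;>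
      simp only [ee, t1, t2] <;>
      simp only [pp, qq, one_mul, mul_one] at h
    · exact hij (ha3 τ (by rw [hτ']; exact h)) rfl
    · exact ha2 _ hτA h
    · exact hij (Subtype.ext h) rfl
    · exact ha1 _ hg' h
    · exact ha2 _ hgA h
    · exact hij (ha3 g h) rfl
    · exact ha1 _ hτA h
    · exact hij (Subtype.ext h) rfl

theorem ov_1 (hτ : τ * τ = 1) (A : Subgroup G)
    (hmal : ∀ x ∈ A, x ≠ 1 → ∀ y, y⁻¹ * x * y ∈ A → y ∈ A) (hτA : τ ∉ A) (hgA : g ∉ A)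
    (hgτ : ∀ a ∈ A, ∀ b ∈ A, g ≠ a * τ * b) (hgg : ∀ a ∈ A, ∀ b ∈ A, g⁻¹ ≠ a * g * b)
    (x : G) (hx : x ∉ A) (a a' : A) (l l' : List ((Bool × Bool) × A))
    (hl : l.IsChain RR) (hl' : l'.IsChain RR)
    (h : (hnnTree (MulEquiv.refl (⊥ : Subgroup G)) d).L
      ((of (a : G) * evl ((of (φ := MulEquiv.refl (⊥ : Subgroup G))).comp A.subtype)
        (v1 g τ) l)⁻¹ * of x *
        (of (a' : G) * evl ((of (φ := MulEquiv.refl (⊥ : Subgroup G))).comp A.subtype)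
        (v1 g τ) l')) = 0) : l.length ≤ 2 := by
  have Λ := lett_1 d hτ A hτA hgA
  set T := hnnTree (MulEquiv.refl (⊥ : Subgroup G)) d with hT
  set ι := (of (φ := MulEquiv.refl (⊥ : Subgroup G))).comp A.subtype with hι
  have hg' : g⁻¹ ∉ A := fun h => hgA (by have := A.inv_mem h; rwa [inv_inv] at this)
  -- general step
  have key : ∀ (x : G) (hx : x ∉ A) (a a' : A) (i i' : (Bool × Bool) × A)
      (l l' : List ((Bool × Bool) × A)), (i :: l).IsChain RR → (i' :: l').IsChain RR →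
      T.L ((of (a : G) * evl ι (v1 g τ) (i :: l))⁻¹ * of x *
        (of (a' : G) * evl ι (v1 g τ) (i' :: l'))) = 0 →
      ∃ x₁ : G, T.L ((of (i.2 : G) * evl ι (v1 g τ) l)⁻¹ * of x₁ *
        (of (i'.2 : G) * evl ι (v1 g τ) l')) = 0 ∧
      (((i.1 = (true, true) ∧ i'.1 = (false, false) ∧ (a : G)⁻¹ * x * a' = g⁻¹ ∧ x₁ = τ) ∨
      (i.1 = (false, false) ∧ i'.1 = (true, true) ∧ (a : G)⁻¹ * x * a' = g ∧ x₁ = τ)) ∨
      ((i.1 = (true, false) ∧ i'.1 = (false, true) ∧ (a : G)⁻¹ * x * a' = τ ∧ x₁ = g⁻¹) ∨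
      (i.1 = (false, true) ∧ i'.1 = (true, false) ∧ (a : G)⁻¹ * x * a' = τ ∧ x₁ = g))) := by
    intro x hx a a' i i' l l' hl hl' h
    obtain ⟨h1, h2⟩ := Λ.ov_step (of x) ((len_eq_zero_iff _ d _).2 ⟨x, rfl⟩) a a' i i' l l'
      hl hl' h
    have e1 : (ι a)⁻¹ * of x * ι a' = of ((a : G)⁻¹ * x * a') := by
      rw [map_mul, map_mul, map_inv]; rfl
    rw [e1] at h1 h2
    have hy : (a : G)⁻¹ * x * a' ≠ 1 := by
      intro h0
      apply hx
      have : x = a * ((a : G)⁻¹ * x * a') * (a' : G)⁻¹ := by group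
      rw [this, h0, mul_one]
      exact A.mul_mem a.2 (A.inv_mem a'.2)
    rcases trans_1 d hτ i.1 i'.1 _ hy h1 with (⟨c1, c2, c3, c4⟩ | ⟨c1, c2, c3, c4⟩) |
      (⟨c1, c2, c3, c4⟩ | ⟨c1, c2, c3, c4⟩)
    · rw [c4] at h2; exact ⟨τ, h2, Or.inl (Or.inl ⟨c1, c2, c3, rfl⟩)⟩
    · rw [c4] at h2; exact ⟨τ, h2, Or.inl (Or.inr ⟨c1, c2, c3, rfl⟩)⟩
    · rw [c4] at h2; exact ⟨g⁻¹, h2, Or.inr (Or.inl ⟨c1, c2, c3, rfl⟩)⟩
    · rw [c4] at h2; exact ⟨g, h2, Or.inr (Or.inr ⟨c1, c2, c3, rfl⟩)⟩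
  have hlen : l'.length = l.length := by
    have h1 := Λ.len a l hl
    have h2 := Λ.len a' l' hl'
    have h3 : T.L (of x) = 0 := (len_eq_zero_iff _ d _).2 ⟨x, rfl⟩
    have h4 : T.L (of x * (ι a' * evl ι (v1 g τ) l')) =
        T.L (ι a * evl ι (v1 g τ) l) := by
      have e : of x * (ι a' * evl ι (v1 g τ) l') = (ι a * evl ι (v1 g τ) l) *
          ((ι a * evl ι (v1 g τ) l)⁻¹ * of x * (ι a' * evl ι (v1 g τ) l')) := by group
      have h' : T.L ((ι a * evl ι (v1 g τ) l)⁻¹ * of x * (ι a' * evl ι (v1 g τ) l')) = 0 := h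
      rw [e, T.L_mul_right0 h']
    rw [T.L_mul_left0 h3, h1, h2] at h4
    exact h4
  by_contra hcon
  push Not at hcon
  -- three letters
  obtain ⟨i₁, i₂, i₃, m, rfl⟩ : ∃ i₁ i₂ i₃ m, l = i₁ :: i₂ :: i₃ :: m := by
    match l, hcon with
    | i₁ :: i₂ :: i₃ :: m, _ => exact ⟨i₁, i₂, i₃, m, rfl⟩
  obtain ⟨j₁, j₂, j₃, m', rfl⟩ : ∃ i₁ i₂ i₃ m, l' = i₁ :: i₂ :: i₃ :: m := by
    match l', (by rw [hlen]; exact hcon : 2 < l'.length) with
    | i₁ :: i₂ :: i₃ :: m, _ => exact ⟨i₁, i₂, i₃, m, rfl⟩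
  have hl2 := List.isChain_cons.1 hl
  have hl3 := List.isChain_cons.1 hl2.2
  have hl2' := List.isChain_cons.1 hl'
  have hl3' := List.isChain_cons.1 hl2'.2
  have r12 : RR i₁ i₂ := hl2.1 i₂ (by simp)
  have r23 : RR i₂ i₃ := hl3.1 i₃ (by simp)
  obtain ⟨x₁, h1, st1⟩ := key x hx a a' i₁ j₁ _ _ hl hl' h
  -- state g
  have noG : ∀ (z : G) (b b' : A) (i i' k k' : (Bool × Bool) × A)
      (l l' : List ((Bool × Bool) × A)), (k :: l).IsChain RR → (k' :: l').IsChain RR →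
      RR i k → i.2 = b →
      ((i.1 = (true, false) ∧ i'.1 = (false, true) ∧ z = g⁻¹) ∨
        (i.1 = (false, true) ∧ i'.1 = (true, false) ∧ z = g)) →
      T.L ((of (b : G) * evl ι (v1 g τ) (k :: l))⁻¹ * of z *
        (of (b' : G) * evl ι (v1 g τ) (k' :: l'))) = 0 → False := by
    intro z b b' i i' k k' l l' hk hk' hik hib hst hz
    have hzA : z ∉ A := by
      rcases hst with ⟨_, _, rfl⟩ | ⟨_, _, rfl⟩
      · exact hg'
      · exact hgA
    obtain ⟨x₂, _, st⟩ := key z hzA b b' k k' l l' hk hk' hz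
    rcases hst with ⟨s1, s2, rfl⟩ | ⟨s1, s2, rfl⟩
    · rcases st with (⟨c1, c2, c3, c4⟩ | ⟨c1, c2, c3, c4⟩) | (⟨c1, c2, c3, c4⟩ | ⟨c1, c2, c3, c4⟩)
      · have := mal_help hmal _ hg' b b' c3
        apply hik (hib.trans this)
        rw [c1, s1]; rfl
      · apply hgg b b.2 (b'⁻¹ : A) (b'⁻¹ : A).2
        have : g⁻¹ = b * ((b : G)⁻¹ * g⁻¹ * b') * (b' : G)⁻¹ := by group
        rw [this, c3, Subgroup.coe_inv]
      · apply hgτ b' b'.2 (b⁻¹ : A) (b⁻¹ : A).2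
        have hτ' : τ⁻¹ = τ := inv_eq_of_mul_eq_one_left hτ
        rw [← hτ', ← c3, Subgroup.coe_inv]; group
      · apply hgτ b' b'.2 (b⁻¹ : A) (b⁻¹ : A).2
        have hτ' : τ⁻¹ = τ := inv_eq_of_mul_eq_one_left hτ
        rw [← hτ', ← c3, Subgroup.coe_inv]; group
    · rcases st with (⟨c1, c2, c3, c4⟩ | ⟨c1, c2, c3, c4⟩) | (⟨c1, c2, c3, c4⟩ | ⟨c1, c2, c3, c4⟩)
      · apply hgg (b⁻¹ : A) (b⁻¹ : A).2 b' b'.2
        rw [← c3, Subgroup.coe_inv]
      · have := mal_help hmal _ hgA b b' c3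
        apply hik (hib.trans this)
        rw [c1, s1]; rfl
      · apply hgτ b b.2 (b'⁻¹ : A) (b'⁻¹ : A).2
        rw [← c3, Subgroup.coe_inv]; group
      · apply hgτ b b.2 (b'⁻¹ : A) (b'⁻¹ : A).2
        rw [← c3, Subgroup.coe_inv]; group
  rcases st1 with st1 | st1
  · -- state tau
    have hx1 : x₁ = τ := by
      rcases st1 with ⟨_, _, _, h⟩ | ⟨_, _, _, h⟩ <;> exact h
    obtain ⟨x₂, h2, st2⟩ := key x₁ (by rw [hx1]; exact hτA) i₁.2 j₁.2 i₂ j₂ _ _ hl2.2 hl2'.2 h1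
    rw [hx1] at st2
    have hgτ' : ∀ a ∈ A, ∀ b ∈ A, g⁻¹ ≠ a * τ * b := by
      intro a ha b hb h
      apply hgτ b⁻¹ (A.inv_mem hb) a⁻¹ (A.inv_mem ha)
      have hτ' : τ⁻¹ = τ := inv_eq_of_mul_eq_one_left hτ
      have : g = (g⁻¹)⁻¹ := by group
      rw [this, h]
      simp only [mul_inv_rev, hτ', mul_assoc]
    rcases st2 with (⟨c1, c2, c3, c4⟩ | ⟨c1, c2, c3, c4⟩) | st2
    · exact hgτ' _ (A.inv_mem i₁.2.2) _ j₁.2.2 c3.symm
    · exact hgτ _ (A.inv_mem i₁.2.2) _ j₁.2.2 c3.symm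
    · refine noG x₂ i₂.2 j₂.2 i₂ j₂ i₃ j₃ m m' hl3.2 hl3'.2 r23 rfl ?_ h2
      rcases st2 with ⟨c1, c2, _, c4⟩ | ⟨c1, c2, _, c4⟩
      · exact Or.inl ⟨c1, c2, c4⟩
      · exact Or.inr ⟨c1, c2, c4⟩
  · refine noG x₁ i₁.2 j₁.2 i₁ j₁ i₂ j₂ _ _ hl2.2 hl2'.2 r12 rfl ?_ h1
    rcases st1 with ⟨c1, c2, _, c4⟩ | ⟨c1, c2, _, c4⟩
    · exact Or.inl ⟨c1, c2, c4⟩
    · exact Or.inr ⟨c1, c2, c4⟩

theorem concl_1 [Countable G] (hτ : τ * τ = 1) (A : Subgroup G) [Finite A]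
    (hmal : ∀ x ∈ A, x ≠ 1 → ∀ y, y⁻¹ * x * y ∈ A → y ∈ A)
    (hodd : ∀ x ∈ A, x * x = 1 → x = 1) (hτA : τ ∉ A) (hgA : g ∉ A)
    (hgτ : ∀ a ∈ A, ∀ b ∈ A, g ≠ a * τ * b) (hgg : ∀ a ∈ A, ∀ b ∈ A, g⁻¹ ≠ a * g * b) :
    StepConcl G A τ g := by
  obtain ⟨d⟩ := (inferInstance : Nonempty (TransversalPair G (⊥ : Subgroup G) ⊥))
  refine from_hnn (MulEquiv.refl (⊥ : Subgroup G)) d A hmal hodd τ g (v1 g τ)
    (lett_1 d hτ A hτA hgA) ?_ 2 ?_ ?_
  · intro u x hx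
    rw [mem_bot_u] at hx
    rw [hx, mul_one]
  · intro x hx a a' l l' hl hl' h
    exact ov_1 d hτ A hmal hτA hgA hgτ hgg x hx a a' l l' hl hl' h
  · refine ⟨(v1 g τ false)⁻¹, (FF _ _).inv_mem (Lett.v_mem _), (v1 g τ true)⁻¹,
      (FF _ _).inv_mem (Lett.v_mem _), ?_⟩
    have hτ' : (of τ : H1 G) * of τ = 1 := by rw [← map_mul, hτ, map_one]
    have hτ'' : (of τ : H1 G)⁻¹ = of τ := inv_eq_of_mul_eq_one_left hτ'
    simp only [v1, mul_inv_rev, inv_inv, map_inv]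
    rw [hτ'', mul_assoc t (of τ) (of τ), hτ']
    group

end case1

end Pool.Agent.TH65
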