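import Mathlib
import Pool.Agent.TH65.Case1

set_option autoImplicit false

/-!
# The extension step, second case
-/

namespace Pool.Agent.TH65

open Pool.Agent.Helper495.E97 HNNExtension HNNExtension.NormalWord

section case2

variable {G : Type} [Group G]

theorem mem_zp {x y : G} (hx : x * x = 1) (hy : y ∈ Subgroup.zpowers x) : y = 1 ∨ y = x := by
  obtain ⟨k, rfl⟩ := Subgroup.mem_zpowers_iff.1 hy
  have h2 : x ^ (2 : ℤ) = 1 := by
    rw [show (2 : ℤ) = 1 + 1 from rfl, zpow_add, zpow_one, hx]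
  rcases Int.even_or_odd' k with ⟨m, hm | hm⟩
  · left
    rw [hm, zpow_mul, h2, one_zpow]
  · right
    rw [hm, zpow_add, zpow_mul, h2, one_zpow, one_mul, zpow_one]

theorem exists_phi {τ u : G} (hτ : τ * τ = 1) (hu : u * u = 1) (hτ1 : τ ≠ 1) (hu1 : u ≠ 1) :
    ∃ φ : Subgroup.zpowers τ ≃* Subgroup.zpowers u,
      (φ ⟨τ, Subgroup.mem_zpowers τ⟩ : G) = u := by
  have ho : ∀ x : G, x * x = 1 → x ≠ 1 → orderOf x = 2 := by
    intro x hx hx1
    exact orderOf_eq_prime (by rw [pow_two, hx]) hx1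
  have hc : Nat.card (Subgroup.zpowers τ) = Nat.card (Subgroup.zpowers u) := by
    rw [Nat.card_zpowers, Nat.card_zpowers, ho τ hτ hτ1, ho u hu hu1]
  refine ⟨mulEquivOfCyclicCardEq hc, ?_⟩
  set φ := mulEquivOfCyclicCardEq hc
  rcases mem_zp hu (φ ⟨τ, Subgroup.mem_zpowers τ⟩).2 with h | h
  · exfalso
    have h1 : φ ⟨τ, Subgroup.mem_zpowers τ⟩ = 1 := Subtype.ext h
    have h2 := (map_eq_one_iff φ φ.injective).1 h1
    exact hτ1 (congrArg Subtype.val h2)
  · exact h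

variable {τ u : G} (φ : Subgroup.zpowers τ ≃* Subgroup.zpowers u)

/-- the only letter -/
noncomputable def v2 : Unit → HNNExtension G (Subgroup.zpowers τ) (Subgroup.zpowers u) φ :=
  fun _ => t

/-- sign of a letter -/
def e2 (i : Unit × Bool) : ℤˣ := if i.2 then 1 else -1

theorem vv2 (i : Unit × Bool) : vv (v2 φ) i = t ^ (e2 i : ℤ) := by
  obtain ⟨a, b⟩ := i
  cases b <;> simp [vv, v2, e2]

theorem e2_ivv (i : Unit × Bool) : e2 (ivv i) = - e2 i := by
  obtain ⟨a, b⟩ := i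
  cases b <;> simp [e2, ivv]

theorem e2_inj {i j : Unit × Bool} (h : e2 i = e2 j) : i = j := by
  have t1 : (1 : ℤˣ) ≠ -1 := by decide
  have t2 : (-1 : ℤˣ) ≠ 1 := by decide
  obtain ⟨a, b⟩ := i
  obtain ⟨a', b'⟩ := j
  cases b <;> cases b' <;> simp [e2] at h ⊢

variable (d : TransversalPair G (Subgroup.zpowers τ) (Subgroup.zpowers u))

theorem junc_2 (i j : Unit × Bool) (y : G)
    (h : y ∈ toSubgroup (Subgroup.zpowers τ) (Subgroup.zpowers u) (e2 i) → e2 i = e2 j) :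
    (hnnTree φ d).L (vv (v2 φ) i * of y * vv (v2 φ) j) = 2 := by
  have h1 := junc2 φ d (e2 i) (e2 j) 1 y 1 h
  rw [hnnTree_L, vv2, vv2, ← h1]
  congr 1
  simp only [map_one, one_mul, mul_one]

theorem trans_2 (hτ : τ * τ = 1) (hu : u * u = 1)
    (hφ : (φ ⟨τ, Subgroup.mem_zpowers τ⟩ : G) = u) (i j : Unit × Bool) (y : G) (hy : y ≠ 1)
    (h : (hnnTree φ d).L ((vv (v2 φ) i)⁻¹ * of y * vv (v2 φ) j) = 0) :
    (i.2 = true ∧ y = u ∧ (vv (v2 φ) i)⁻¹ * of y * vv (v2 φ) j = of τ) ∨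
    (i.2 = false ∧ y = τ ∧ (vv (v2 φ) i)⁻¹ * of y * vv (v2 φ) j = of u) := by
  have hrel : (t : HNNExtension G (Subgroup.zpowers τ) (Subgroup.zpowers u) φ) * of τ =
      of u * t := by
    have := t_mul_of (φ := φ) ⟨τ, Subgroup.mem_zpowers τ⟩
    rw [hφ] at this
    exact this
  have h1 : y ∈ toSubgroup (Subgroup.zpowers τ) (Subgroup.zpowers u) (e2 (ivv i)) ∧
      e2 (ivv i) ≠ e2 j := by
    by_contra hcon
    have := junc_2 φ d (ivv i) j y (by
      intro h2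
      by_contra h3
      exact hcon ⟨h2, h3⟩)
    rw [vv_ivv, h] at this
    omega
  have h2 : i = j := by
    obtain ⟨_, h3⟩ := h1
    rw [e2_ivv] at h3
    apply e2_inj
    rcases Int.units_eq_one_or (e2 i) with h | h <;>
      rcases Int.units_eq_one_or (e2 j) with h' | h' <;> simp_all
  subst h2
  obtain ⟨h1, _⟩ := h1
  obtain ⟨a, b⟩ := i
  cases b
  · right
    have hmem : y ∈ Subgroup.zpowers τ := h1
    rcases mem_zp hτ hmem with rfl | rfl
    · exact absurd rfl hy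
    · refine ⟨rfl, rfl, ?_⟩
      simp only [vv, v2, Bool.false_eq_true, if_false, inv_inv]
      rw [hrel]; group
  · left
    have hmem : y ∈ Subgroup.zpowers u := h1
    rcases mem_zp hu hmem with rfl | rfl
    · exact absurd rfl hy
    · refine ⟨rfl, rfl, ?_⟩
      simp only [vv, v2, if_true]
      rw [mul_assoc, ← hrel]; group

theorem lett_2 (hτ : τ * τ = 1) (hu : u * u = 1) (A : Subgroup G) (hτA : τ ∉ A) (huA : u ∉ A) :
    Lett (hnnTree φ d) ((of (φ := φ)).comp A.subtype) (v2 φ) := by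
  refine ⟨?_, ?_, ?_, ?_⟩
  · exact (of_injective _).comp A.subtype_injective
  · intro a
    exact (len_eq_zero_iff _ d _).2 ⟨a, rfl⟩
  · intro i
    rw [hnnTree_L, vv2]
    have := junc1 φ d (e2 i) 1 1
    rw [← this]
    congr 1
    simp only [map_one, one_mul, mul_one]
  · intro i j a hij
    apply junc_2 φ d i j a
    intro h
    have ha : a = 1 := by
      apply Subtype.ext
      rcases Int.units_eq_one_or (e2 i) with hi | hi
      · rw [hi] at h
        have hmem : (a : G) ∈ Subgroup.zpowers τ := h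
        rcases mem_zp hτ hmem with h | h
        · exact h
        · exact absurd (h ▸ a.2) hτA
      · rw [hi] at h
        have hmem : (a : G) ∈ Subgroup.zpowers u := h
        rcases mem_zp hu hmem with h | h
        · exact h
        · exact absurd (h ▸ a.2) huA
    have h3 := hij ha
    by_contra h4
    apply h3
    apply e2_inj
    rw [e2_ivv]
    rcases Int.units_eq_one_or (e2 i) with h | h <;>
      rcases Int.units_eq_one_or (e2 j) with h' | h' <;> simp_all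

theorem ov_2 (hτ : τ * τ = 1) (hu : u * u = 1)
    (hφ : (φ ⟨τ, Subgroup.mem_zpowers τ⟩ : G) = u) (A : Subgroup G)
    (hmal : ∀ x ∈ A, x ≠ 1 → ∀ y, y⁻¹ * x * y ∈ A → y ∈ A) (hτA : τ ∉ A) (huA : u ∉ A)
    (huτ : ∀ a ∈ A, ∀ b ∈ A, u ≠ a * τ * b)
    (x : G) (hx : x ∉ A) (a a' : A) (l l' : List ((Unit × Bool) × A))
    (hl : l.IsChain RR) (hl' : l'.IsChain RR)
    (h : (hnnTree φ d).L
      ((of (a : G) * evl ((of (φ := φ)).comp A.subtype) (v2 φ) l)⁻¹ * of x *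
        (of (a' : G) * evl ((of (φ := φ)).comp A.subtype) (v2 φ) l')) = 0) : l.length ≤ 1 := by
  have Λ := lett_2 φ d hτ hu A hτA huA
  set T := hnnTree φ d with hT
  set ι := (of (φ := φ)).comp A.subtype with hι
  -- general step
  have key : ∀ (x : G) (hx : x ∉ A) (a a' : A) (i i' : (Unit × Bool) × A)
      (l l' : List ((Unit × Bool) × A)), (i :: l).IsChain RR → (i' :: l').IsChain RR →
      T.L ((of (a : G) * evl ι (v2 φ) (i :: l))⁻¹ * of x *
        (of (a' : G) * evl ι (v2 φ) (i' :: l'))) = 0 →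
      ∃ x₁ : G, T.L ((of (i.2 : G) * evl ι (v2 φ) l)⁻¹ * of x₁ *
        (of (i'.2 : G) * evl ι (v2 φ) l')) = 0 ∧
      ((i.1.2 = true ∧ (a : G)⁻¹ * x * a' = u ∧ x₁ = τ) ∨
      (i.1.2 = false ∧ (a : G)⁻¹ * x * a' = τ ∧ x₁ = u)) := by
    intro x hx a a' i i' l l' hl hl' h
    obtain ⟨h1, h2⟩ := Λ.ov_step (of x) ((len_eq_zero_iff _ d _).2 ⟨x, rfl⟩) a a' i i' l l'
      hl hl' h
    have e1 : (ι a)⁻¹ * of x * ι a' = of ((a : G)⁻¹ * x * a') := by
      rw [map_mul, map_mul, map_inv]; rfl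
    rw [e1] at h1 h2
    have hy : (a : G)⁻¹ * x * a' ≠ 1 := by
      intro h0
      apply hx
      have : x = a * ((a : G)⁻¹ * x * a') * (a' : G)⁻¹ := by group
      rw [this, h0, mul_one]
      exact A.mul_mem a.2 (A.inv_mem a'.2)
    rcases trans_2 φ d hτ hu hφ i.1 i'.1 _ hy h1 with ⟨c1, c3, c4⟩ | ⟨c1, c3, c4⟩
    · rw [c4] at h2; exact ⟨τ, h2, Or.inl ⟨c1, c3, rfl⟩⟩
    · rw [c4] at h2; exact ⟨u, h2, Or.inr ⟨c1, c3, rfl⟩⟩
  have hlen : l'.length = l.length := by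
    have h1 := Λ.len a l hl
    have h2 := Λ.len a' l' hl'
    have h3 : T.L (of x) = 0 := (len_eq_zero_iff _ d _).2 ⟨x, rfl⟩
    have h4 : T.L (of x * (ι a' * evl ι (v2 φ) l')) = T.L (ι a * evl ι (v2 φ) l) := by
      have e : of x * (ι a' * evl ι (v2 φ) l') = (ι a * evl ι (v2 φ) l) *
          ((ι a * evl ι (v2 φ) l)⁻¹ * of x * (ι a' * evl ι (v2 φ) l')) := by group
      have h' : T.L ((ι a * evl ι (v2 φ) l)⁻¹ * of x * (ι a' * evl ι (v2 φ) l')) = 0 := h
      rw [e, T.L_mul_right0 h']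
    rw [T.L_mul_left0 h3, h1, h2] at h4
    exact h4
  by_contra hcon
  push Not at hcon
  obtain ⟨i₁, i₂, m, rfl⟩ : ∃ i₁ i₂ m, l = i₁ :: i₂ :: m := by
    match l, hcon with
    | i₁ :: i₂ :: m, _ => exact ⟨i₁, i₂, m, rfl⟩
  obtain ⟨j₁, j₂, m', rfl⟩ : ∃ i₁ i₂ m, l' = i₁ :: i₂ :: m := by
    match l', (by rw [hlen]; exact hcon : 1 < l'.length) with
    | i₁ :: i₂ :: m, _ => exact ⟨i₁, i₂, m, rfl⟩
  have hl2 := List.isChain_cons.1 hl
  have hl2' := List.isChain_cons.1 hl'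
  have r12 : RR i₁ i₂ := hl2.1 i₂ (by simp)
  obtain ⟨x₁, h1, st1⟩ := key x hx a a' i₁ j₁ _ _ hl hl' h
  have hbool : ∀ b : Bool, i₁.1.2 = b → i₂.1.2 = !b → i₁.2 ≠ 1 := by
    intro b h1 h2 h3
    apply r12 h3
    apply Prod.ext
    · rfl
    · simp only [ivv, h1, h2]
  rcases st1 with ⟨s1, _, rfl⟩ | ⟨s1, _, rfl⟩
  · obtain ⟨x₂, _, st2⟩ := key x₁ hτA i₁.2 j₁.2 i₂ j₂ _ _ hl2.2 hl2'.2 h1
    rcases st2 with ⟨c1, c2, _⟩ | ⟨c1, c2, _⟩
    · exact huτ _ (A.inv_mem i₁.2.2) _ j₁.2.2 c2.symm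
    · exact hbool true s1 c1 (mal_help hmal _ hτA _ _ c2)
  · obtain ⟨x₂, _, st2⟩ := key x₁ huA i₁.2 j₁.2 i₂ j₂ _ _ hl2.2 hl2'.2 h1
    rcases st2 with ⟨c1, c2, _⟩ | ⟨c1, c2, _⟩
    · exact hbool false s1 c1 (mal_help hmal _ huA _ _ c2)
    · apply huτ _ i₁.2.2 _ (A.inv_mem j₁.2.2)
      rw [← c2]; group

theorem concl_2 [Countable G] (hτ : τ * τ = 1) (hu : u * u = 1) (hτ1 : τ ≠ 1) (hu1 : u ≠ 1)
    (A : Subgroup G) [Finite A]
    (hmal : ∀ x ∈ A, x ≠ 1 → ∀ y, y⁻¹ * x * y ∈ A → y ∈ A)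
    (hodd : ∀ x ∈ A, x * x = 1 → x = 1) (hτA : τ ∉ A) (huA : u ∉ A)
    (huτ : ∀ a ∈ A, ∀ b ∈ A, u ≠ a * τ * b) :
    StepConcl G A τ u := by
  obtain ⟨φ, hφ⟩ := exists_phi hτ hu hτ1 hu1
  obtain ⟨d⟩ := (inferInstance :
    Nonempty (TransversalPair G (Subgroup.zpowers τ) (Subgroup.zpowers u)))
  refine from_hnn φ d A hmal hodd τ u (v2 φ) (lett_2 φ d hτ hu A hτA huA) ?_ 1 ?_ ?_
  · intro w x hx
    rcases Int.units_eq_one_or w with rfl | rfl
    · rcases mem_zp hτ (show x ∈ Subgroup.zpowers τ from hx) with rfl | rfl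
      · exact mul_one 1
      · exact hτ
    · rcases mem_zp hu (show x ∈ Subgroup.zpowers u from hx) with rfl | rfl
      · exact mul_one 1
      · exact hu
  · intro x hx a a' l l' hl hl' h
    exact ov_2 φ d hτ hu hφ A hmal hτA huA huτ x hx a a' l l' hl hl' h
  · refine ⟨v2 φ (), Lett.v_mem _, (v2 φ ())⁻¹, (FF _ _).inv_mem (Lett.v_mem _), ?_⟩
    have hrel : (t : HNNExtension G (Subgroup.zpowers τ) (Subgroup.zpowers u) φ) * of τ =
        of u * t := by
      have := t_mul_of (φ := φ) ⟨τ, Subgroup.mem_zpowers τ⟩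
      rw [hφ] at this
      exact this
    simp only [v2]
    rw [hrel]; group

end case2

/-- The extension step. -/
theorem step {G : Type} [Group G] [Countable G] (A : Subgroup G) [Finite A]
    (hmal : ∀ x ∈ A, x ≠ 1 → ∀ y, y⁻¹ * x * y ∈ A → y ∈ A)
    (hodd : ∀ x ∈ A, x * x = 1 → x = 1) (τ : G) (hτ : τ * τ = 1) (hτ1 : τ ≠ 1) (g : G) :
    StepConcl G A τ g := by
  classical
  have hτA : τ ∉ A := fun h => hτ1 (hodd τ h hτ)
  by_cases hgA : g ∈ A
  · exact ⟨G, inferInstance, inferInstance, MonoidHom.id G, A, Function.injective_id,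
      Set.toFinite _, hmal, hodd, fun _ => Iff.rfl, Or.inl hgA⟩
  by_cases hgτ : ∃ a ∈ A, ∃ b ∈ A, g = a * τ * b
  · exact ⟨G, inferInstance, inferInstance, MonoidHom.id G, A, Function.injective_id,
      Set.toFinite _, hmal, hodd, fun _ => Iff.rfl, Or.inr hgτ⟩
  push Not at hgτ
  by_cases hgg : ∃ a ∈ A, ∃ b ∈ A, g⁻¹ = a * g * b
  · obtain ⟨a, ha, b, hb, hab⟩ := hgg
    -- g * a is an involution
    set u := g * a with hu
    have huA : u ∉ A := by
      intro h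
      apply hgA
      have : g = u * a⁻¹ := by rw [hu]; group
      rw [this]
      exact A.mul_mem h (A.inv_mem ha)
    have huu : u * u = b⁻¹ * a := by
      have h1 : g * (a * g * b) = 1 := by rw [← hab]; group
      have : u * u = (g * (a * g * b)) * (b⁻¹ * a) := by rw [hu]; group
      rw [this, h1, one_mul]
    have huuA : u * u ∈ A := by rw [huu]; exact A.mul_mem (A.inv_mem hb) ha
    have hu2 : u * u = 1 := by
      by_contra hne
      apply huA
      apply hmal (u * u) huuA hne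
      have : u⁻¹ * (u * u) * u = u * u := by group
      rw [this]; exact huuA
    have hu1 : u ≠ 1 := fun h => huA (h ▸ A.one_mem)
    have huτ : ∀ a ∈ A, ∀ b ∈ A, u ≠ a * τ * b := by
      intro c hc e he h
      apply hgτ c hc (e * a⁻¹) (A.mul_mem he (A.inv_mem ha))
      have : g = u * a⁻¹ := by rw [hu]; group
      rw [this, h]; group
    obtain ⟨Q, i1, i2, j, A', h1, h2, h3, h4, h5, h6⟩ :=
      concl_2 hτ hu2 hτ1 hu1 A hmal hodd hτA huA huτ
    refine ⟨Q, i1, i2, j, A', h1, h2, h3, h4, h5, ?_⟩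
    have haA' : j a⁻¹ ∈ A' := (h5 _).2 (A.inv_mem ha)
    have hgu : j g = j u * j a⁻¹ := by rw [← map_mul, hu]; congr 1; group
    rcases h6 with h6 | ⟨c, hc, e, he, h6⟩
    · left
      rw [hgu]
      exact A'.mul_mem h6 haA'
    · right
      refine ⟨c, hc, e * j a⁻¹, A'.mul_mem he haA', ?_⟩
      rw [hgu, h6]; group
  · push Not at hgg
    exact concl_1 hτ A hmal hodd hτA hgA hgτ hgg

end Pool.Agent.TH65
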