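import Mathlib
import Pool.Agent.TH65.Case2
import Pool.Agent.Helper868.LFS8

set_option autoImplicit false

/-!
# The tower
-/

namespace Pool.Agent.TH65

open Function H868.LFS

/-- A stage of the construction. -/
structure St where
  G : Type
  [grp : Group G]
  [cnt : Countable G]
  A : Subgroup G
  τ : G
  fin : (A : Set G).Finite
  mal : ∀ x ∈ A, x ≠ 1 → ∀ y, y⁻¹ * x * y ∈ A → y ∈ A
  odd : ∀ x ∈ A, x * x = 1 → x = 1
  inv : τ * τ = 1
  ne : τ ≠ 1
  e : ℕ → ℕ → G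

attribute [instance] St.grp St.cnt

theorem next_st (S : St) (n : ℕ) : ∃ (S' : St) (j : S.G →* S'.G), Injective j ∧
    (∀ x, j x ∈ S'.A ↔ x ∈ S.A) ∧ j S.τ = S'.τ ∧ (∀ m k, m ≤ n → S'.e m k = j (S.e m k)) ∧
    (∀ x : S'.G, ∃ k, S'.e (n + 1) k = x) ∧
    (j (S.e n.unpair.1 n.unpair.2) ∈ S'.A ∨ ∃ a ∈ S'.A, ∃ b ∈ S'.A,
      j (S.e n.unpair.1 n.unpair.2) = a * S'.τ * b) := by
  classical
  have : Finite S.A := S.fin
  obtain ⟨Q, _, _, j, A', h1, h2, h3, h4, h5, h6⟩ := step S.A S.mal S.odd S.τ S.inv S.ne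
    (S.e n.unpair.1 n.unpair.2)
  obtain ⟨f, hf⟩ := exists_surjective_nat Q
  refine ⟨{ G := Q, A := A', τ := j S.τ, fin := h2, mal := h3, odd := h4, inv := ?_, ne := ?_,
            e := fun m k => if m ≤ n then j (S.e m k) else f k }, j, h1, h5, rfl, ?_, ?_, h6⟩
  · rw [← map_mul, S.inv, map_one]
  · intro h
    exact S.ne (h1 (by rw [h, map_one]))
  · intro m k hm
    exact if_pos hm
  · intro x
    obtain ⟨k, hk⟩ := hf x
    exact ⟨k, by simp only [show ¬ (n + 1 ≤ n) by omega, if_false]; exact hk⟩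

theorem d3 : (Equiv.swap (0 : Fin 3) 1 * Equiv.swap 0 1 = 1) ∧ (Equiv.swap (0 : Fin 3) 1 ≠ 1) ∧
    (Equiv.swap (1 : Fin 3) 2 * Equiv.swap 1 2 = 1) ∧ (Equiv.swap (1 : Fin 3) 2 ≠ 1) ∧
    (Equiv.swap (1 : Fin 3) 2 * Equiv.swap 0 1 ≠ Equiv.swap 0 1 * Equiv.swap 1 2) := by
  decide

/-- The first stage: the symmetric group on three letters. -/
theorem first_st : ∃ (S : St) (σ : S.G), σ * σ = 1 ∧ σ ≠ 1 ∧ σ * S.τ ≠ S.τ * σ ∧
    ∀ x : S.G, ∃ k, S.e 0 k = x := by
  classical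
  obtain ⟨f, hf⟩ := exists_surjective_nat (Equiv.Perm (Fin 3))
  refine ⟨{ G := Equiv.Perm (Fin 3), A := ⊥, τ := Equiv.swap 0 1, fin := Set.toFinite _,
            mal := ?_, odd := ?_, inv := ?_, ne := ?_, e := fun _ k => f k },
    Equiv.swap 1 2, ?_, ?_, ?_, hf⟩
  · intro x hx hx1
    exact absurd (Subgroup.mem_bot.1 hx) hx1
  · intro x hx _
    exact Subgroup.mem_bot.1 hx
  · exact d3.1
  · exact d3.2.1
  · exact d3.2.2.1
  · exact d3.2.2.2.1
  · exact d3.2.2.2.2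

/-- the tower of stages -/
noncomputable def tow : ℕ → St
  | 0 => first_st.choose
  | n + 1 => (next_st (tow n) n).choose

/-- the maps of the tower -/
noncomputable def tj (n : ℕ) : (tow n).G →* (tow (n + 1)).G :=
  (next_st (tow n) n).choose_spec.choose

theorem tj_spec (n : ℕ) : Injective (tj n) ∧
    (∀ x, tj n x ∈ (tow (n + 1)).A ↔ x ∈ (tow n).A) ∧ tj n (tow n).τ = (tow (n + 1)).τ ∧
    (∀ m k, m ≤ n → (tow (n + 1)).e m k = tj n ((tow n).e m k)) ∧
    (∀ x : (tow (n + 1)).G, ∃ k, (tow (n + 1)).e (n + 1) k = x) ∧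
    (tj n ((tow n).e n.unpair.1 n.unpair.2) ∈ (tow (n + 1)).A ∨
      ∃ a ∈ (tow (n + 1)).A, ∃ b ∈ (tow (n + 1)).A,
      tj n ((tow n).e n.unpair.1 n.unpair.2) = a * (tow (n + 1)).τ * b) :=
  (next_st (tow n) n).choose_spec.choose_spec

theorem tow_enum (n : ℕ) : ∀ x : (tow n).G, ∃ k, (tow n).e n k = x := by
  cases n with
  | zero =>
    obtain ⟨σ, hσ⟩ := first_st.choose_spec
    exact hσ.2.2.2
  | succ n => exact (tj_spec n).2.2.2.2.1

/-- The limit group. -/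
theorem limit_group : ∃ (L : Type) (_ : Group L) (A : Subgroup L) (τ σ : L),
    (∀ x ∈ A, x ≠ 1 → ∀ y, y⁻¹ * x * y ∈ A → y ∈ A) ∧
    (∀ x ∈ A, x * x = 1 → x = 1) ∧ τ * τ = 1 ∧ τ ≠ 1 ∧ σ * σ = 1 ∧ σ ≠ 1 ∧ σ * τ ≠ τ * σ ∧
    (∀ g, g ∈ A ∨ ∃ a ∈ A, ∃ b ∈ A, g = a * τ * b) ∧
    (∀ s : Finset L, (∀ x ∈ s, x ∈ A) → (Subgroup.closure (s : Set L) : Set L).Finite) := by
  classical
  obtain ⟨L, _, o, ho1, ho2, ho3⟩ := exists_limit (G := fun n => (tow n).G) tj
    (fun n => (tj_spec n).1)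
  obtain ⟨σ₀, hσ1, hσ2, hσ3⟩ : ∃ σ₀ : (tow 0).G, σ₀ * σ₀ = 1 ∧ σ₀ ≠ 1 ∧
      σ₀ * (tow 0).τ ≠ (tow 0).τ * σ₀ := by
    obtain ⟨σ, h1, h2, h3, _⟩ := first_st.choose_spec
    exact ⟨σ, h1, h2, h3⟩
  -- transitions
  have up : ∀ (m n : ℕ), m ≤ n → ∀ x : (tow m).G, ∃ y : (tow n).G, o m x = o n y ∧
      (y ∈ (tow n).A ↔ x ∈ (tow m).A) := by
    intro m n h
    induction n, h using Nat.le_induction with
    | base => intro x; exact ⟨x, rfl, Iff.rfl⟩
    | succ n h ih =>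
      intro x
      obtain ⟨y, hy1, hy2⟩ := ih x
      exact ⟨tj n y, by rw [hy1]; exact (ho2 n y).symm, by rw [(tj_spec n).2.1, hy2]⟩
  let A : Subgroup L :=
    { carrier := {x | ∃ n, ∃ a ∈ (tow n).A, x = o n a}
      one_mem' := ⟨0, 1, (tow 0).A.one_mem, by rw [map_one]⟩
      mul_mem' := by
        rintro _ _ ⟨n, a, ha, rfl⟩ ⟨m, b, hb, rfl⟩
        obtain ⟨a', ha1, ha2⟩ := up n (max n m) (le_max_left _ _) a
        obtain ⟨b', hb1, hb2⟩ := up m (max n m) (le_max_right _ _) b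
        exact ⟨max n m, a' * b', (tow _).A.mul_mem (ha2.2 ha) (hb2.2 hb), by
          rw [ha1, hb1, map_mul]⟩
      inv_mem' := by
        rintro _ ⟨n, a, ha, rfl⟩
        exact ⟨n, a⁻¹, (tow n).A.inv_mem ha, by rw [map_inv]⟩ }
  have memA : ∀ n (x : (tow n).G), o n x ∈ A ↔ x ∈ (tow n).A := by
    intro n x
    constructor
    · rintro ⟨m, a, ha, hxa⟩
      obtain ⟨x', hx1, hx2⟩ := up n (max n m) (le_max_left _ _) x
      obtain ⟨a', ha1, ha2⟩ := up m (max n m) (le_max_right _ _) a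
      have : x' = a' := ho1 _ (by rw [← hx1, ← ha1, hxa])
      rw [← hx2, this, ha2]
      exact ha
    · intro hx
      exact ⟨n, x, hx, rfl⟩
  have hτ : ∀ n, o n (tow n).τ = o 0 (tow 0).τ := by
    intro n
    induction n with
    | zero => rfl
    | succ n ih => rw [← ih, ← (tj_spec n).2.2.1]; exact ho2 n _
  have two : ∀ x y : L, ∃ n, ∃ a b : (tow n).G, x = o n a ∧ y = o n b := by
    intro x y
    obtain ⟨n, a, ha⟩ := ho3 x
    obtain ⟨m, b, hb⟩ := ho3 y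
    obtain ⟨a', ha1, _⟩ := up n (max n m) (le_max_left _ _) a
    obtain ⟨b', hb1, _⟩ := up m (max n m) (le_max_right _ _) b
    exact ⟨max n m, a', b', by rw [ha, ha1], by rw [hb, hb1]⟩
  refine ⟨L, inferInstance, A, o 0 (tow 0).τ, o 0 σ₀, ?_, ?_, ?_, ?_, ?_, ?_, ?_, ?_, ?_⟩
  · intro x hx hx1 y hy
    obtain ⟨n, a, b, rfl, rfl⟩ := two x y
    rw [← map_inv, ← map_mul, ← map_mul, memA] at hy
    rw [memA] at hx ⊢
    exact (tow n).mal a hx (fun h => hx1 (by rw [h, map_one])) b hy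
  · intro x hx hxx
    obtain ⟨n, a, rfl⟩ := ho3 x
    rw [memA] at hx
    rw [← map_mul] at hxx
    have : a * a = 1 := ho1 n (by rw [hxx]; exact (map_one _).symm)
    rw [(tow n).odd a hx this, map_one]
  · rw [← map_mul, (tow 0).inv, map_one]
  · intro h
    exact (tow 0).ne (ho1 0 (by rw [h, map_one]))
  · rw [← map_mul]
    have : σ₀ * σ₀ = 1 := hσ1
    rw [this, map_one]
  · intro h
    exact hσ2 (ho1 0 (by rw [h, map_one]))
  · intro h
    rw [← map_mul, ← map_mul] at h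
    exact hσ3 (ho1 0 h)
  · intro g
    obtain ⟨m, x, rfl⟩ := ho3 g
    obtain ⟨k, hk⟩ := tow_enum m x
    have hmn : m ≤ Nat.pair m k := Nat.left_le_pair m k
    have tre : ∀ n, m ≤ n → o m x = o n ((tow n).e m k) := by
      intro n h
      induction n, h using Nat.le_induction with
      | base => rw [hk]
      | succ n h ih =>
        rw [ih, (tj_spec n).2.2.2.1 m k h]
        exact (ho2 n _).symm
    have h1 := (tj_spec (Nat.pair m k)).2.2.2.2.2
    rw [Nat.unpair_pair] at h1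
    have h2 : o m x = o (Nat.pair m k + 1) (tj (Nat.pair m k) ((tow (Nat.pair m k)).e m k)) := by
      rw [tre _ hmn]
      exact (ho2 _ _).symm
    rw [h2]
    rcases h1 with h1 | ⟨a, ha, b, hb, h1⟩
    · left
      rw [memA]; exact h1
    · right
      refine ⟨_, (memA _ a).2 ha, _, (memA _ b).2 hb, ?_⟩
      rw [← hτ (Nat.pair m k + 1), ← map_mul, ← map_mul]
      exact congrArg _ h1
  · intro s hs
    -- all elements of the finite set live at one stage
    have : ∃ n, ∀ x ∈ s, ∃ a ∈ (tow n).A, x = o n a := by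
      induction s using Finset.induction_on with
      | empty => exact ⟨0, by simp⟩
      | insert x s hxs ih =>
        obtain ⟨n, hn⟩ := ih (fun y hy => hs y (Finset.mem_insert_of_mem hy))
        obtain ⟨m, a, ha, hxa⟩ := hs x (Finset.mem_insert_self x s)
        refine ⟨max n m, ?_⟩
        intro y hy
        rcases Finset.mem_insert.1 hy with rfl | hy
        · obtain ⟨a', ha1, ha2⟩ := up m (max n m) (le_max_right _ _) a
          exact ⟨a', ha2.2 ha, by rw [hxa, ha1]⟩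
        · obtain ⟨b, hb, hyb⟩ := hn y hy
          obtain ⟨b', hb1, hb2⟩ := up n (max n m) (le_max_left _ _) b
          exact ⟨b', hb2.2 hb, by rw [hyb, hb1]⟩
    obtain ⟨n, hn⟩ := this
    have hfin : (((tow n).A.map (o n) : Subgroup L) : Set L).Finite := by
      rw [Subgroup.coe_map]
      exact (tow n).fin.image _
    apply hfin.subset
    have hle : Subgroup.closure (s : Set L) ≤ (tow n).A.map (o n) := by
      rw [Subgroup.closure_le]
      intro x hx
      obtain ⟨a, ha, rfl⟩ := hn x hx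
      exact Subgroup.mem_map_of_mem _ ha
    exact hle

end Pool.Agent.TH65
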