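import Mathlib
import Pool.Agent.TH65.Tower

set_option autoImplicit false

/-!
# A sharply 2-transitive group with locally finite point stabilizer and no regular normal subgroup
-/

namespace Pool.Agent.TH65

theorem sharp : ∃ (Ω : Type) (_ : Nontrivial Ω) (G : Subgroup (Equiv.Perm Ω)),
    (∀ a b c d : Ω, a ≠ b → c ≠ d →
        ∃! g : Equiv.Perm Ω, g ∈ G ∧ g a = c ∧ g b = d) ∧
    (∃ ω : Ω, ∀ s : Finset (Equiv.Perm Ω), (∀ g ∈ s, g ∈ G ∧ g ω = ω) →
        ((Subgroup.closure (s : Set (Equiv.Perm Ω)) : Subgroup (Equiv.Perm Ω)) :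
          Set (Equiv.Perm Ω)).Finite) ∧
    ¬ ∃ N : Subgroup (Equiv.Perm Ω), N ≤ G ∧
        (∀ g ∈ G, ∀ n ∈ N, g * n * g⁻¹ ∈ N) ∧
        ∀ a b : Ω, ∃! n : Equiv.Perm Ω, n ∈ N ∧ n a = b := by
  classical
  obtain ⟨L, _, A, τ, σ, hmal, hodd, hτ, hτ1, hσ, hσ1, hστ, hdec, hlf⟩ := limit_group
  have hτA : τ ∉ A := fun h => hτ1 (hodd τ h hτ)
  have hτ' : τ⁻¹ = τ := inv_eq_of_mul_eq_one_left hτ
  have hmk : ∀ x : L, ∀ y : L, ((x : L ⧸ A) = (y : L ⧸ A)) ↔ x⁻¹ * y ∈ A :=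
    fun x y => QuotientGroup.eq
  let P : L →* Equiv.Perm (L ⧸ A) := MulAction.toPermHom L (L ⧸ A)
  have hP : ∀ (x : L) (y : L), P x (y : L ⧸ A) = ((x * y : L) : L ⧸ A) := fun x y => rfl
  have hPinj : Function.Injective P := by
    rw [injective_iff_map_eq_one]
    intro x hx
    by_contra hne
    have h1 : P x ((1 : L) : L ⧸ A) = ((1 : L) : L ⧸ A) := by rw [hx]; rfl
    have h2 : P x ((τ : L) : L ⧸ A) = ((τ : L) : L ⧸ A) := by rw [hx]; rfl
    rw [hP, hmk] at h1 h2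
    have h3 : x ∈ A := by
      have := A.inv_mem h1
      simpa using this
    apply hτA
    apply hmal x h3 hne
    have := A.inv_mem h2
    have e : ((x * τ)⁻¹ * τ)⁻¹ = τ⁻¹ * x * τ := by group
    rwa [e] at this
  -- pairs
  have pairs : ∀ a b : L ⧸ A, a ≠ b → ∃ z : L, a = (z : L ⧸ A) ∧ b = ((z * τ : L) : L ⧸ A) := by
    intro a b hab
    obtain ⟨x, rfl⟩ := QuotientGroup.mk_surjective a
    obtain ⟨y, rfl⟩ := QuotientGroup.mk_surjective b
    rw [Ne, hmk] at hab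
    rcases hdec (x⁻¹ * y) with h | ⟨p, hp, q, hq, h⟩
    · exact absurd h hab
    · refine ⟨x * p, ?_, ?_⟩
      · rw [hmk]
        have : x⁻¹ * (x * p) = p := by group
        rw [this]; exact hp
      · rw [hmk]
        have h3 : y = x * (p * τ * q) := by rw [← h]; group
        have : y⁻¹ * (x * p * τ) = q⁻¹ := by rw [h3]; group
        rw [this]; exact A.inv_mem hq
  have uniq : ∀ x : L, x ∈ A → τ⁻¹ * x * τ ∈ A → x = 1 := by
    intro x hx h
    by_contra hne
    exact hτA (hmal x hx hne τ h)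
  have hnt : Nontrivial (L ⧸ A) := ⟨⟨((1 : L) : L ⧸ A), (τ : L ⧸ A), by
    rw [Ne, hmk, inv_one, one_mul]; exact hτA⟩⟩
  refine ⟨L ⧸ A, hnt, P.range, ?_, ?_, ?_⟩
  · intro a b c d hab hcd
    obtain ⟨z, rfl, rfl⟩ := pairs a b hab
    obtain ⟨w, rfl, rfl⟩ := pairs c d hcd
    refine ⟨P (w * z⁻¹), ⟨⟨_, rfl⟩, ?_, ?_⟩, ?_⟩
    · rw [hP]; congr 1; group
    · rw [hP]; congr 1; group
    · rintro _ ⟨⟨x, rfl⟩, h1, h2⟩
      rw [hP, hmk] at h1 h2
      have h3 : x⁻¹ * (w * z⁻¹) = 1 := by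
        have h4 := uniq ((x * z)⁻¹ * w) h1 (by
          have e : τ⁻¹ * ((x * z)⁻¹ * w) * τ = (x * (z * τ))⁻¹ * (w * τ) := by group
          rw [e]; exact h2)
        have e : x⁻¹ * (w * z⁻¹) = z * ((x * z)⁻¹ * w) * z⁻¹ := by group
        rw [e, h4]; group
      have h5 : x = w * z⁻¹ := inv_mul_eq_one.1 h3
      rw [h5]
  · refine ⟨((1 : L) : L ⧸ A), ?_⟩
    intro s hs
    have hx : ∀ g : Equiv.Perm (L ⧸ A), g ∈ s → ∃ x : L, P x = g := fun g hg => (hs g hg).1
    let f : Equiv.Perm (L ⧸ A) → L := fun g => if h : ∃ x : L, P x = g then h.choose else 1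
    have hf : ∀ g ∈ s, P (f g) = g := by
      intro g hg
      have h := hx g hg
      change P (if h : ∃ x : L, P x = g then h.choose else 1) = g
      rw [dif_pos h]; exact h.choose_spec
    have hfA : ∀ x ∈ s.image f, x ∈ A := by
      intro x hx
      obtain ⟨g, hg, rfl⟩ := Finset.mem_image.1 hx
      have h1 := (hs g hg).2
      have h2 := hf g hg
      rw [← h2, hP, hmk] at h1
      have := A.inv_mem h1
      simpa using this
    have hfin := hlf (s.image f) hfA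
    have hfin2 := hfin.image P
    apply hfin2.subset
    have hle : Subgroup.closure (s : Set (Equiv.Perm (L ⧸ A))) ≤
        (Subgroup.closure ((s.image f : Finset L) : Set L)).map P := by
      rw [Subgroup.closure_le]
      intro g hg
      refine ⟨f g, Subgroup.subset_closure ?_, hf g hg⟩
      exact Finset.mem_coe.2 (Finset.mem_image_of_mem f hg)
    exact hle
  · rintro ⟨N, hNG, hNn, hNr⟩
    -- the normal subgroup inside the abstract group
    have hreg : ∀ x : L, P x ∈ N → x ∈ A → x = 1 := by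
      intro x hx hxA
      obtain ⟨n, _, hn⟩ := hNr ((1 : L) : L ⧸ A) ((1 : L) : L ⧸ A)
      have h1 : P x = n := hn _ ⟨hx, by
        rw [hP, hmk]
        have := A.inv_mem hxA
        simpa using this⟩
      have h2 : 1 = n := hn _ ⟨N.one_mem, rfl⟩
      apply hPinj
      rw [h1, ← h2, map_one]
    have inN : ∀ u : L, u * u = 1 → P u ∈ N := by
      intro u hu
      obtain ⟨n, ⟨hn1, hn2⟩, _⟩ := hNr ((1 : L) : L ⧸ A) ((u : L) : L ⧸ A)
      obtain ⟨x, rfl⟩ := hNG hn1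
      rw [hP, mul_one, hmk] at hn2
      -- x⁻¹ * u =: a in A
      have h1 : P ((x⁻¹ * u) * (x⁻¹ * u)) ∈ N := by
        have e : (x⁻¹ * u) * (x⁻¹ * u) = x⁻¹ * (u * x⁻¹ * u⁻¹) * (u * u) := by group
        rw [e, hu, mul_one, map_mul, map_mul, map_mul, map_inv, map_inv]
        exact N.mul_mem (N.inv_mem hn1) (hNn _ ⟨u, rfl⟩ _ (N.inv_mem hn1))
      have h2 := hreg _ h1 (A.mul_mem hn2 hn2)
      have h3 := hodd _ hn2 h2
      have h4 : x = u := inv_mul_eq_one.1 h3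
      rw [← h4]; exact hn1
    have exp2 : ∀ x : L, P x ∈ N → x * x = 1 := by
      intro x hx
      rcases hdec x with h | ⟨a, ha, b, hb, h⟩
      · rw [hreg x hx h, mul_one]
      · -- x and a τ a⁻¹ agree
        have h1 : P (a * τ * a⁻¹) ∈ N := inN _ (by
          have e : a * τ * a⁻¹ * (a * τ * a⁻¹) = a * (τ * τ) * a⁻¹ := by group
          rw [e, hτ]; group)
        have h2 : P (x⁻¹ * (a * τ * a⁻¹)) ∈ N := by
          rw [map_mul, map_inv]
          exact N.mul_mem (N.inv_mem hx) h1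
        have h3 : x⁻¹ * (a * τ * a⁻¹) ∈ A := by
          have e : x⁻¹ * (a * τ * a⁻¹) = b⁻¹ * a⁻¹ := by rw [h]; group
          rw [e]
          exact A.mul_mem (A.inv_mem hb) (A.inv_mem ha)
        have h4 := hreg _ h2 h3
        have h5 : x = a * τ * a⁻¹ := inv_mul_eq_one.1 h4
        rw [h5]
        have e : a * τ * a⁻¹ * (a * τ * a⁻¹) = a * (τ * τ) * a⁻¹ := by group
        rw [e, hτ]; group
    apply hστ
    have h1 := inN τ hτ
    have h2 := inN σ hσ
    have h3 : P (σ * τ) ∈ N := by rw [map_mul]; exact N.mul_mem h2 h1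
    have h4 := exp2 _ h3
    have hσ' : σ⁻¹ = σ := inv_eq_of_mul_eq_one_left hσ
    have h5 : σ * τ = (σ * τ)⁻¹ := eq_inv_of_mul_eq_one_left h4
    rw [h5, mul_inv_rev, hσ', hτ']

end Pool.Agent.TH65
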